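import Pool.Agent.H226.DE.Bd

/-!
The a priori bounds without dissipation, if all the far triads are far from resonance.
-/

open MeasureTheory Set Filter Topology
open scoped ENNReal InnerProductSpace NNReal
open H459R3.NS Pool.Agent.X96.HT Pool.Agent.X96.DM

namespace Pool.Agent.H226.DE

open Pool.Agent.H226.SW hiding Fk Fk_apply

variable {η : Md → Md → Md → ℝ} {D : K3 → ℂ} {S : Finset K3} {H E : ℝ} {U : K3 → C3}

/-- linear growth inequality -/
lemma growth {T A K : ℝ} (hA : 0 ≤ A) (hK : 0 ≤ K) {f f' : ℝ → ℝ}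
    (hf : ∀ t ∈ Icc 0 T, HasDerivWithinAt f (f' t) (Icc 0 T) t)
    (hb : ∀ t ∈ Icc 0 T, f' t ≤ A + K * f t) {t : ℝ} (ht : t ∈ Icc 0 T) :
    f t ≤ Real.exp (K * t) * (f 0 + A * t) := by
  set g : ℝ → ℝ := fun s => Real.exp (-(K * s)) * f s - A * s with hg
  have hgd : ∀ s ∈ Icc 0 T, HasDerivWithinAt g
      (-K * Real.exp (-(K * s)) * f s + Real.exp (-(K * s)) * f' s - A) (Icc 0 T) s := by
    intro s hs
    have h1 : HasDerivWithinAt (fun s : ℝ => Real.exp (-(K * s))) (-K * Real.exp (-(K * s)))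
        (Icc 0 T) s := by
      have h2 : HasDerivAt (fun s : ℝ => -(K * s)) (-K) s := by
        simpa using ((hasDerivAt_id' s).const_mul K).fun_neg
      refine (h2.exp.hasDerivWithinAt).congr_deriv ?_
      ring
    have h3 := (h1.mul (hf s hs)).sub ((hasDerivWithinAt_id s (Icc 0 T)).const_mul A)
    refine h3.congr_deriv ?_
    simp
  have hanti : AntitoneOn g (Icc 0 T) := by
    refine antitoneOn_of_hasDerivWithinAt_nonpos (convex_Icc 0 T)
      (fun s hs => (hgd s hs).continuousWithinAt)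
      (f' := fun s => -K * Real.exp (-(K * s)) * f s + Real.exp (-(K * s)) * f' s - A)
      (fun s hs => (hgd s (interior_subset hs)).mono interior_subset) fun s hs => ?_
    have hs' := interior_subset hs
    have h1 := hb s hs'
    have h2 : 0 < Real.exp (-(K * s)) := Real.exp_pos _
    have h3 : Real.exp (-(K * s)) ≤ 1 := by
      rw [Real.exp_le_one_iff]
      have := mul_nonneg hK hs'.1
      linarith
    have h4 : Real.exp (-(K * s)) * f' s ≤ Real.exp (-(K * s)) * (A + K * f s) := by gcongr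
    have h5 : Real.exp (-(K * s)) * A ≤ 1 * A := by gcongr
    calc -K * Real.exp (-(K * s)) * f s + Real.exp (-(K * s)) * f' s - A
        ≤ -K * Real.exp (-(K * s)) * f s + Real.exp (-(K * s)) * (A + K * f s) - A := by linarith
      _ = Real.exp (-(K * s)) * A - A := by ring
      _ ≤ 0 := by linarith
  have h0 : (0 : ℝ) ∈ Icc 0 T := ⟨le_rfl, ht.1.trans ht.2⟩
  have h1 := hanti h0 ht ht.1
  simp only [hg, mul_zero, neg_zero, Real.exp_zero, one_mul, sub_zero] at h1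
  have h2 : Real.exp (-(K * t)) * f t ≤ f 0 + A * t := by linarith
  rw [Real.exp_neg, inv_mul_le_iff₀ (Real.exp_pos _)] at h2
  exact h2

lemma nw_hn (hS : ∀ k ∉ S, U k = 0) (n : ℕ) : nw S (fun k => kn k ^ n) U = hn n U := by
  rw [hn_fin hS]
  rfl

lemma XS_le_hn (hS : ∀ k ∉ S, U k = 0) (n : ℕ) : XS S (fun k => ‖U k‖) n ≤ hn n U := by
  rw [hn_fin hS]
  refine Finset.sum_le_sum fun k _ => ?_
  have := kn_nonneg k
  gcongr
  exact norm_sq_le_sum (U k)

lemma GalC.energy {T : ℝ} {a : ℝ → K3 → C3} (hη : IsWeight η) (hD0 : ∀ k, 0 ≤ (D k).re)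
    (h : GalC η D T S a) {t : ℝ} (ht : t ∈ Icc 0 T) : hn 0 (a t) ≤ hn 0 (a 0) := by
  have h1 : ∀ s ∈ Icc 0 T, HasDerivWithinAt (fun s => nw S (fun _ => 1) (a s))
      (-(2 * nw S (fun k => 1 * (D k).re) (a s))) (Icc 0 T) s := by
    intro s hs
    refine (h.nw_deriv' (fun _ => 1) hs).congr_deriv ?_
    have h2 := pair_w hη (h.supp s) (h.div s) (h.real s) (w := fun _ => 1) fun _ => rfl
    have h3 : T3s (fw η (fun _ => 1) (a s)) = 0 := T3s_const hη (h.supp s) (h.div s)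
    rw [h3, mul_zero] at h2
    have h4 := congrArg Complex.re h2
    rw [Complex.re_sum, Complex.zero_re] at h4
    have h6 := sum_pair (η := η) (h.supp s) (fun _ => (1 : ℝ))
    rw [← h6]
    have h5 : ∑ k ∈ S, (1 : ℝ) * (∑ i, (starRingEnd ℂ) (a s k i) * nonl η (a s) k i).re = 0 := by
      rw [← h4]
      refine Finset.sum_congr rfl fun k _ => ?_
      simp
    rw [h5]
    ring
  have hanti : AntitoneOn (fun s => nw S (fun _ => 1) (a s)) (Icc 0 T) := by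
    refine antitoneOn_of_hasDerivWithinAt_nonpos (convex_Icc 0 T)
      (fun s hs => (h1 s hs).continuousWithinAt)
      (fun s hs => (h1 s (interior_subset hs)).mono interior_subset) fun s _ => ?_
    have : 0 ≤ nw S (fun k => 1 * (D k).re) (a s) := nw_nonneg (fun k _ => by
      rw [one_mul]; exact hD0 k) _
    linarith
  have h2 := hanti ⟨le_rfl, ht.1.trans ht.2⟩ ht ht.1
  have e : ∀ s, nw S (fun _ => 1) (a s) = hn 0 (a s) := by
    intro s
    rw [← nw_hn (h.supp s) 0]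
    simp
  simp only [e] at h2
  exact h2

/-- the far triads are not resonant -/
def NRes (D : K3 → ℂ) (c₀ R : ℝ) : Prop :=
  ∀ z : K3 × K3, z.1 ≠ 0 → z.2 ≠ 0 → z.1 - z.2 ≠ 0 → R ≤ mx z → c₀ * mx z ^ 5 ≤ ‖Zc D z‖

/-- a priori bound -/
theorem aprE_one (H : ℝ) (hH0 : 0 ≤ H) {c₀ R : ℝ} (hc : 0 < c₀) (E₀ : ℝ) (hE₀ : 0 ≤ E₀) (m : ℕ) :
    ∃ A K : ℝ, 0 ≤ A ∧ 0 ≤ K ∧ ∀ (η : Md → Md → Md → ℝ), IsWeight η →
      (∀ a b c, |η a b c| ≤ H) → ∀ D : K3 → ℂ, (∀ k, 0 ≤ (D k).re) → NRes D c₀ R →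
      ∀ S : Finset K3, (0 : K3) ∉ S → ∀ (T : ℝ) (a : ℝ → K3 → C3), GalC η D T S a →
      hn 0 (a 0) ≤ E₀ → ∀ t ∈ Icc 0 T,
        hn (2 * (m + 2)) (a t) ≤ Real.exp (K * t) * (3 * hn (2 * (m + 2)) (a 0) + A * t) := by
  have hcB := cB_nonneg hH0
  set s : ℕ := m + 2 with hs
  set Λ : ℝ := 12 * cB H * (E₀ + 216 * 2 ^ (2 * s + 2)) + 1 with hΛ
  have hΛ0 : 0 < Λ := by positivity
  obtain ⟨R', hR1, hRR, hRc⟩ : ∃ R' : ℝ, 1 ≤ R' ∧ R ≤ R' ∧ Λ ≤ c₀ * R' ^ 2 := by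
    refine ⟨max 1 (max R (Λ / c₀)), le_max_left _ _, (le_max_left _ _).trans (le_max_right _ _), ?_⟩
    set R' := max 1 (max R (Λ / c₀))
    have h1 : 1 ≤ R' := le_max_left _ _
    have h2 : Λ / c₀ ≤ R' := (le_max_right _ _).trans (le_max_right _ _)
    rw [div_le_iff₀ hc] at h2
    calc Λ ≤ R' * c₀ := h2
      _ ≤ (R' * R') * c₀ := by
          have : R' * 1 ≤ R' * R' := by gcongr
          have h3 : R' ≤ R' * R' := by linarith
          gcongr
      _ = _ := by ring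
  set A0 : ℝ := (27 * R' ^ 3) * (27 * R' ^ 3) * (R' ^ (2 * s) * (3 * cB H * (R' * (E₀ + 1) ^ 3)))
    with hA0
  have hA00 : 0 ≤ A0 := by positivity
  set K0 : ℝ := 3 * cB H ^ 2 / c₀ * (cQ (2 * m) 3 * E₀) with hK0
  have hK00 : 0 ≤ K0 := by
    have := cQ_nonneg (2 * m) 3
    positivity
  refine ⟨4 * A0, 4 * K0, by positivity, by positivity, fun η hη hH D hD0 hN S h0 T a h hE t ht => ?_⟩
  classical
  set P : Finset (K3 × K3) := (AS S).filter fun z => R' ≤ mx z with hP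
  have hPS : P ⊆ AS S := Finset.filter_subset _ _
  have hZ5 : ∀ z ∈ P, c₀ * mx z ^ 5 ≤ ‖Zc D z‖ := by
    intro z hz
    obtain ⟨hz1, hz2⟩ := Finset.mem_filter.1 hz
    obtain ⟨⟨h1, h2⟩, h3⟩ := mem_AS.1 hz1
    exact hN z (fun e => h0 (e ▸ h1)) (fun e => h0 (e ▸ h2)) (fun e => h0 (e ▸ h3))
      (hRR.trans hz2)
  have hmP : ∀ z ∈ P, R' ≤ mx z := fun z hz => (Finset.mem_filter.1 hz).2
  have hZ3 : ∀ z ∈ P, Λ * mx z ^ 3 ≤ ‖Zc D z‖ := by
    intro z hz
    refine le_trans ?_ (hZ5 z hz)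
    have h1 := hmP z hz
    have h2 : 0 < mx z := by linarith
    calc Λ * mx z ^ 3 ≤ (c₀ * R' ^ 2) * mx z ^ 3 := by gcongr
      _ ≤ (c₀ * mx z ^ 2) * mx z ^ 3 := by gcongr
      _ = _ := by ring
  have hZ0 : ∀ z ∈ P, Zc D z ≠ 0 := by
    intro z hz e
    have h1 := hZ3 z hz
    have h2 : 0 < mx z := by linarith [hmP z hz]
    rw [e, norm_zero] at h1
    have : 0 < Λ * mx z ^ 3 := by positivity
    linarith
  have hEt : ∀ t ∈ Icc 0 T, ∑ k ∈ S, ∑ i, ‖a t k i‖ ^ 2 ≤ E₀ := by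
    intro t ht
    have h1 := (h.energy hη hD0 ht).trans hE
    rw [hn_fin (h.supp t)] at h1
    simpa using h1
  set f : ℝ → ℝ := fun t => nw S (fun k => kn k ^ (2 * s)) (a t)
    - 2 * gc η D P (fun k => kn k ^ (2 * s)) (a t) with hf
  have hcomp : ∀ t ∈ Icc 0 T, 2 * |gc η D P (fun k => kn k ^ (2 * s)) (a t)|
      ≤ hn (2 * s) (a t) / 2 := by
    intro t ht
    have h1 := corr_le (s := s) hH h0 (h.supp t) (hEt t ht) hPS hΛ0 hZ3
    have h2 := XS_le_hn (h.supp t) (2 * s)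
    have h3 : 3 * cB H / Λ * (E₀ + 216 * 2 ^ (2 * s + 2)) ≤ 1 / 4 := by
      rw [div_mul_eq_mul_div, div_le_div_iff₀ hΛ0 (by norm_num)]
      rw [hΛ]
      linarith
    have h4 : 0 ≤ XS S (fun k => ‖a t k‖) (2 * s) := Ad.XS_nonneg _ _
    calc 2 * |gc η D P (fun k => kn k ^ (2 * s)) (a t)|
        ≤ 2 * (3 * cB H / Λ * ((E₀ + 216 * 2 ^ (2 * s + 2)) * XS S (fun k => ‖a t k‖) (2 * s))) := by
          gcongr
      _ = 2 * ((3 * cB H / Λ * (E₀ + 216 * 2 ^ (2 * s + 2))) * XS S (fun k => ‖a t k‖) (2 * s)) := by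
          ring
      _ ≤ 2 * (1 / 4 * hn (2 * s) (a t)) := by gcongr
      _ = _ := by ring
  have hfl : ∀ t ∈ Icc 0 T, hn (2 * s) (a t) ≤ 2 * f t := by
    intro t ht
    have h1 := hcomp t ht
    have h2 := le_abs_self (gc η D P (fun k => kn k ^ (2 * s)) (a t))
    simp only [hf]
    rw [nw_hn (h.supp t)]
    linarith
  have hfu : f 0 ≤ 3 / 2 * hn (2 * s) (a 0) := by
    have h1 := hcomp 0 ⟨le_rfl, ht.1.trans ht.2⟩
    have h2 := neg_abs_le (gc η D P (fun k => kn k ^ (2 * s)) (a 0))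
    simp only [hf]
    rw [nw_hn (h.supp 0)]
    linarith
  have hd := fun t (ht : t ∈ Icc 0 T) => h.mod_deriv hH ht hPS hZ0 fun k => kn k ^ (2 * s)
  have hb : ∀ t ∈ Icc 0 T, -(2 * nw S (fun k => kn k ^ (2 * s) * (D k).re) (a t))
        - 2 * ∑ z ∈ AS S \ P, kn z.1 ^ (2 * s) * (tu η (a t) z).re
        + 2 * ∑ z ∈ P, kn z.1 ^ (2 * s) * (qu η (a t) z / Zc D z).re
        ≤ 2 * A0 + (4 * K0) * f t := by
    intro t ht
    have h1 : 0 ≤ nw S (fun k => kn k ^ (2 * s) * (D k).re) (a t) :=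
      nw_nonneg (fun k _ => mul_nonneg (pow_nonneg (kn_nonneg _) _) (hD0 k)) _
    have h2 := low_le (s := s) hH h0 (h.supp t) (hEt t ht) (Q := AS S \ P) Finset.sdiff_subset hR1
      (fun z hz => by
        obtain ⟨g1, g2⟩ := Finset.mem_sdiff.1 hz
        by_contra hn
        exact g2 (Finset.mem_filter.2 ⟨g1, (not_le.1 hn).le⟩))
    have h3 := quart (a := 2 * m) (c := 3) (s := s) hH h0 (h.supp t) (hEt t ht) hPS (by omega) hc
      hZ5
    have h4 := abs_le.1 h2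
    have h5 := abs_le.1 h3
    have e : 2 * m + 4 = 2 * s := by omega
    rw [e] at h5
    have h6 : 3 * cB H ^ 2 / c₀ * (cQ (2 * m) 3 * E₀ * XS S (fun k => ‖a t k‖) (2 * s))
        ≤ K0 * hn (2 * s) (a t) := by
      have h7 := XS_le_hn (h.supp t) (2 * s)
      calc _ = K0 * XS S (fun k => ‖a t k‖) (2 * s) := by rw [hK0]; ring
        _ ≤ _ := by gcongr
    have h8 : K0 * hn (2 * s) (a t) ≤ K0 * (2 * f t) := by
      have := hfl t ht
      gcongr
    have h9 := h4.1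
    have h10 := h5.2
    linarith
  have hgr := growth (by positivity : (0 : ℝ) ≤ 2 * A0) (by positivity : (0 : ℝ) ≤ 4 * K0) hd hb ht
  have h1 := hfl t ht
  calc hn (2 * s) (a t) ≤ 2 * f t := h1
    _ ≤ 2 * (Real.exp (4 * K0 * t) * (f 0 + 2 * A0 * t)) := by gcongr
    _ ≤ 2 * (Real.exp (4 * K0 * t) * (3 / 2 * hn (2 * s) (a 0) + 2 * A0 * t)) := by gcongr
    _ = _ := by ring

end Pool.Agent.H226.DE
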