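import Pool.Agent.H226.DE.NF

/-!
The bounds of the terms in the derivative of the modified norm.
-/

open MeasureTheory Set Filter Topology
open scoped ENNReal InnerProductSpace NNReal
open H459R3.NS Pool.Agent.X96.HT Pool.Agent.X96.DM

namespace Pool.Agent.H226.DE

open Pool.Agent.H226.SW hiding Fk Fk_apply

variable {η : Md → Md → Md → ℝ} {D : K3 → ℂ} {S : Finset K3} {H E : ℝ} {U : K3 → C3}

lemma ad_of (h0 : (0 : K3) ∉ S) (hS : ∀ k ∉ S, U k = 0)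
    (hE : ∑ k ∈ S, ∑ i, ‖U k i‖ ^ 2 ≤ E) : Ad S (fun k => ‖U k‖) E where
  nonneg k := norm_nonneg _
  supp k hk := by rw [hS k hk, norm_zero]
  en := (Finset.sum_le_sum fun k _ => norm_sq_le_sum (U k)).trans hE
  zero := h0

lemma norm_nonl_cv (hH : ∀ a b c, |η a b c| ≤ H) (hS : ∀ k ∉ S, U k = 0) (k : K3) :
    ‖nonl η U k‖ ≤ cB H * (kn k * cv S (fun k => ‖U k‖) k) := by
  rw [nonl_sum hS]
  refine (norm_sum_le _ _).trans ?_
  unfold cv
  rw [Finset.mul_sum, Finset.mul_sum]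
  refine Finset.sum_le_sum fun p _ => ?_
  refine (norm_bil_le hH (by abel) _ _).trans (le_of_eq ?_)
  ring

lemma norm_tu_le (hH : ∀ a b c, |η a b c| ≤ H) (z : K3 × K3) :
    ‖tu η U z‖ ≤ 3 * cB H * (kn z.1 * ‖U z.1‖ * ‖U z.2‖ * ‖U (z.1 - z.2)‖) := by
  unfold tu
  refine (norm_tg_le hH z _ _ _).trans (le_of_eq ?_)
  ring

lemma norm_qu_le (hH : ∀ a b c, |η a b c| ≤ H) (hS : ∀ k ∉ S, U k = 0) (z : K3 × K3) :
    ‖qu η U z‖ ≤ 3 * cB H ^ 2 *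
      (kn z.1 * (kn z.1 * cv S (fun k => ‖U k‖) z.1) * (‖U z.2‖ * ‖U (z.1 - z.2)‖)
      + kn z.1 * ‖U z.1‖ * (kn z.2 * cv S (fun k => ‖U k‖) z.2) * ‖U (z.1 - z.2)‖
      + kn z.1 * ‖U z.1‖ * ‖U z.2‖
        * (kn (z.1 - z.2) * cv S (fun k => ‖U k‖) (z.1 - z.2))) := by
  have hH0 : 0 ≤ H := (abs_nonneg _).trans (hH (0, true) (0, true) (0, true))
  have h1 := cB_nonneg hH0
  have h2 := kn_nonneg z.1
  unfold qu
  refine (norm_add_le _ _).trans ?_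
  refine (add_le_add (norm_add_le _ _) le_rfl).trans ?_
  have g1 := norm_tg_le hH z (nonl η U z.1) (U z.2) (U (z.1 - z.2))
  have g2 := norm_tg_le hH z (U z.1) (nonl η U z.2) (U (z.1 - z.2))
  have g3 := norm_tg_le hH z (U z.1) (U z.2) (nonl η U (z.1 - z.2))
  have n1 := norm_nonl_cv hH hS z.1
  have n2 := norm_nonl_cv hH hS z.2
  have n3 := norm_nonl_cv hH hS (z.1 - z.2)
  have f1 : 3 * cB H * kn z.1 * (‖nonl η U z.1‖ * ‖U z.2‖ * ‖U (z.1 - z.2)‖)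
      ≤ 3 * cB H * kn z.1 * ((cB H * (kn z.1 * cv S (fun k => ‖U k‖) z.1)) * ‖U z.2‖
        * ‖U (z.1 - z.2)‖) := by gcongr
  have f2 : 3 * cB H * kn z.1 * (‖U z.1‖ * ‖nonl η U z.2‖ * ‖U (z.1 - z.2)‖)
      ≤ 3 * cB H * kn z.1 * (‖U z.1‖ * (cB H * (kn z.2 * cv S (fun k => ‖U k‖) z.2))
        * ‖U (z.1 - z.2)‖) := by gcongr
  have f3 : 3 * cB H * kn z.1 * (‖U z.1‖ * ‖U z.2‖ * ‖nonl η U (z.1 - z.2)‖)
      ≤ 3 * cB H * kn z.1 * (‖U z.1‖ * ‖U z.2‖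
        * (cB H * (kn (z.1 - z.2) * cv S (fun k => ‖U k‖) (z.1 - z.2)))) := by gcongr
  calc _ ≤ 3 * cB H * kn z.1 * ((cB H * (kn z.1 * cv S (fun k => ‖U k‖) z.1)) * ‖U z.2‖
        * ‖U (z.1 - z.2)‖)
        + 3 * cB H * kn z.1 * (‖U z.1‖ * (cB H * (kn z.2 * cv S (fun k => ‖U k‖) z.2))
        * ‖U (z.1 - z.2)‖)
        + 3 * cB H * kn z.1 * (‖U z.1‖ * ‖U z.2‖
        * (cB H * (kn (z.1 - z.2) * cv S (fun k => ‖U k‖) (z.1 - z.2)))) :=
        add_le_add (add_le_add (g1.trans f1) (g2.trans f2)) (g3.trans f3)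
    _ = _ := by ring

/-- the constant -/
noncomputable def cQ (a c : ℕ) : ℝ :=
  864 * 2 ^ (a + 1) + 2 * ((1 + 216 * 2 ^ (a + 2 * c) * (864 * 2 ^ (a + 1))) + (216 + 216 * 2 ^ a))

lemma cQ_nonneg (a c : ℕ) : 0 ≤ cQ a c := by unfold cQ; positivity

/-- the quartic terms -/
theorem quart (hH : ∀ a b c, |η a b c| ≤ H) (h0 : (0 : K3) ∉ S) (hS : ∀ k ∉ S, U k = 0)
    (hE : ∑ k ∈ S, ∑ i, ‖U k i‖ ^ 2 ≤ E) {P : Finset (K3 × K3)} (hP : P ⊆ AS S) {a c s : ℕ}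
    (hs : 2 * s + 1 = a + c + 2) {Λ : ℝ} (hΛ : 0 < Λ)
    (hZ : ∀ z ∈ P, Λ * mx z ^ (c + 2) ≤ ‖Zc D z‖) :
    |∑ z ∈ P, kn z.1 ^ (2 * s) * (qu η U z / Zc D z).re|
      ≤ 3 * cB H ^ 2 / Λ * (cQ a c * E * XS S (fun k => ‖U k‖) (a + 4)) := by
  have hA := ad_of h0 hS hE
  set x : K3 → ℝ := fun k => ‖U k‖ with hx
  have hH0 : 0 ≤ H := (abs_nonneg _).trans (hH (0, true) (0, true) (0, true))
  have hcB := cB_nonneg hH0
  set T : K3 × K3 → ℝ := fun z => kn z.1 ^ (a + c + 3) * cv S x z.1 * (x z.2 * x (z.1 - z.2))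
      / mx z ^ (c + 2)
    + kn z.1 ^ (a + c + 2) * x z.1 * (kn z.2 * cv S x z.2) * x (z.1 - z.2) / mx z ^ (c + 2)
    + kn z.1 ^ (a + c + 2) * x z.1 * x z.2 * (kn (z.1 - z.2) * cv S x (z.1 - z.2))
        / mx z ^ (c + 2) with hT
  have hT0 : ∀ z, 0 ≤ T z := by
    intro z
    have h1 := hA.nonneg z.1
    have h2 := hA.nonneg z.2
    have h3 := hA.nonneg (z.1 - z.2)
    have h4 := kn_nonneg z.1
    have h5 := kn_nonneg z.2
    have h6 := kn_nonneg (z.1 - z.2)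
    have h7 := hA.cv_nonneg z.1
    have h8 := hA.cv_nonneg z.2
    have h9 := hA.cv_nonneg (z.1 - z.2)
    have h10 : 0 ≤ mx z := (kn_nonneg _).trans (le_mx1 z)
    simp only [hT]
    positivity
  have h1 : ∀ z ∈ P, |kn z.1 ^ (2 * s) * (qu η U z / Zc D z).re| ≤ 3 * cB H ^ 2 / Λ * T z := by
    intro z hz
    have hm : 0 < mx z := by linarith [hA.one_le_mx (hP hz)]
    have hZ1 := hZ z hz
    have hZ0 : 0 < ‖Zc D z‖ := lt_of_lt_of_le (by positivity) hZ1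
    have hk := kn_nonneg z.1
    rw [abs_mul, abs_of_nonneg (pow_nonneg hk _)]
    have h2 : |(qu η U z / Zc D z).re| ≤ ‖qu η U z‖ / ‖Zc D z‖ :=
      (Complex.abs_re_le_norm _).trans (le_of_eq (norm_div _ _))
    have h3 : ‖qu η U z‖ / ‖Zc D z‖ ≤ ‖qu η U z‖ / (Λ * mx z ^ (c + 2)) := by
      gcongr
    have h4 := norm_qu_le hH hS z
    calc kn z.1 ^ (2 * s) * |(qu η U z / Zc D z).re|
        ≤ kn z.1 ^ (2 * s) * (‖qu η U z‖ / (Λ * mx z ^ (c + 2))) := by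
          gcongr
          exact h2.trans h3
      _ ≤ kn z.1 ^ (2 * s) * ((3 * cB H ^ 2 *
          (kn z.1 * (kn z.1 * cv S x z.1) * (x z.2 * x (z.1 - z.2))
          + kn z.1 * x z.1 * (kn z.2 * cv S x z.2) * x (z.1 - z.2)
          + kn z.1 * x z.1 * x z.2 * (kn (z.1 - z.2) * cv S x (z.1 - z.2))))
            / (Λ * mx z ^ (c + 2))) := by
          gcongr
      _ = _ := by
          have e1 : a + c + 2 = 2 * s + 1 := hs.symm
          have e2 : a + c + 3 = 2 * s + 2 := by omega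
          simp only [hT, e1, e2]
          field_simp
          ring
  calc |∑ z ∈ P, kn z.1 ^ (2 * s) * (qu η U z / Zc D z).re|
      ≤ ∑ z ∈ P, |kn z.1 ^ (2 * s) * (qu η U z / Zc D z).re| := Finset.abs_sum_le_sum_abs _ _
    _ ≤ ∑ z ∈ P, 3 * cB H ^ 2 / Λ * T z := Finset.sum_le_sum h1
    _ = 3 * cB H ^ 2 / Λ * ∑ z ∈ P, T z := by rw [Finset.mul_sum]
    _ ≤ 3 * cB H ^ 2 / Λ * ∑ z ∈ AS S, T z := by
        gcongr
        exact fun z _ _ => hT0 z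
    _ ≤ 3 * cB H ^ 2 / Λ * (cQ a c * E * XS S x (a + 4)) := by
        gcongr
        simp only [hT]
        rw [Finset.sum_add_distrib, Finset.sum_add_distrib]
        have g1 := hA.typeA a c
        have g2 := hA.typeB a c
        have g3 := hA.typeC a c
        calc _ ≤ _ := add_le_add (add_le_add g1 g2) g3
          _ = _ := by unfold cQ; ring

/-- the correction is small -/
theorem corr_le (hH : ∀ a b c, |η a b c| ≤ H) (h0 : (0 : K3) ∉ S) (hS : ∀ k ∉ S, U k = 0)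
    (hE : ∑ k ∈ S, ∑ i, ‖U k i‖ ^ 2 ≤ E) {P : Finset (K3 × K3)} (hP : P ⊆ AS S) {s : ℕ}
    {Λ : ℝ} (hΛ : 0 < Λ) (hZ : ∀ z ∈ P, Λ * mx z ^ 3 ≤ ‖Zc D z‖) :
    |gc η D P (fun k => kn k ^ (2 * s)) U|
      ≤ 3 * cB H / Λ * ((E + 216 * 2 ^ (2 * s + 2)) * XS S (fun k => ‖U k‖) (2 * s)) := by
  have hA := ad_of h0 hS hE
  set x : K3 → ℝ := fun k => ‖U k‖ with hx
  have hH0 : 0 ≤ H := (abs_nonneg _).trans (hH (0, true) (0, true) (0, true))
  have hcB := cB_nonneg hH0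
  set T : K3 × K3 → ℝ := fun z => kn z.1 ^ (2 * s + 1) * x z.1 * x z.2 * x (z.1 - z.2)
      / mx z ^ 3 with hT
  have hT0 : ∀ z, 0 ≤ T z := by
    intro z
    have h1 := hA.nonneg z.1
    have h2 := hA.nonneg z.2
    have h3 := hA.nonneg (z.1 - z.2)
    have h4 := kn_nonneg z.1
    have h10 : 0 ≤ mx z := (kn_nonneg _).trans (le_mx1 z)
    simp only [hT]
    positivity
  have h1 : ∀ z ∈ P, |kn z.1 ^ (2 * s) * (tu η U z / Zc D z).re| ≤ 3 * cB H / Λ * T z := by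
    intro z hz
    have hm : 0 < mx z := by linarith [hA.one_le_mx (hP hz)]
    have hZ1 := hZ z hz
    have hZ0 : 0 < ‖Zc D z‖ := lt_of_lt_of_le (by positivity) hZ1
    have hk := kn_nonneg z.1
    rw [abs_mul, abs_of_nonneg (pow_nonneg hk _)]
    have h2 : |(tu η U z / Zc D z).re| ≤ ‖tu η U z‖ / ‖Zc D z‖ :=
      (Complex.abs_re_le_norm _).trans (le_of_eq (norm_div _ _))
    have h3 : ‖tu η U z‖ / ‖Zc D z‖ ≤ ‖tu η U z‖ / (Λ * mx z ^ 3) := by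
      gcongr
    have h4 := norm_tu_le (U := U) hH z
    calc kn z.1 ^ (2 * s) * |(tu η U z / Zc D z).re|
        ≤ kn z.1 ^ (2 * s) * (‖tu η U z‖ / (Λ * mx z ^ 3)) := by
          gcongr
          exact h2.trans h3
      _ ≤ kn z.1 ^ (2 * s) * ((3 * cB H * (kn z.1 * x z.1 * x z.2 * x (z.1 - z.2)))
            / (Λ * mx z ^ 3)) := by
          gcongr
      _ = _ := by
          simp only [hT]
          field_simp
          ring
  unfold gc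
  calc |∑ z ∈ P, kn z.1 ^ (2 * s) * (tu η U z / Zc D z).re|
      ≤ ∑ z ∈ P, |kn z.1 ^ (2 * s) * (tu η U z / Zc D z).re| := Finset.abs_sum_le_sum_abs _ _
    _ ≤ ∑ z ∈ P, 3 * cB H / Λ * T z := Finset.sum_le_sum h1
    _ = 3 * cB H / Λ * ∑ z ∈ P, T z := by rw [Finset.mul_sum]
    _ ≤ 3 * cB H / Λ * ∑ z ∈ AS S, T z := by
        gcongr
        exact fun z _ _ => hT0 z
    _ ≤ _ := by
        gcongr
        exact hA.corr s

/-- the low frequencies -/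
theorem low_le (hH : ∀ a b c, |η a b c| ≤ H) (h0 : (0 : K3) ∉ S) (hS : ∀ k ∉ S, U k = 0)
    (hE : ∑ k ∈ S, ∑ i, ‖U k i‖ ^ 2 ≤ E) {Q : Finset (K3 × K3)} (hQ : Q ⊆ AS S) {s : ℕ}
    {R : ℝ} (hR : 1 ≤ R) (hm : ∀ z ∈ Q, mx z ≤ R) :
    |∑ z ∈ Q, kn z.1 ^ (2 * s) * (tu η U z).re|
      ≤ (27 * R ^ 3) * (27 * R ^ 3) * (R ^ (2 * s) * (3 * cB H * (R * (E + 1) ^ 3))) := by
  classical
  have hA := ad_of h0 hS hE
  have hH0 : 0 ≤ H := (abs_nonneg _).trans (hH (0, true) (0, true) (0, true))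
  have hcB := cB_nonneg hH0
  have hE0 := hA.E_nonneg
  have hxE : ∀ k, ‖U k‖ ≤ E + 1 := by
    intro k
    by_cases hk : k ∈ S
    · have h1 : ‖U k‖ ^ 2 ≤ E := (Finset.single_le_sum (f := fun k => ‖U k‖ ^ 2)
        (fun k _ => sq_nonneg _) hk).trans hA.en
      have h2 := two_mul_le_add_sq ‖U k‖ 1
      have h3 := norm_nonneg (U k)
      linarith
    · rw [hS k hk, norm_zero]
      linarith
  have h1 : ∀ z ∈ Q, |kn z.1 ^ (2 * s) * (tu η U z).re|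
      ≤ R ^ (2 * s) * (3 * cB H * (R * (E + 1) ^ 3)) := by
    intro z hz
    have hk := kn_nonneg z.1
    have hkR : kn z.1 ≤ R := (le_mx1 z).trans (hm z hz)
    rw [abs_mul, abs_of_nonneg (pow_nonneg hk _)]
    have h2 : |(tu η U z).re| ≤ 3 * cB H * (R * (E + 1) ^ 3) := by
      refine (Complex.abs_re_le_norm _).trans ((norm_tu_le hH z).trans ?_)
      have e : R * (E + 1) ^ 3 = R * (E + 1) * (E + 1) * (E + 1) := by ring
      rw [e]
      have := hxE z.1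
      have := hxE z.2
      have := hxE (z.1 - z.2)
      gcongr
    gcongr
  set B := S.filter fun k => kn k ≤ R with hB
  have hsub : Q ⊆ B ×ˢ B := by
    intro z hz
    have h2 := mem_AS.1 (hQ hz)
    rw [Finset.mem_product]
    exact ⟨Finset.mem_filter.2 ⟨h2.1.1, (le_mx1 z).trans (hm z hz)⟩,
      Finset.mem_filter.2 ⟨h2.1.2, (le_mx2 z).trans (hm z hz)⟩⟩
  have hcard : (Q.card : ℝ) ≤ (27 * R ^ 3) * (27 * R ^ 3) := by
    have h3 := Finset.card_le_card hsub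
    rw [Finset.card_product] at h3
    have h4 := card_ball R hR B fun k hk => (Finset.mem_filter.1 hk).2
    calc (Q.card : ℝ) ≤ ((B.card * B.card : ℕ) : ℝ) := by exact_mod_cast h3
      _ = (B.card : ℝ) * B.card := by push_cast; ring
      _ ≤ _ := by gcongr
  calc |∑ z ∈ Q, kn z.1 ^ (2 * s) * (tu η U z).re|
      ≤ ∑ z ∈ Q, |kn z.1 ^ (2 * s) * (tu η U z).re| := Finset.abs_sum_le_sum_abs _ _
    _ ≤ ∑ _z ∈ Q, R ^ (2 * s) * (3 * cB H * (R * (E + 1) ^ 3)) := Finset.sum_le_sum h1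
    _ = Q.card * (R ^ (2 * s) * (3 * cB H * (R * (E + 1) ^ 3))) := by
        rw [Finset.sum_const, nsmul_eq_mul]
    _ ≤ _ := by gcongr

end Pool.Agent.H226.DE
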