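import Pool.Agent.H226.DE.Near

/-!
There are few near resonant triads for the symbols `∑ j, β j * k j ^ n`, `n ≥ 5` odd.
-/

open Set Filter Topology
open H459R3.NS Pool.Agent.X96.HT Pool.Agent.X96.DM

namespace Pool.Agent.H226.DE

open Pool.Agent.H226.SW hiding Fk Fk_apply

/-- the symmetric function -/
def hs (n : ℕ) (A Y : ℝ) : ℝ := (A + Y) ^ n + (A - Y) ^ n

lemma hs_eq (n : ℕ) (A Y : ℝ) :
    hs n A Y = ∑ i ∈ Finset.range (n + 1), (n.choose i : ℝ) * A ^ (n - i) * (Y ^ i + (-Y) ^ i) := by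
  unfold hs
  rw [sub_eq_add_neg, add_comm A Y, add_comm A (-Y), add_pow, add_pow, ← Finset.sum_add_distrib]
  refine Finset.sum_congr rfl fun i _ => ?_
  ring

lemma pow_add_neg_mono (i : ℕ) {Y Y' : ℝ} (h0 : 0 ≤ Y) (h : Y ≤ Y') :
    Y ^ i + (-Y) ^ i ≤ Y' ^ i + (-Y') ^ i := by
  rcases Nat.even_or_odd i with hi | hi
  · rw [hi.neg_pow, hi.neg_pow]
    have := pow_le_pow_left₀ h0 h i
    linarith
  · rw [hi.neg_pow, hi.neg_pow]
    simp

lemma hs_diff {n : ℕ} (hn : 2 ≤ n) {A Y Y' : ℝ} (hA : 0 ≤ A) (h0 : 0 ≤ Y) (h : Y ≤ Y') :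
    2 * A ^ (n - 2) * (Y' - Y) ^ 2 ≤ hs n A Y' - hs n A Y := by
  rw [hs_eq, hs_eq, ← Finset.sum_sub_distrib]
  have h1 : ∀ i ∈ Finset.range (n + 1), 0 ≤ (n.choose i : ℝ) * A ^ (n - i) * (Y' ^ i + (-Y') ^ i)
      - (n.choose i : ℝ) * A ^ (n - i) * (Y ^ i + (-Y) ^ i) := by
    intro i _
    rw [← mul_sub]
    have := pow_add_neg_mono i h0 h
    exact mul_nonneg (by positivity) (by linarith)
  have h2 := Finset.single_le_sum h1 (Finset.mem_range.2 (by omega : 2 < n + 1))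
  refine le_trans ?_ h2
  have h3 : (1 : ℝ) ≤ (n.choose 2 : ℝ) := by exact_mod_cast Nat.choose_pos hn
  have h4 : 0 ≤ A ^ (n - 2) := by positivity
  have h5 : (Y' - Y) ^ 2 ≤ Y' ^ 2 - Y ^ 2 := by nlinarith
  have h6 : 0 ≤ Y' ^ 2 - Y ^ 2 := (sq_nonneg _).trans h5
  calc 2 * A ^ (n - 2) * (Y' - Y) ^ 2 ≤ 2 * A ^ (n - 2) * (Y' ^ 2 - Y ^ 2) := by gcongr
    _ = 1 * (2 * A ^ (n - 2) * (Y' ^ 2 - Y ^ 2)) := by ring
    _ ≤ (n.choose 2 : ℝ) * (2 * A ^ (n - 2) * (Y' ^ 2 - Y ^ 2)) := by gcongr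
    _ = _ := by ring

lemma hs_diff' {n : ℕ} (hn : 2 ≤ n) {A Y Y' : ℝ} (hA : 0 ≤ A) (h0 : 0 ≤ Y) (h0' : 0 ≤ Y') :
    2 * A ^ (n - 2) * (Y' - Y) ^ 2 ≤ |hs n A Y' - hs n A Y| := by
  rcases le_total Y Y' with h | h
  · exact (hs_diff hn hA h0 h).trans (le_abs_self _)
  · have := (hs_diff hn hA h0' h).trans (le_abs_self _)
    rw [abs_sub_comm, ← neg_sub Y Y', neg_sq]
    exact this

lemma hs_abs (n : ℕ) (A Y : ℝ) : hs n A |Y| = hs n A Y := by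
  rcases abs_choice Y with h | h
  · rw [h]
  · rw [h]; unfold hs; rw [sub_neg_eq_add, ← sub_eq_add_neg, add_comm]

lemma hs_neg {n : ℕ} (hn : Odd n) (A Y : ℝ) : hs n (-A) Y = -hs n A Y := by
  unfold hs
  have h1 : -A + Y = -(A - Y) := by ring
  have h2 : -A - Y = -(A + Y) := by ring
  rw [h1, h2, hn.neg_pow, hn.neg_pow]
  ring

lemma hs_x {n : ℕ} (a x : ℝ) : 2 ^ n * (x ^ n + (a - x) ^ n) = hs n a (2 * x - a) := by
  unfold hs
  have h1 : a + (2 * x - a) = 2 * x := by ring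
  have h2 : a - (2 * x - a) = 2 * (a - x) := by ring
  rw [h1, h2, mul_pow, mul_pow]
  ring

/-- two points in the same sublevel set -/
lemma two_pts {n : ℕ} (hn : Odd n) (hn2 : 2 ≤ n) {a : ℝ} (ha : a ≠ 0) {B c x x' : ℝ}
    (h : |x ^ n + (a - x) ^ n - c| ≤ B * |a| ^ (n - 2))
    (h' : |x' ^ n + (a - x') ^ n - c| ≤ B * |a| ^ (n - 2)) :
    (|2 * x - a| - |2 * x' - a|) ^ 2 ≤ 2 ^ n * B := by
  have hA : 0 < |a| := abs_pos.2 ha
  have e : abs (hs n |a| |2 * x - a| - hs n |a| |2 * x' - a|)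
      = |hs n a (2 * x - a) - hs n a (2 * x' - a)| := by
    rw [hs_abs, hs_abs]
    rcases abs_choice a with h1 | h1
    · rw [h1]
    · rw [h1, hs_neg hn, hs_neg hn]
      rw [← abs_neg]
      congr 1
      ring
  have h1 := hs_diff' hn2 hA.le (abs_nonneg (2 * x' - a)) (abs_nonneg (2 * x - a))
  rw [e, ← hs_x, ← hs_x, ← mul_sub, abs_mul, abs_of_pos (by positivity : (0 : ℝ) < 2 ^ n)] at h1
  have h2 : |x ^ n + (a - x) ^ n - (x' ^ n + (a - x') ^ n)| ≤ 2 * (B * |a| ^ (n - 2)) := by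
    have : x ^ n + (a - x) ^ n - (x' ^ n + (a - x') ^ n)
        = (x ^ n + (a - x) ^ n - c) - (x' ^ n + (a - x') ^ n - c) := by ring
    rw [this]
    exact (abs_sub _ _).trans (by linarith)
  have h3 : 0 < 2 * |a| ^ (n - 2) := by positivity
  have h4 : 2 * |a| ^ (n - 2) * (|2 * x - a| - |2 * x' - a|) ^ 2
      ≤ 2 * |a| ^ (n - 2) * (2 ^ n * B) := by
    calc _ ≤ 2 ^ n * |x ^ n + (a - x) ^ n - (x' ^ n + (a - x') ^ n)| := h1
      _ ≤ 2 ^ n * (2 * (B * |a| ^ (n - 2))) := by gcongr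
      _ = _ := by ring
  exact le_of_mul_le_mul_left h4 h3

lemma card_diam {F : Finset ℤ} {w : ℝ} (hw : 0 ≤ w)
    (h : ∀ x ∈ F, ∀ y ∈ F, (x : ℝ) - y ≤ w) : (F.card : ℝ) ≤ w + 1 := by
  rcases F.eq_empty_or_nonempty with he | hne
  · rw [he]; simp only [Finset.card_empty, Nat.cast_zero]; linarith
  · have hsub : F ⊆ Finset.Icc (F.min' hne) (F.min' hne + ⌊w⌋) := by
      intro x hx
      rw [Finset.mem_Icc]
      refine ⟨F.min'_le x hx, ?_⟩
      have h1 := h x hx (F.min' hne) (F.min'_mem hne)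
      have h2 : x - F.min' hne ≤ ⌊w⌋ := Int.le_floor.2 (by push_cast; exact h1)
      linarith
    have h2 := Finset.card_le_card hsub
    rw [Int.card_Icc] at h2
    have hf0 : 0 ≤ ⌊w⌋ := Int.floor_nonneg.2 hw
    have h3 : (F.card : ℤ) ≤ ⌊w⌋ + 1 := by
      have : (F.min' hne + ⌊w⌋ + 1 - F.min' hne) = ⌊w⌋ + 1 := by ring
      rw [this] at h2
      omega
    have h4 : (F.card : ℝ) ≤ ⌊w⌋ + 1 := by exact_mod_cast h3
    have := Int.floor_le w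
    linarith

/-- the count in one dimension -/
lemma cnt_one {n : ℕ} (hn : Odd n) (hn2 : 2 ≤ n) {a : ℤ} (ha : a ≠ 0) {B c : ℝ} (hB : 0 ≤ B)
    {F : Finset ℤ}
    (hF : ∀ x ∈ F, |(x : ℝ) ^ n + ((a : ℝ) - x) ^ n - c| ≤ B * |(a : ℝ)| ^ (n - 2)) :
    (F.card : ℝ) ≤ 2 * (2 ^ n * B + 2) := by
  classical
  have ha' : (a : ℝ) ≠ 0 := by exact_mod_cast ha
  set w : ℝ := 2 ^ n * B + 1 with hw
  have hw0 : 0 ≤ 2 ^ n * B := by positivity
  have hpair : ∀ x ∈ F, ∀ y ∈ F, |2 * (x : ℝ) - a| - |2 * (y : ℝ) - a| ≤ w := by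
    intro x hx y hy
    have h1 := two_pts hn hn2 ha' (hF x hx) (hF y hy)
    have h2 : (|2 * (x : ℝ) - a| - |2 * (y : ℝ) - a|) ^ 2 ≤ w ^ 2 := by
      rw [hw]
      nlinarith
    exact (abs_le_of_sq_le_sq' h2 (by linarith)).2
  have h1 : ((F.filter fun x : ℤ => 0 ≤ 2 * (x : ℝ) - a).card : ℝ) ≤ w + 1 := by
    refine card_diam (by linarith) fun x hx y hy => ?_
    obtain ⟨hx1, hx2⟩ := Finset.mem_filter.1 hx
    obtain ⟨hy1, hy2⟩ := Finset.mem_filter.1 hy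
    have h3 := hpair x hx1 y hy1
    rw [abs_of_nonneg hx2, abs_of_nonneg hy2] at h3
    linarith
  have h2 : ((F.filter fun x : ℤ => ¬ 0 ≤ 2 * (x : ℝ) - a).card : ℝ) ≤ w + 1 := by
    refine card_diam (by linarith) fun x hx y hy => ?_
    obtain ⟨hx1, hx2⟩ := Finset.mem_filter.1 hx
    obtain ⟨hy1, hy2⟩ := Finset.mem_filter.1 hy
    have h3 := hpair y hy1 x hx1
    rw [abs_of_neg (not_le.1 hx2), abs_of_neg (not_le.1 hy2)] at h3
    linarith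
  have h3 : (F.card : ℝ) = ((F.filter fun x : ℤ => 0 ≤ 2 * (x : ℝ) - a).card : ℝ)
      + ((F.filter fun x : ℤ => ¬ 0 ≤ 2 * (x : ℝ) - a).card : ℝ) := by
    rw [← Nat.cast_add, Finset.card_filter_add_card_filter_not]
  rw [h3]
  linarith

lemma exists_big (L : K3) : ∃ j, ∀ i, |(L i : ℝ)| ≤ |(L j : ℝ)| := by
  obtain ⟨j, _, hj⟩ := Finset.exists_max_image Finset.univ (fun j : Fin 3 => |(L j : ℝ)|)
    ⟨0, Finset.mem_univ _⟩
  exact ⟨j, fun i => hj i (Finset.mem_univ i)⟩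

lemma kn_le_big {L : K3} {j : Fin 3} (h : ∀ i, |(L i : ℝ)| ≤ |(L j : ℝ)|) :
    kn L ≤ 2 * |(L j : ℝ)| := by
  unfold kn
  rw [Real.sqrt_le_left (by positivity)]
  have h1 : ∀ i, (L i : ℝ) ^ 2 ≤ |(L j : ℝ)| ^ 2 := fun i => by
    rw [← sq_abs (L i : ℝ)]
    exact pow_le_pow_left₀ (abs_nonneg _) (h i) 2
  rw [Fin.sum_univ_three]
  have := h1 0
  have := h1 1
  have := h1 2
  have := sq_nonneg |(L j : ℝ)|
  linarith [(by ring : (2 * |(L j : ℝ)|) ^ 2 = 4 * |(L j : ℝ)| ^ 2)]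

lemma abs_le_kn (m : K3) (i : Fin 3) : |(m i : ℝ)| ≤ kn m := by
  unfold kn
  refine Real.abs_le_sqrt ?_
  exact Finset.single_le_sum (f := fun i => (m i : ℝ) ^ 2) (fun i _ => sq_nonneg _)
    (Finset.mem_univ i)

/-- few near resonant triads -/
theorem few_diag {n : ℕ} (hn : Odd n) (hn5 : 5 ≤ n) {β : Fin 3 → ℝ} (hβ : ∀ j, β j ≠ 0)
    {g : K3 → ℝ} (hg : ∀ L m : K3, dl g L m
      = ∑ j, β j * ((L j : ℝ) ^ n - (m j : ℝ) ^ n - ((L j : ℝ) - m j) ^ n)) {Λ : ℝ} (hΛ : 0 ≤ Λ) :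
    ∃ C, 1 ≤ C ∧ Few (fun L m => |dl g L m| ≤ Λ * kn L ^ 3) C := by
  classical
  set B : ℝ := ∑ j, 8 * Λ / |β j| with hB
  have hBj : ∀ j, 8 * Λ / |β j| ≤ B := fun j =>
    Finset.single_le_sum (f := fun j => 8 * Λ / |β j|) (fun j _ => by positivity)
      (Finset.mem_univ j)
  have hB0 : 0 ≤ B := Finset.sum_nonneg fun j _ => by positivity
  set C₁ : ℝ := 2 * (2 ^ n * B + 2) with hC₁
  have hC₁1 : 1 ≤ C₁ := by
    have : 0 ≤ 2 ^ n * B := by positivity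
    linarith
  refine ⟨9 * C₁, by linarith, fun F L hL M hM hF => ?_⟩
  obtain ⟨j, hj⟩ := exists_big L
  have hLj : L j ≠ 0 := by
    intro h0
    apply hL
    funext i
    have h1 := hj i
    rw [h0] at h1
    simp only [Int.cast_zero, abs_zero] at h1
    have h2 := abs_nonpos_iff.1 h1
    exact_mod_cast h2
  have hLj1 : (1 : ℝ) ≤ |(L j : ℝ)| := by
    have := Int.one_le_abs hLj
    exact_mod_cast this
  have hkL := kn_le_big hj
  -- the sublevel condition for the coordinate `j`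
  have key : ∀ m ∈ F, |(m j : ℝ) ^ n + ((L j : ℝ) - m j) ^ n
      - ((L j : ℝ) ^ n + (∑ i ∈ Finset.univ.erase j, β i * ((L i : ℝ) ^ n - (m i : ℝ) ^ n
        - ((L i : ℝ) - m i) ^ n)) / β j)| ≤ B * |(L j : ℝ)| ^ (n - 2) := by
    intro m hm
    have h1 : |dl g L m| ≤ Λ * kn L ^ 3 := (hF m hm).2
    rw [hg, ← Finset.add_sum_erase _ _ (Finset.mem_univ j)] at h1
    set R := ∑ i ∈ Finset.univ.erase j, β i * ((L i : ℝ) ^ n - (m i : ℝ) ^ n
        - ((L i : ℝ) - m i) ^ n) with hR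
    have e : (m j : ℝ) ^ n + ((L j : ℝ) - m j) ^ n - ((L j : ℝ) ^ n + R / β j)
        = -((β j * ((L j : ℝ) ^ n - (m j : ℝ) ^ n - ((L j : ℝ) - m j) ^ n) + R) / β j) := by
      have := hβ j
      field_simp
      ring
    rw [e, abs_neg, abs_div]
    have h2 : Λ * kn L ^ 3 ≤ 8 * Λ * |(L j : ℝ)| ^ (n - 2) := by
      have hk0 := kn_nonneg L
      calc Λ * kn L ^ 3 ≤ Λ * (2 * |(L j : ℝ)|) ^ 3 := by gcongr
        _ = 8 * Λ * |(L j : ℝ)| ^ 3 := by ring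
        _ ≤ _ := by
            have : |(L j : ℝ)| ^ 3 ≤ |(L j : ℝ)| ^ (n - 2) :=
              pow_le_pow_right₀ hLj1 (by omega)
            gcongr
    have hβj : 0 < |β j| := abs_pos.2 (hβ j)
    rw [div_le_iff₀ hβj]
    calc _ ≤ Λ * kn L ^ 3 := h1
      _ ≤ 8 * Λ * |(L j : ℝ)| ^ (n - 2) := h2
      _ = (8 * Λ / |β j|) * |(L j : ℝ)| ^ (n - 2) * |β j| := by field_simp
      _ ≤ _ := by
          have := hBj j
          gcongr
  -- the projection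
  set f : K3 → (Fin 2 → ℤ) := fun m i => m (j.succAbove i) with hf
  have hfib : ∀ v ∈ F.image f, (F.filter fun m => f m = v).card ≤ ⌊C₁⌋₊ := by
    intro v _
    set G := F.filter fun m => f m = v with hG
    have hinj : Set.InjOn (fun m : K3 => m j) G := by
      intro m hm m' hm' hmm
      have h1 := (Finset.mem_filter.1 (Finset.mem_coe.1 hm)).2
      have h2 := (Finset.mem_filter.1 (Finset.mem_coe.1 hm')).2
      funext i
      rcases Fin.eq_self_or_eq_succAbove j i with h3 | ⟨l, h3⟩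
      · rw [h3]; exact hmm
      · rw [h3]
        have := congrFun (h1.trans h2.symm) l
        exact this
    rw [← Finset.card_image_of_injOn hinj]
    refine Nat.le_floor ?_
    rcases G.eq_empty_or_nonempty with he | ⟨m₀, hm₀⟩
    · rw [he]; simp only [Finset.image_empty, Finset.card_empty, Nat.cast_zero]; linarith
    refine cnt_one hn (by omega) hLj (c := (L j : ℝ) ^ n
      + (∑ i ∈ Finset.univ.erase j, β i * ((L i : ℝ) ^ n - (m₀ i : ℝ) ^ n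
        - ((L i : ℝ) - m₀ i) ^ n)) / β j) hB0 fun x hx => ?_
    obtain ⟨m, hm, rfl⟩ := Finset.mem_image.1 hx
    have h1 := key m (Finset.mem_filter.1 hm).1
    have h2 : ∀ i ∈ Finset.univ.erase j, m i = m₀ i := by
      intro i hi
      rcases Fin.eq_self_or_eq_succAbove j i with h3 | ⟨l, h3⟩
      · exact absurd h3 (Finset.ne_of_mem_erase hi)
      · rw [h3]
        exact congrFun ((Finset.mem_filter.1 hm).2.trans (Finset.mem_filter.1 hm₀).2.symm) l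
    have h3 : ∑ i ∈ Finset.univ.erase j, β i * ((L i : ℝ) ^ n - (m i : ℝ) ^ n
        - ((L i : ℝ) - m i) ^ n) = ∑ i ∈ Finset.univ.erase j, β i * ((L i : ℝ) ^ n
        - (m₀ i : ℝ) ^ n - ((L i : ℝ) - m₀ i) ^ n) :=
      Finset.sum_congr rfl fun i hi => by rw [h2 i hi]
    rw [h3] at h1
    exact h1
  have h1 := Finset.card_le_mul_card_image F ⌊C₁⌋₊ hfib
  have himg : F.image f ⊆ Fintype.piFinset fun _ : Fin 2 => Finset.Icc (-⌊M⌋) ⌊M⌋ := by
    intro v hv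
    obtain ⟨m, hm, rfl⟩ := Finset.mem_image.1 hv
    rw [Fintype.mem_piFinset]
    intro i
    rw [Finset.mem_Icc]
    have h2 := (abs_le_kn m (j.succAbove i)).trans (hF m hm).1
    have h3 := abs_le.1 h2
    have h4 : m (j.succAbove i) ≤ ⌊M⌋ := Int.le_floor.2 h3.2
    have h5 : -m (j.succAbove i) ≤ ⌊M⌋ := Int.le_floor.2 (by push_cast; linarith [h3.1])
    simp only [hf]
    constructor <;> linarith
  have h2 := Finset.card_le_card himg
  rw [Fintype.card_piFinset] at h2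
  simp only [Finset.prod_const, Finset.card_univ, Fintype.card_fin, Int.card_Icc] at h2
  have hM0 : 0 ≤ ⌊M⌋ := Int.floor_nonneg.2 (by linarith)
  have h3 : (((⌊M⌋ + 1 - -⌊M⌋).toNat : ℕ) : ℝ) ≤ 3 * M := by
    have h4 : (((⌊M⌋ + 1 - -⌊M⌋).toNat : ℕ) : ℤ) = 2 * ⌊M⌋ + 1 := by
      rw [Int.toNat_of_nonneg (by linarith)]; ring
    have h5 : (((⌊M⌋ + 1 - -⌊M⌋).toNat : ℕ) : ℝ) = 2 * (⌊M⌋ : ℝ) + 1 := by
      exact_mod_cast h4
    rw [h5]
    have := Int.floor_le M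
    linarith
  have h6 : ((F.image f).card : ℝ) ≤ (3 * M) ^ 2 := by
    calc ((F.image f).card : ℝ) ≤ (((⌊M⌋ + 1 - -⌊M⌋).toNat ^ 2 : ℕ) : ℝ) := by exact_mod_cast h2
      _ = (((⌊M⌋ + 1 - -⌊M⌋).toNat : ℕ) : ℝ) ^ 2 := by push_cast; ring
      _ ≤ _ := by gcongr
  calc (F.card : ℝ) ≤ ((⌊C₁⌋₊ * (F.image f).card : ℕ) : ℝ) := by exact_mod_cast h1
    _ = (⌊C₁⌋₊ : ℝ) * ((F.image f).card : ℝ) := by push_cast; ring
    _ ≤ C₁ * (3 * M) ^ 2 := by
        have := Nat.floor_le (by linarith : 0 ≤ C₁)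
        gcongr
    _ = _ := by ring

end Pool.Agent.H226.DE
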