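import Pool.Agent.H226.OF.Tail

/-!
Sums over pairs of frequencies.
-/

open Set Filter Topology
open H459R3.NS Pool.Agent.X96.HT Pool.Agent.X96.DM

namespace Pool.Agent.H226.DE

open Pool.Agent.H226.SW

variable {S : Finset K3} {x : K3 → ℝ} {E : ℝ}

/-- a nonnegative function with support in `S` and square sum at most `E` -/
structure Ad (S : Finset K3) (x : K3 → ℝ) (E : ℝ) : Prop where
  nonneg : ∀ k, 0 ≤ x k
  supp : ∀ k ∉ S, x k = 0
  en : ∑ k ∈ S, x k ^ 2 ≤ E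
  zero : (0 : K3) ∉ S

/-- the weighted square sum -/
noncomputable def XS (S : Finset K3) (x : K3 → ℝ) (a : ℕ) : ℝ := ∑ k ∈ S, kn k ^ a * x k ^ 2

/-- the convolution square -/
noncomputable def cv (S : Finset K3) (x : K3 → ℝ) (k : K3) : ℝ := ∑ p ∈ S, x p * x (k - p)

open Classical in
/-- the pairs -/
noncomputable def AS (S : Finset K3) : Finset (K3 × K3) := (S ×ˢ S).filter fun z => z.1 - z.2 ∈ S

/-- the longest frequency -/
noncomputable def mx (z : K3 × K3) : ℝ := max (kn z.1) (max (kn z.2) (kn (z.1 - z.2)))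

lemma mem_AS {z : K3 × K3} : z ∈ AS S ↔ (z.1 ∈ S ∧ z.2 ∈ S) ∧ z.1 - z.2 ∈ S := by
  classical
  unfold AS
  rw [Finset.mem_filter, Finset.mem_product]

lemma mx_swap (k p : K3) : mx (k, k - p) = mx (k, p) := by
  unfold mx
  simp only [sub_sub_cancel]
  rw [max_comm (kn (k - p)) (kn p)]

lemma le_mx1 (z : K3 × K3) : kn z.1 ≤ mx z := le_max_left _ _
lemma le_mx2 (z : K3 × K3) : kn z.2 ≤ mx z := (le_max_left _ _).trans (le_max_right _ _)
lemma le_mx3 (z : K3 × K3) : kn (z.1 - z.2) ≤ mx z := (le_max_right _ _).trans (le_max_right _ _)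

lemma kn_split (k p : K3) : kn k ≤ kn p + kn (k - p) := by
  have := kn_add_le p (k - p)
  rwa [add_sub_cancel] at this

lemma kn_split2 (k p : K3) : kn p ≤ kn k + kn (k - p) := by
  have := kn_add_le k (-(k - p))
  rw [kn_neg] at this
  have e : k + -(k - p) = p := by abel
  rwa [e] at this

lemma kn_split3 (k p : K3) : kn (k - p) ≤ kn k + kn p := by
  have := kn_add_le k (-p)
  rwa [kn_neg, ← sub_eq_add_neg] at this

lemma Ad.XS_nonneg (x : K3 → ℝ) (a : ℕ) : 0 ≤ XS S x a :=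
  Finset.sum_nonneg fun k _ => mul_nonneg (pow_nonneg (kn_nonneg k) a) (sq_nonneg _)

lemma Ad.E_nonneg (h : Ad S x E) : 0 ≤ E := (Finset.sum_nonneg fun k _ => sq_nonneg (x k)).trans h.en

lemma Ad.one_le (h : Ad S x E) {k : K3} (hk : k ∈ S) : 1 ≤ kn k :=
  one_le_kn fun e => h.zero (e ▸ hk)

lemma Ad.XS_mono (h : Ad S x E) {a b : ℕ} (hab : a ≤ b) : XS S x a ≤ XS S x b := by
  refine Finset.sum_le_sum fun k hk => ?_
  exact mul_le_mul_of_nonneg_right (pow_le_pow_right₀ (h.one_le hk) hab) (sq_nonneg _)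

lemma sum_shift {g : K3 → ℝ} (h0 : ∀ k, 0 ≤ g k) (hS : ∀ k ∉ S, g k = 0) (k : K3) :
    ∑ p ∈ S, g (k - p) ≤ ∑ r ∈ S, g r := by
  classical
  have hinj : Function.Injective fun p : K3 => k - p := fun a b hab => by
    simpa using hab
  rw [← Finset.sum_image (s := S) (g := fun p => k - p) (f := g) (hinj.injOn)]
  rw [← Finset.sum_filter_of_ne (p := fun r => r ∈ S) fun r _ hr => by
    by_contra hn
    exact hr (hS r hn)]
  refine Finset.sum_le_sum_of_subset_of_nonneg (fun r hr => (Finset.mem_filter.1 hr).2)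
    fun r _ _ => h0 r

lemma sum_shift' {g : K3 → ℝ} (h0 : ∀ k, 0 ≤ g k) (hS : ∀ k ∉ S, g k = 0) (p : K3) :
    ∑ k ∈ S, g (k - p) ≤ ∑ r ∈ S, g r := by
  classical
  have hinj : Function.Injective fun k : K3 => k - p := fun a b hab => by
    simpa using hab
  rw [← Finset.sum_image (s := S) (g := fun k => k - p) (f := g) (hinj.injOn)]
  rw [← Finset.sum_filter_of_ne (p := fun r => r ∈ S) fun r _ hr => by
    by_contra hn
    exact hr (hS r hn)]
  refine Finset.sum_le_sum_of_subset_of_nonneg (fun r hr => (Finset.mem_filter.1 hr).2)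
    fun r _ _ => h0 r

lemma Ad.sq_shift (h : Ad S x E) (k : K3) : ∑ p ∈ S, x (k - p) ^ 2 ≤ E :=
  (sum_shift (g := fun k => x k ^ 2) (fun k => sq_nonneg _) (fun k hk => by
    simp [h.supp k hk]) k).trans h.en

lemma Ad.sq_shift' (h : Ad S x E) (p : K3) : ∑ k ∈ S, x (k - p) ^ 2 ≤ E :=
  (sum_shift' (g := fun k => x k ^ 2) (fun k => sq_nonneg _) (fun k hk => by
    simp [h.supp k hk]) p).trans h.en

lemma AS_le {F : K3 × K3 → ℝ} (h0 : ∀ z, 0 ≤ F z) :
    ∑ z ∈ AS S, F z ≤ ∑ k ∈ S, ∑ p ∈ S, F (k, p) := by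
  classical
  rw [← Finset.sum_product (s := S) (t := S) (f := F)]
  exact Finset.sum_le_sum_of_subset_of_nonneg (Finset.filter_subset _ _) fun z _ _ => h0 z

lemma AS_le' {F : K3 × K3 → ℝ} (h0 : ∀ z, 0 ≤ F z) :
    ∑ z ∈ AS S, F z ≤ ∑ p ∈ S, ∑ k ∈ S, F (k, p) := by
  refine (AS_le h0).trans (le_of_eq ?_)
  exact Finset.sum_comm

lemma AS_swap (F : K3 × K3 → ℝ) : ∑ z ∈ AS S, F (z.1, z.1 - z.2) = ∑ z ∈ AS S, F z := by
  refine Finset.sum_nbij' (fun z => (z.1, z.1 - z.2)) (fun z => (z.1, z.1 - z.2)) ?_ ?_ ?_ ?_ ?_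
  · intro z hz
    rw [mem_AS] at hz ⊢
    simp only [sub_sub_cancel]
    exact ⟨⟨hz.1.1, hz.2⟩, hz.1.2⟩
  · intro z hz
    rw [mem_AS] at hz ⊢
    simp only [sub_sub_cancel]
    exact ⟨⟨hz.1.1, hz.2⟩, hz.1.2⟩
  · intro z _
    simp
  · intro z _
    simp
  · intro z _
    rfl

/-- the count of short frequencies -/
lemma cnt (S : Finset K3) {M : ℝ} (hM : 1 ≤ M) :
    (((S.filter fun k => kn k ≤ 2 * M).card : ℕ) : ℝ) ≤ 216 * M ^ 3 := by
  have := card_ball (2 * M) (by linarith) (S.filter fun k => kn k ≤ 2 * M)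
    fun k hk => (Finset.mem_filter.1 hk).2
  refine this.trans (le_of_eq ?_)
  ring

lemma cnt_pow (S : Finset K3) {M : ℝ} (hM : 1 ≤ M) (a : ℕ) :
    ∑ k ∈ S.filter (fun k => kn k ≤ 2 * M), kn k ^ a ≤ 216 * 2 ^ a * M ^ (a + 3) := by
  calc ∑ k ∈ S.filter (fun k => kn k ≤ 2 * M), kn k ^ a
      ≤ ∑ _k ∈ S.filter (fun k => kn k ≤ 2 * M), (2 * M) ^ a := by
        refine Finset.sum_le_sum fun k hk => ?_
        exact pow_le_pow_left₀ (kn_nonneg k) (Finset.mem_filter.1 hk).2 a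
    _ = (S.filter (fun k => kn k ≤ 2 * M)).card * (2 * M) ^ a := by
        rw [Finset.sum_const, nsmul_eq_mul]
    _ ≤ (216 * M ^ 3) * (2 * M) ^ a := by
        gcongr
        exact cnt S hM
    _ = _ := by ring

/-- the convolution is controlled by the energy and by the tail -/
lemma Ad.cv_sq (h : Ad S x E) (k : K3) :
    cv S x k ^ 2 ≤ 4 * E * ∑ r ∈ S.filter (fun r => kn k ≤ 2 * kn r), x r ^ 2 := by
  classical
  set τ := ∑ r ∈ S.filter (fun r => kn k ≤ 2 * kn r), x r ^ 2 with hτ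
  have hE := h.E_nonneg
  have hτ0 : 0 ≤ τ := Finset.sum_nonneg fun r _ => sq_nonneg _
  set A := ∑ p ∈ S.filter (fun p => kn k ≤ 2 * kn p), x p * x (k - p) with hA
  set B := ∑ p ∈ S.filter (fun p => kn k ≤ 2 * kn (k - p)), x p * x (k - p) with hB
  have hn : ∀ p, 0 ≤ x p * x (k - p) := fun p => mul_nonneg (h.nonneg _) (h.nonneg _)
  have h1 : cv S x k ≤ A + B := by
    unfold cv
    rw [hA, hB, Finset.sum_filter, Finset.sum_filter, ← Finset.sum_add_distrib]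
    refine Finset.sum_le_sum fun p _ => ?_
    have h2 := kn_split k p
    have h3 := hn p
    by_cases c : kn k ≤ 2 * kn p
    · rw [if_pos c]
      split_ifs <;> linarith
    · rw [if_neg c, if_pos (by push Not at c; linarith), zero_add]
  have h0 : 0 ≤ cv S x k := Finset.sum_nonneg fun p _ => hn p
  have hA2 : A ^ 2 ≤ τ * E := by
    refine (Finset.sum_mul_sq_le_sq_mul_sq _ _ _).trans ?_
    gcongr
    refine (Finset.sum_le_sum_of_subset_of_nonneg (Finset.filter_subset _ _)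
      fun p _ _ => sq_nonneg _).trans (h.sq_shift k)
  have hB2 : B ^ 2 ≤ E * τ := by
    refine (Finset.sum_mul_sq_le_sq_mul_sq _ _ _).trans ?_
    gcongr
    · exact (Finset.sum_le_sum_of_subset_of_nonneg (Finset.filter_subset _ _)
        fun p _ _ => sq_nonneg _).trans h.en
    · rw [hτ, Finset.sum_filter, Finset.sum_filter]
      exact sum_shift (g := fun r => if kn k ≤ 2 * kn r then x r ^ 2 else 0)
        (fun r => by split_ifs; exacts [sq_nonneg _, le_rfl])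
        (fun r hr => by simp [h.supp r hr]) k
  have h5 : cv S x k ^ 2 ≤ (A + B) ^ 2 := pow_le_pow_left₀ h0 h1 2
  have h6 : (A + B) ^ 2 ≤ 2 * A ^ 2 + 2 * B ^ 2 := by
    have := sq_nonneg (A - B)
    linarith [this, sq (A - B), sq (A + B), sq A, sq B, mul_comm A B,
      (by ring : (A - B) ^ 2 = A ^ 2 - 2 * (A * B) + B ^ 2),
      (by ring : (A + B) ^ 2 = A ^ 2 + 2 * (A * B) + B ^ 2)]
  calc cv S x k ^ 2 ≤ 2 * A ^ 2 + 2 * B ^ 2 := h5.trans h6
    _ ≤ 2 * (τ * E) + 2 * (E * τ) := by gcongr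
    _ = _ := by ring

lemma Ad.cv_nonneg (h : Ad S x E) (k : K3) : 0 ≤ cv S x k :=
  Finset.sum_nonneg fun _ _ => mul_nonneg (h.nonneg _) (h.nonneg _)

lemma Ad.cv_le (h : Ad S x E) (k : K3) : cv S x k ≤ E := by
  unfold cv
  calc ∑ p ∈ S, x p * x (k - p) ≤ ∑ p ∈ S, (x p ^ 2 + x (k - p) ^ 2) / 2 := by
        refine Finset.sum_le_sum fun p _ => ?_
        have := two_mul_le_add_sq (x p) (x (k - p))
        linarith
    _ = ((∑ p ∈ S, x p ^ 2) + ∑ p ∈ S, x (k - p) ^ 2) / 2 := by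
        rw [← Finset.sum_div, Finset.sum_add_distrib]
    _ ≤ (E + E) / 2 := by
        have := h.en
        have := h.sq_shift k
        gcongr
    _ = E := by ring

/-- exchange of the sums -/
lemma Ad.exch (h : Ad S x E) (a : ℕ) :
    ∑ k ∈ S, kn k ^ a * ∑ r ∈ S.filter (fun r => kn k ≤ 2 * kn r), x r ^ 2
      ≤ 216 * 2 ^ a * XS S x (a + 3) := by
  classical
  have h1 : ∑ k ∈ S, kn k ^ a * ∑ r ∈ S.filter (fun r => kn k ≤ 2 * kn r), x r ^ 2
      = ∑ r ∈ S, x r ^ 2 * ∑ k ∈ S.filter (fun k => kn k ≤ 2 * kn r), kn k ^ a := by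
    simp_rw [Finset.sum_filter, Finset.mul_sum]
    rw [Finset.sum_comm]
    refine Finset.sum_congr rfl fun r _ => Finset.sum_congr rfl fun k _ => ?_
    split_ifs <;> ring
  rw [h1]
  unfold XS
  rw [Finset.mul_sum]
  refine Finset.sum_le_sum fun r hr => ?_
  calc x r ^ 2 * ∑ k ∈ S.filter (fun k => kn k ≤ 2 * kn r), kn k ^ a
      ≤ x r ^ 2 * (216 * 2 ^ a * kn r ^ (a + 3)) := by
        gcongr
        exact cnt_pow S (h.one_le hr) a
    _ = _ := by ring

/-- type A -/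
lemma Ad.sum_cv (h : Ad S x E) (a : ℕ) :
    ∑ k ∈ S, kn k ^ a * cv S x k ^ 2 ≤ 864 * 2 ^ a * E * XS S x (a + 3) := by
  have hE := h.E_nonneg
  calc ∑ k ∈ S, kn k ^ a * cv S x k ^ 2
      ≤ ∑ k ∈ S, kn k ^ a * (4 * E * ∑ r ∈ S.filter (fun r => kn k ≤ 2 * kn r), x r ^ 2) := by
        refine Finset.sum_le_sum fun k _ => ?_
        have := kn_nonneg k
        gcongr
        exact h.cv_sq k
    _ = 4 * E * ∑ k ∈ S, kn k ^ a * ∑ r ∈ S.filter (fun r => kn k ≤ 2 * kn r), x r ^ 2 := by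
        rw [Finset.mul_sum]
        exact Finset.sum_congr rfl fun k _ => by ring
    _ ≤ 4 * E * (216 * 2 ^ a * XS S x (a + 3)) := by
        gcongr
        exact h.exch a
    _ = _ := by ring

lemma amgm {z a b : ℝ} (ha : 0 ≤ a) (hb : 0 ≤ b) (h : z ^ 2 ≤ a * b) : z ≤ (a + b) / 2 := by
  have h1 : z ^ 2 ≤ ((a + b) / 2) ^ 2 := by
    have := sq_nonneg (a - b)
    linarith [(by ring : ((a + b) / 2) ^ 2 = a * b + (a - b) ^ 2 / 4)]
  exact abs_le_of_sq_le_sq' h1 (by positivity) |>.2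

end Pool.Agent.H226.DE
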