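import Pool.Agent.H226.DE.Phys

/-!
Existence in physical space, with the pressure.
-/

open MeasureTheory Set Filter Topology
open scoped ENNReal NNReal ContDiff
open H459R3.NS Pool.Agent.X96.HT
open Pool.Agent.X96.DM hiding LL Fk Fk_apply exists_lim TT_all exists_sol uniq
open Pool.Agent.H356R3.NS (SFam RD TT pw pw_pos one_le_pw pw_sub cvv SF)

namespace Pool.Agent.H226.DE

open Pool.Agent.H226.SW hiding Fk Fk_apply Pol D_bw L2 norm_visc norm_Fk_le Fk_sub_le exists_lim
  TT_all exists_sol uniq diff_deriv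

/-- the multiplier of the pressure -/
noncomputable def pc (k : K3) (i : Fin 3) : ℂ :=
  if k = 0 then 0 else Complex.I * (k i : ℂ) / (2 * Real.pi * (kn k : ℂ) ^ 2)

lemma norm_pc (k : K3) (i : Fin 3) : ‖pc k i‖ ≤ 1 * pw k ^ 0 := by
  unfold pc
  rw [pow_zero, mul_one]
  split_ifs with hk
  · simp
  · have h1 := one_le_kn hk
    have h2 := abs_le_kn k i
    have h3 := Real.pi_gt_three
    rw [norm_div, norm_mul, norm_mul, norm_mul, norm_pow, Complex.norm_I, one_mul,
      Complex.norm_ofNat, Complex.norm_real, Complex.norm_real, Real.norm_eq_abs, Real.norm_eq_abs,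
      Complex.norm_intCast, abs_of_pos Real.pi_pos, abs_of_nonneg (kn_nonneg k),
      div_le_one (by positivity)]
    nlinarith

lemma pc_neg (k : K3) (i : Fin 3) : pc (-k) i = (starRingEnd ℂ) (pc k i) := by
  unfold pc
  by_cases hk : k = 0
  · rw [if_pos (by rw [hk, neg_zero]), if_pos hk, map_zero]
  · rw [if_neg (by rwa [neg_eq_zero]), if_neg hk, kn_neg]
    simp only [Pi.neg_apply, Int.cast_neg, map_div₀, map_mul, map_pow, map_ofNat,
      Complex.conj_ofReal, Complex.conj_I, map_intCast]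
    ring

/-- the coefficients of the pressure -/
noncomputable def ph (a : ℝ → K3 → C3) : SFam := fun k t =>
  ∑ i, pc k i * ∑ j, cvv (fun k t => a t k j)
    (fun k t => (2 * Real.pi * Complex.I * (k j : ℂ)) * a t k i) k t

lemma TL_ph {a : ℝ → K3 → C3} (ha : ∀ i, TL fun k t => a t k i) : TL (ph a) := by
  unfold ph
  refine TL.sum _ fun i _ => TL.mul (C := 1) (r := 0) (TL.sum _ fun j _ => ?_)
    (fun k => norm_pc k i)
  refine TL.conv (ha j) (TL.mul (C := 2 * Real.pi) (r := 1) (ha i) fun k => ?_)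
  rw [norm_mul, norm_mul, norm_mul, Complex.norm_I, mul_one, Complex.norm_ofNat, Complex.norm_real,
    Real.norm_eq_abs, Complex.norm_intCast, abs_of_pos Real.pi_pos, pow_one]
  have h1 := (abs_le_kn k j).trans (kn_le_pw k)
  have := Real.pi_pos
  gcongr

lemma TL.summ {c : SFam} (hc : TL c) {t : ℝ} (ht : 0 ≤ t) : Summable fun k => c k t := by
  obtain ⟨c', h1, h2⟩ := hc t ht
  obtain ⟨b, hb, h3⟩ := (h1 0).1.summ
  refine Summable.of_norm_bounded hb fun k => ?_
  rw [← h2 t ⟨ht, le_rfl⟩ k]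
  exact h3 k t

/-- the convection term as a convolution -/
lemma ph_eq {a : ℝ → K3 → C3} {w : V → V} (hw : ∀ i, SP fun x => w x i) {t : ℝ}
    (ha : a t = co w) (k : K3) :
    ph a k t = ∑ i, pc k i * fr (conv (fun i y => w y i) i) k := by
  unfold ph
  refine Finset.sum_congr rfl fun i _ => ?_
  congr 1
  have h1 : ∀ j, HasSum (fun l => fr (fun y => w y j) l * fr (pd j (fun y => w y i)) (- -k - l))
      (∫ x in cube, ee (-k) x * (S (fr (fun y => w y j)) x
        * S (fr (pd j (fun y => w y i))) x)) := fun j =>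
    integral_ee_S_S (-k) (rap_fr (hw j)).summable (rap_fr ((hw i).pd j)).summable
  have h2 : ∀ j, cvv (fun k t => a t k j)
      (fun k t => (2 * Real.pi * Complex.I * (k j : ℂ)) * a t k i) k t
      = ∫ x in cube, ee (-k) x * (S (fr (fun y => w y j)) x
        * S (fr (pd j (fun y => w y i))) x) := by
    intro j
    rw [← (h1 j).tsum_eq]
    unfold cvv
    refine tsum_congr fun l => ?_
    rw [neg_neg, fr_pd (hw i)]
    unfold H459R3.NS.D
    simp only [ha]
    rfl
  simp_rw [h2]
  have h3 := hasSum_sum (s := Finset.univ) fun j _ => h1 j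
  have h4 := hasSum_conv hw i (-k)
  rw [neg_neg] at h4
  refine h3.unique ?_
  have e : (fun l => ∑ j, fr (fun y => w y j) l * fr (pd j (fun y => w y i)) (- -k - l))
      = fun l => 2 * Real.pi * Complex.I * (dp (kc (k - l)) (co w l) * co w (k - l) i) := by
    funext l
    rw [Fin.sum_univ_three]
    simp_rw [fr_pd (hw i), H459R3.NS.D]
    unfold dp kc co
    rw [neg_neg]
    simp only [Pi.sub_apply]
    push_cast
    ring
  rw [e]
  exact h4

/-- the pressure -/
noncomputable def pf (a : ℝ → K3 → C3) (t : ℝ) (x : V) : ℝ := (SF (ph a) (t, x)).re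

lemma pf_eq (a : ℝ → K3 → C3) (t : ℝ) (x : V) :
    pf a t x = uf (fun _ k _ => ph a k t) t x 0 := by
  unfold pf uf SF S
  simp only [ex_eq_ee]

lemma pf_per (a : ℝ → K3 → C3) (t : ℝ) : Per (pf a t) := by
  intro j x
  rw [pf_eq, pf_eq, uf_per (a := fun _ k _ => ph a k t) t j x]

lemma pf_smooth {a : ℝ → K3 → C3} (ha : ∀ i, TL fun k t => a t k i) :
    ContDiffOn ℝ ∞ (fun z : ℝ × V => pf a z.1 z.2) (Ici 0 ×ˢ univ) :=
  Complex.reCLM.contDiff.comp_contDiffOn (TL_ph ha).smooth

lemma fr_pf {a : ℝ → K3 → C3} (ha : ∀ i, TL fun k t => a t k i) {w : V → V}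
    (hw : ∀ i, SP fun x => w x i) {t : ℝ} (ht : 0 ≤ t) (hat : a t = co w) (k : K3) :
    fr (pf a t) k = ph a k t := by
  have hreal : ∀ (_ : ℝ) k, (fun k (_ : Fin 3) => ph a k t) (-k) = cj (fun _ => ph a k t) := by
    intro _ k
    funext i
    show ph a (-k) t = (starRingEnd ℂ) (ph a k t)
    rw [ph_eq hw hat, ph_eq hw hat, map_sum]
    refine Finset.sum_congr rfl fun i _ => ?_
    rw [map_mul, pc_neg, fr_neg_conj]
  have h1 : ∀ x, (((pf a t x : ℝ)) : ℂ) = S (fun k => ph a k t) x := by
    intro x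
    rw [pf_eq]
    exact S_real (a := fun _ k _ => ph a k t) hreal t 0 x
  unfold fr fc
  simp only [h1]
  have := integral_ee_S (-k) ((TL_ph ha).summ ht)
  rw [this, neg_neg]

lemma sp_zero_of_fr {f : V → ℝ} (hf : SP f) (h : ∀ k, fr f k = 0) (x : V) : f x = 0 := by
  have h1 := S_fr hf x
  have h2 : S (fr f) x = 0 := by
    unfold S
    simp [h]
  rw [h2] at h1
  exact_mod_cast h1.symm

lemma sp_dt {T : ℝ} {f : ℝ → V → ℝ}
    (hf : ContDiffOn ℝ ∞ (fun z : ℝ × V => f z.1 z.2) (Ico 0 T ×ˢ univ))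
    (hp : ∀ t ∈ Ico 0 T, Per (f t)) {t : ℝ} (ht : t ∈ Ioo 0 T) : SP (dt f t) where
  smooth := contDiff_dt hf ht
  per := fun j x => by
    unfold dt
    apply Filter.EventuallyEq.deriv_eq
    filter_upwards [Ioo_mem_nhds ht.1 ht.2] with s hs
    exact hp s ⟨hs.1.le, hs.2⟩ j x

theorem existsL {Lo : (V → ℝ) → V → ℝ} {D : K3 → ℂ} {Cd : ℝ} {r : ℕ} (hL : Symb Lo D)
    (hD : PolC Cd r D) (hr : 1 ≤ r) {u₀ : V → V} (hs : ContDiff ℝ ∞ u₀) (hper : Per u₀)
    (hdiv : ∀ x, ∑ i, pd i (fun y => u₀ y i) x = 0) {B : ℝ → ℕ → ℝ}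
    (hBm : ∀ n, Monotone fun t => B t n)
    (hap : ∀ S : Finset K3, (0 : K3) ∉ S → ∀ (T : ℝ) (a : ℝ → K3 → C3),
      GalC (fun _ _ _ => 1) (Dm D (mn u₀)) T S a →
      (∀ n, hn n (a 0) ≤ hn n (co (sb (mn u₀) u₀))) → ∀ t ∈ Icc 0 T, ∀ n,
        hn n (a t) ≤ B t n) :
    ∃ (u : ℝ → V → V) (p : ℝ → V → ℝ), IsSolL Lo (Ici 0) u p ∧ u 0 = u₀ := by
  set m := mn u₀ with hm
  have hsp₀ : ∀ i, SP (fun x => u₀ x i) := fun i =>
    ⟨(contDiff_pi.1 hs) i, fun j x => congrFun (hper j x) i⟩
  have hco₀ : co (sb m u₀) 0 = 0 := co_sb_zero hsp₀ fun i => co_zero_eq u₀ i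
  obtain ⟨v, a, hv, hv0, hva, hTL, hreal, huf⟩ := exists_sol (η := fun _ _ _ => 1)
    (D := Dm D m) (Λ := {0}ᶜ) (u₀ := sb m u₀) (B := B) (isWeight_rwt one1_le)
    (Dm_conj hL.conj m) (fun k => by rw [re_Dm]; exact hL.nonneg k) (polC_Dm hD m hr)
    (fun k hk => by simpa using hk) (by simp) (by
      rw [contDiff_pi]
      intro i
      exact (sp_sb hsp₀ i).smooth) (by
      intro j x
      funext i
      exact (sp_sb hsp₀ i).per j x) (by
      intro x
      simp_rw [pd_sb]
      exact hdiv x) (fun k hk => by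
      have hk0 : k = 0 := by simpa using hk
      rw [hk0]; exact hco₀) hBm (fun S h0 _ T a h1 h2 => hap S h0 T a h1 h2)
  set u : ℝ → V → V := fun t x i => v t x i + m i with hu
  have hvu : ∀ t, v t = sb m (u t) := by
    intro t; funext x i; simp [hu, sb]
  have husm : ContDiffOn ℝ ∞ (fun z : ℝ × V => u z.1 z.2) (Ici 0 ×ˢ univ) := by
    rw [contDiffOn_pi]
    intro i
    exact ((contDiffOn_pi.1 hv.smooth) i).add contDiffOn_const
  have hper_u : ∀ t ∈ Ici (0 : ℝ), Per (u t) := by
    intro t ht j x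
    funext i
    show v t (x + Pi.single j 1) i + m i = v t x i + m i
    rw [hv.per t ht j x]
  have hpdu : ∀ t i j, pd j (fun y => u t y i) = pd j (fun y => v t y i) := by
    intro t i j
    exact pd_add_const _ _ _
  refine ⟨u, pf a, ⟨husm, pf_smooth hTL, hper_u, fun t _ => pf_per a t, fun t ht x => ?_,
    fun t ht ht0 x i => ?_⟩, ?_⟩
  · simp_rw [hpdu]
    exact hv.divfree t ht x
  · set T := t + 1 with hT
    have htT : t ∈ Ioo 0 T := ⟨ht0, by linarith⟩
    have hsub : Ico 0 T ⊆ Ici (0 : ℝ) := fun s hs => hs.1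
    have hsm : ∀ i, ContDiffOn ℝ ∞ (fun z : ℝ × V => u z.1 z.2 i) (Ico 0 T ×ˢ univ) := fun i =>
      ((contDiffOn_pi.1 husm) i).mono (prod_mono hsub Subset.rfl)
    have hspu : ∀ s ∈ Ico 0 T, ∀ i, SP (fun y => u s y i) := fun s hs i =>
      ⟨contDiff_slice (f := fun t y => u t y i) (hsm i) hs,
        fun j x => congrFun (hper_u s hs.1 j x) i⟩
    have hspv : ∀ s ∈ Ico 0 T, ∀ i, SP (fun y => v s y i) := fun s hs i => by
      have := sp_sb (m := m) (hspu s hs) i
      rwa [← hvu] at this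
    have htI : t ∈ Ico 0 T := ⟨ht0.le, htT.2⟩
    have hpt : SP (pf a t) := ⟨contDiff_slice (f := pf a)
      ((pf_smooth hTL).mono (prod_mono hsub Subset.rfl)) htI, pf_per a t⟩
    have hcod : ∀ k i, HasDerivAt (fun s => co (u s) k i) (cod u t k i) t :=
      fun k i => hasDerivAt_fr (f := fun s y => u s y i) (hsm i) htT k
    have hdvu : ∀ s ∈ Ico 0 T, ∀ x, ∑ i, pd i (fun y => u s y i) x = 0 := fun s hs x => by
      simp_rw [hpdu]
      exact hv.divfree s hs.1 x
    have hdvv : ∀ s ∈ Ico 0 T, ∀ x, ∑ i, pd i (fun y => v s y i) x = 0 := fun s hs x =>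
      hv.divfree s hs.1 x
    have hcv0 : ∀ s ∈ Ico 0 T, co (v s) 0 = 0 := fun s hs => hv.supp s hs.1 0 (by simp)
    -- the residual
    set R : V → ℝ := fun x => dt (fun s y => u s y i) t x
      + (conv (fun i y => u t y i) i x + ((-1) * Lo (fun y => u t y i) x + pd i (pf a t) x)) with hR
    have s1 : SP (dt (fun s y => u s y i) t) := sp_dt (f := fun s y => u s y i) (hsm i)
      (fun s hs => (hspu s hs i).per) htT
    have s2 : SP (conv (fun i y => u t y i) i) :=
      Pool.Agent.X96.HT.sp_conv (v := u t) (hspu t htI) i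
    have s3 : SP (Lo fun y => u t y i) := hL.sp (hspu t htI i)
    have s4 : SP (pd i (pf a t)) := hpt.pd i
    have s3' : SP fun x => (-1) * Lo (fun y => u t y i) x := (sp_const (-1)).mul s3
    have hRsp : SP R := s1.add (s2.add (s3'.add s4))
    have hR0 : ∀ k, fr R k = 0 := by
      intro k
      have e1 : fr R k = cod u t k i + (fr (conv (fun i y => u t y i) i) k
          + ((-1 : ℝ) * (-D k * co (u t) k i) + 2 * Real.pi * Complex.I * (k i : ℂ)
            * fr (pf a t) k)) := by
        rw [hR, fr_add (f := dt (fun s y => u s y i) t)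
          (g := fun x => conv (fun i y => u t y i) i x
            + ((-1) * Lo (fun y => u t y i) x + pd i (pf a t) x)) s1.cont
          (s2.add (s3'.add s4)).cont,
          fr_add (f := conv (fun i y => u t y i) i)
          (g := fun x => ((-1) * Lo (fun y => u t y i) x + pd i (pf a t) x)) s2.cont
          (s3'.add s4).cont,
          fr_add (f := fun x => (-1) * Lo (fun y => u t y i) x)
          (g := pd i (pf a t)) s3'.cont s4.cont, fr_smul, hL.fr (hspu t htI i), fr_pd hpt]
        rfl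
      rw [e1]
      by_cases hk : k = 0
      · subst hk
        have h1 : cod u t 0 i = 0 := by
          refine (hcod 0 i).unique ?_
          refine (hasDerivAt_const t (m i : ℂ)).congr_of_eventuallyEq ?_
          filter_upwards [Ioo_mem_nhds htT.1 htT.2] with s hs
          have hs' : s ∈ Ico 0 T := ⟨hs.1.le, hs.2⟩
          have h2 := congrFun (hcv0 s hs') i
          rw [hvu] at h2
          unfold co at h2 ⊢
          rw [sb_eq, fr_add (hspu s hs' i).cont continuous_const, fr_const, if_pos rfl] at h2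
          simp only [Complex.ofReal_neg, Pi.zero_apply] at h2
          linear_combination h2
        rw [h1, fr_conv_zero (hspu t htI) (dp_co (hspu t htI) (hdvu t htI)), hL.zero]
        simp
      · have hat := hva t ht0.le
        have h1 : cod u t k i = -Dm D m k * co (v t) k i
            - nonl (fun _ _ _ => 1) (co (v t)) k i := by
          refine (hcod k i).unique ?_
          have h2 := hv.eqn t ht ht0 k (by simpa using hk) i
          refine h2.congr_of_eventuallyEq ?_
          filter_upwards [Ioo_mem_nhds htT.1 htT.2] with s hs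
          rw [hvu, co_sb (hspu s ⟨hs.1.le, hs.2⟩) hk]
        have h3 : co (u t) k i = co (v t) k i := by
          rw [hvu, co_sb (hspu t htI) hk]
        have h4 := fr_conv_sb (m := m) (hspu t htI) i k
        rw [h3] at h4
        have h4' : fr (conv (fun i y => sb m (u t) y i) i) k
            = fr (conv (fun i y => v t y i) i) k := by rw [← hvu]
        rw [h4'] at h4
        rw [h1, nonl_one_lry (hspv t htI) (dp_co (hspv t htI) (hdvv t htI)) (hcv0 t htI) hk, h4,
          h3, fr_pf hTL (hspv t htI) ht0.le hat.symm, ph_eq (hspv t htI) hat.symm]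
        have hkn : (kn k : ℂ) ≠ 0 := by exact_mod_cast (kn_pos hk).ne'
        have hpi : (Real.pi : ℂ) ≠ 0 := by exact_mod_cast Real.pi_pos.ne'
        have hpc : ∀ j, pc k j = Complex.I * (k j : ℂ) / (2 * Real.pi * (kn k : ℂ) ^ 2) := fun j => by
          unfold pc; rw [if_neg hk]
        simp_rw [hpc]
        rw [Fin.sum_univ_three]
        unfold lry dp Dm
        simp only [Pi.sub_apply, Pi.smul_apply, smul_eq_mul, kc]
        have hI := Complex.I_sq
        field_simp
        push_cast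
        linear_combination ((k i : ℂ) * ((k 0 : ℂ) * fr (conv (fun i y => v t y i) 0) k
          + (k 1 : ℂ) * fr (conv (fun i y => v t y i) 1) k
          + (k 2 : ℂ) * fr (conv (fun i y => v t y i) 2) k)) * hI
    have h5 := sp_zero_of_fr hRsp hR0 x
    simp only [hR] at h5
    have h6 : dt (fun s y => u s y i) t x = deriv (fun s => u s x i) t := rfl
    have h7 : conv (fun i y => u t y i) i x = ∑ j, u t x j * pd j (fun y => u t y i) x := rfl
    rw [h6, h7] at h5
    linarith
  · funext x i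
    show v 0 x i + m i = u₀ x i
    rw [hv0]
    simp [sb]

end Pool.Agent.H226.DE
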