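import Pool.Agent.H226.DE.Exi
import Pool.Agent.H226.DE.AprN

/-!
The two existence theorems.
-/

open MeasureTheory Set Filter Topology
open scoped ENNReal NNReal ContDiff
open H459R3.NS Pool.Agent.X96.HT
open Pool.Agent.X96.DM hiding LL Fk Fk_apply exists_lim TT_all exists_sol uniq

namespace Pool.Agent.H226.DE

open Pool.Agent.H226.SW hiding Fk Fk_apply Pol D_bw L2 norm_visc norm_Fk_le Fk_sub_le exists_lim
  TT_all exists_sol uniq diff_deriv

variable {Lo : (V → ℝ) → V → ℝ} {D : K3 → ℂ} {Cd : ℝ} {r : ℕ}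

lemma one_le_H : ∀ a b c : Md, |(fun _ _ _ => (1 : ℝ) : Md → Md → Md → ℝ) a b c| ≤ 1 := by
  intro a b c; simp

lemma hn_nonneg' {S : Finset K3} {U : K3 → C3} (hS : ∀ k ∉ S, U k = 0) (n : ℕ) : 0 ≤ hn n U := by
  rw [← nw_hn hS]
  exact nw_nonneg (fun k _ => pow_nonneg (kn_nonneg _) _) _

lemma hn_nonneg_all (n : ℕ) (U : K3 → C3) : 0 ≤ hn n U := by
  unfold hn
  refine tsum_nonneg fun k => ?_
  have := kn_nonneg k
  positivity

lemma Zc_Dm (D : K3 → ℂ) (m : V) (z : K3 × K3) : Zc (Dm D m) z = Zc D z := by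
  unfold Zc Dm
  rw [kd_sub]
  simp only [map_add, map_mul, map_ofNat, Complex.conj_ofReal, Complex.conj_I, Complex.ofReal_sub]
  ring

/-- no dissipation needed, all far triads away from resonance -/
theorem existsE (hL : Symb Lo D) (hD : PolC Cd r D) (hr : 1 ≤ r) {c₀ R : ℝ} (hc : 0 < c₀)
    (hN : NRes D c₀ R) {u₀ : V → V} (hs : ContDiff ℝ ∞ u₀) (hper : Per u₀)
    (hdiv : ∀ x, ∑ i, pd i (fun y => u₀ y i) x = 0) :
    ∃ (u : ℝ → V → V) (p : ℝ → V → ℝ), IsSolL Lo (Ici 0) u p ∧ u 0 = u₀ := by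
  set v₀ := sb (mn u₀) u₀ with hv₀
  set E₀ := hn 0 (co v₀) with hE₀
  have hE0 : 0 ≤ E₀ := hn_nonneg_all _ _
  choose A K hA hK hAK using fun m => aprE_one 1 (by norm_num) (R := R) hc E₀ hE0 m
  refine existsL hL hD hr hs hper hdiv (B := fun t n => Real.exp (K n * max t 0)
    * (3 * hn (2 * (n + 2)) (co v₀) + A n * max t 0)) (fun n => ?_)
    fun S h0 T a ha h1 t ht n => ?_
  · intro t t' htt
    have h2 : max t 0 ≤ max t' 0 := max_le_max htt le_rfl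
    have h3 : 0 ≤ max t 0 := le_max_right _ _
    have h4 := hn_nonneg_all (2 * (n + 2)) (co v₀)
    have h5 := hA n
    have h6 := hK n
    show Real.exp (K n * max t 0) * (3 * hn (2 * (n + 2)) (co v₀) + A n * max t 0)
      ≤ Real.exp (K n * max t' 0) * (3 * hn (2 * (n + 2)) (co v₀) + A n * max t' 0)
    gcongr
  · have hN' : NRes (Dm D (mn u₀)) c₀ R := by
      intro z h2 h3 h4 h5
      rw [Zc_Dm]
      exact hN z h2 h3 h4 h5
    have h2 := hAK n (fun _ _ _ => 1) (isWeight_rwt one1_le) one_le_H (Dm D (mn u₀))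
      (fun k => by rw [re_Dm]; exact hL.nonneg k) hN' S h0 T a ha (h1 0) t ht
    have h3 : hn n (a t) ≤ hn (2 * (n + 2)) (a t) := hn_mono_fin (ha.supp t) h0 (by omega)
    refine h3.trans (h2.trans ?_)
    have h4 := h1 (2 * (n + 2))
    have e : max t 0 = t := max_eq_left ht.1
    show _ ≤ Real.exp (K n * max t 0) * (3 * hn (2 * (n + 2)) (co v₀) + A n * max t 0)
    rw [e]
    gcongr

/-- with dissipation and few near resonant triads -/
theorem existsN (hL : Symb Lo D) (hD : PolC Cd r D) (hr : 1 ≤ r) {ν' : ℝ} (hν : 0 < ν')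
    (hDν : ∀ k, ν' * kn k ^ 2 ≤ (D k).re)
    (hfew : ∀ Λ : ℝ, 0 ≤ Λ → ∃ C, 1 ≤ C ∧
      Few (fun L m => |dl (fun k => (D k).im) L m| ≤ Λ * kn L ^ 3) C)
    {u₀ : V → V} (hs : ContDiff ℝ ∞ u₀) (hper : Per u₀)
    (hdiv : ∀ x, ∑ i, pd i (fun y => u₀ y i) x = 0) :
    ∃ (u : ℝ → V → V) (p : ℝ → V → ℝ), IsSolL Lo (Ici 0) u p ∧ u 0 = u₀ := by
  set v₀ := sb (mn u₀) u₀ with hv₀
  set E₀ := hn 0 (co v₀) with hE₀
  have hE0 : 0 ≤ E₀ := hn_nonneg_all _ _
  have hfew' : ∀ Λ : ℝ, 0 ≤ Λ → ∃ C, 1 ≤ C ∧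
      Few (fun L m => |dl (fun k => (Dm D (mn u₀) k).im) L m| ≤ Λ * kn L ^ 3) C := by
    intro Λ hΛ
    simp only [dl_Dm]
    exact hfew Λ hΛ
  choose B hB hBB using fun m => aprN (D := Dm D (mn u₀)) 1 (by norm_num) hν E₀ hE0
    (Dm_conj hL.conj (mn u₀)) (fun k => by rw [re_Dm]; exact hDν k) hfew' m
  refine existsL hL hD hr hs hper hdiv (B := fun _ n => B n * hn (2 * (n + 1)) (co v₀))
    (fun n => fun t t' _ => le_rfl) fun S h0 T a ha h1 t ht n => ?_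
  have h2 := hBB n (fun _ _ _ => 1) (isWeight_rwt one1_le) one_le_H S h0 T a ha (h1 0) t ht
  have h3 : hn n (a t) ≤ hn (2 * (n + 1)) (a t) := hn_mono_fin (ha.supp t) h0 (by omega)
  refine h3.trans (h2.trans ?_)
  have h4 := h1 (2 * (n + 1))
  have h5 := hB n
  gcongr

end Pool.Agent.H226.DE
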