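import Pool.Agent.H226.SW.Lim
import Pool.Agent.H226.DE.Gal

/-!
The limit of the Galerkin approximations, with bounds which may grow in time.
-/

open MeasureTheory Set Filter Topology
open scoped ENNReal InnerProductSpace NNReal
open H459R3.NS Pool.Agent.X96.HT
open Pool.Agent.X96.DM hiding LL Fk Fk_apply exists_lim

namespace Pool.Agent.H226.DE

open Pool.Agent.H226.SW hiding Fk Fk_apply Pol D_bw L2 norm_visc norm_Fk_le Fk_sub_le exists_lim

variable {η : Md → Md → Md → ℝ} {D : K3 → ℂ} {S : Finset K3} {Cd : ℝ} {r : ℕ}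

/-- polynomial growth -/
def PolC (Cd : ℝ) (r : ℕ) (D : K3 → ℂ) : Prop := ∀ k, ‖D k‖ ≤ Cd * (1 + kn k) ^ r

lemma PolC.nonneg (h : PolC Cd r D) : 0 ≤ Cd := by
  have := (norm_nonneg _).trans (h 0)
  rw [kn_zero, add_zero, one_pow, mul_one] at this
  exact this

lemma D_bw (hD : PolC Cd r D) {C : ℝ} (hC : 0 ≤ C) (k : K3) :
    ‖D k‖ * bw r C k ≤ Cd * 3 ^ r * C := by
  have h := SW.D_bw (D := fun k => ‖D k‖) (Cd := Cd) (r := r) (fun k => by
    rw [abs_of_nonneg (norm_nonneg _)]; exact hD k) hC k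
  rwa [abs_of_nonneg (norm_nonneg _)] at h

/-- the right-hand side -/
noncomputable def Fk (η : Md → Md → Md → ℝ) (D : K3 → ℂ) (U : K3 → C3) (k : K3) : C3 :=
  -(D k) • U k - nonl η U k

lemma Fk_apply (U : K3 → C3) (k : K3) (i : Fin 3) :
    Fk η D U k i = -(D k) * U k i - nonl η U k i := rfl

lemma GalC.vecF {T : ℝ} {a : ℝ → K3 → C3} (h : GalC η D T S a) {t : ℝ} (ht : t ∈ Icc 0 T) {k : K3}
    (hk : k ∈ S) : HasDerivWithinAt (fun s => a s k) (Fk η D (a t) k) (Icc 0 T) t :=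
  hasDerivWithinAt_pi.2 fun i => h.deriv t ht k hk i

lemma GalC.mono {T T' : ℝ} {a : ℝ → K3 → C3} (h : GalC η D T S a) (hT : T' ≤ T) :
    GalC η D T' S a where
  supp := h.supp
  real := h.real
  div := h.div
  deriv t ht k hk i := (h.deriv t ⟨ht.1, ht.2.trans hT⟩ k hk i).mono (Icc_subset_Icc_right hT)

noncomputable def L2 (D : K3 → ℂ) (Cd : ℝ) (r : ℕ) (H C : ℝ) (k : K3) : ℝ :=
  ‖D k‖ * LL Cd r H C + cB H * kn k * (2 * (LL Cd r H C * ∑' p, be6 C p))

lemma norm_visc (k : K3) (x : C3) : ‖-(D k) • x‖ = ‖D k‖ * ‖x‖ := by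
  rw [norm_smul, norm_neg]

lemma norm_Fk_le {H : ℝ} (hH : ∀ a b c, |η a b c| ≤ H) (hD : PolC Cd r D) {U : K3 → C3} {C : ℝ}
    (hC : 0 ≤ C) (hU : ∀ k, ‖U k‖ ≤ bw r C k) (k : K3) : ‖Fk η D U k‖ ≤ LL Cd r H C := by
  unfold Fk LL
  refine (norm_sub_le _ _).trans (add_le_add ?_
    (norm_nonl_le hH hC (fun k => (hU k).trans (bw_le hC k)) k))
  rw [norm_visc]
  calc ‖D k‖ * ‖U k‖ ≤ ‖D k‖ * bw r C k := by gcongr; exact hU k
    _ ≤ _ := D_bw hD hC k

lemma GalC.lip {T : ℝ} {a : ℝ → K3 → C3} (h : GalC η D T S a) {H : ℝ}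
    (hH : ∀ a b c, |η a b c| ≤ H) (hD : PolC Cd r D) {C : ℝ} (hC : 0 ≤ C)
    (hU : ∀ t ∈ Icc 0 T, ∀ k, ‖a t k‖ ≤ bw r C k) {s t : ℝ} (hs : s ∈ Icc 0 T) (ht : t ∈ Icc 0 T)
    (k : K3) : ‖a s k - a t k‖ ≤ LL Cd r H C * |s - t| := by
  by_cases hk : k ∈ S
  · have := (convex_Icc 0 T).norm_image_sub_le_of_norm_hasDerivWithin_le
      (f := fun s => a s k) (f' := fun s => Fk η D (a s) k) (C := LL Cd r H C)
      (fun r hr => h.vecF hr hk) (fun r hr => norm_Fk_le hH hD hC (hU r hr) k) ht hs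
    simpa using this
  · rw [h.supp s k hk, h.supp t k hk, sub_zero, norm_zero]
    have := norm_Fk_le hH hD hC (hU s hs) k
    have h2 := (norm_nonneg _).trans this
    positivity

lemma Fk_sub_le {H : ℝ} (hH : ∀ a b c, |η a b c| ≤ H) {U W : K3 → C3} {C : ℝ}
    (hC : 0 ≤ C)
    (hU : ∀ k, ‖U k‖ ≤ bw r C k) (hW : ∀ k, ‖W k‖ ≤ bw r C k) {d : ℝ}
    (hd : ∀ k, ‖U k - W k‖ ≤ LL Cd r H C * d) (k : K3) :
    ‖Fk η D U k - Fk η D W k‖ ≤ L2 D Cd r H C k * d := by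
  have e : Fk η D U k - Fk η D W k = -(D k) • (U k - W k)
      - (nonl η U k - nonl η W k) := by
    unfold Fk; rw [smul_sub]; abel
  rw [e]
  refine (norm_sub_le _ _).trans ?_
  have h1 := norm_nonl_sub_le hH (be6_summable hC) (fun k => (hU k).trans (bw_le hC k))
    (fun k => (hW k).trans (bw_le hC k)) hd k
  rw [norm_visc]
  calc ‖D k‖ * ‖U k - W k‖ + ‖nonl η U k - nonl η W k‖
      ≤ ‖D k‖ * (LL Cd r H C * d)
        + cB H * kn k * (2 * (LL Cd r H C * d * ∑' p, be6 C p)) := by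
        gcongr
        exact hd k
    _ = _ := by unfold L2; ring

lemma GalC.taylor {T : ℝ} {a : ℝ → K3 → C3} (h : GalC η D T S a) {H : ℝ}
    (hH : ∀ a b c, |η a b c| ≤ H) (hD : PolC Cd r D) {C : ℝ} (hC : 0 ≤ C)
    (hU : ∀ t ∈ Icc 0 T, ∀ k, ‖a t k‖ ≤ bw r C k) {s t : ℝ} (hs : s ∈ Icc 0 T) (ht : t ∈ Icc 0 T)
    {k : K3} (hk : k ∈ S) :
    ‖a s k - a t k - (s - t) • Fk η D (a t) k‖ ≤ L2 D Cd r H C k * |s - t| * |s - t| := by
  have hsub : uIcc t s ⊆ Icc 0 T := uIcc_subset_Icc ht hs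
  have h1 : ∀ r ∈ uIcc t s, HasDerivWithinAt (fun r => a r k - r • Fk η D (a t) k)
      (Fk η D (a r) k - (1 : ℝ) • Fk η D (a t) k) (uIcc t s) r := fun r hr =>
    ((h.vecF (hsub hr) hk).mono hsub).sub ((hasDerivWithinAt_id r _).smul_const _)
  have h2 : ∀ x ∈ uIcc t s, ‖Fk η D (a x) k - (1 : ℝ) • Fk η D (a t) k‖
      ≤ L2 D Cd r H C k * |s - t| := by
    intro x hx
    rw [one_smul]
    refine (Fk_sub_le (D := D) hH hC (hU x (hsub hx)) (hU t ht) (d := |x - t|)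
      (fun p => h.lip hH hD hC hU (hsub hx) ht p) k).trans ?_
    have h3 : |x - t| ≤ |s - t| := abs_sub_left_of_mem_uIcc hx
    have h4 : 0 ≤ L2 D Cd r H C k := by
      have h5 := Fk_sub_le (D := D) (Cd := Cd) hH hC (hU t ht) (hU t ht) (d := 1) (fun p => by
        rw [sub_self, norm_zero, mul_one]
        exact (norm_nonneg _).trans (norm_Fk_le hH hD hC (hU t ht) 0)) k
      rw [sub_self, norm_zero, mul_one] at h5
      exact h5
    gcongr
  have h5 := (convex_uIcc t s).norm_image_sub_le_of_norm_hasDerivWithin_le h1 h2 left_mem_uIcc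
    right_mem_uIcc
  have e : a s k - s • Fk η D (a t) k - (a t k - t • Fk η D (a t) k)
      = a s k - a t k - (s - t) • Fk η D (a t) k := by
    rw [sub_smul]; abel
  rw [e, Real.norm_eq_abs] at h5
  exact h5

theorem exists_lim (hη : IsWeight η) (hDn : ∀ k, D (-k) = (starRingEnd ℂ) (D k))
    (hD0 : ∀ k, 0 ≤ (D k).re) (hD : PolC Cd r D) {Λ : Set K3} (hΛ : ∀ k ∈ Λ, -k ∈ Λ)
    (hΛ0 : (0 : K3) ∉ Λ) {U₀ : K3 → C3} (hU : RapV U₀) {B : ℝ → ℕ → ℝ}
    (hBm : ∀ n, Monotone fun t => B t n)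
    (hap : ∀ S : Finset K3, (0 : K3) ∉ S → ↑S ⊆ Λ → ∀ (T : ℝ) (a : ℝ → K3 → C3),
      GalC η D T S a → (∀ n, hn n (a 0) ≤ hn n U₀) → ∀ t ∈ Icc 0 T, ∀ n, hn n (a t) ≤ B t n)
    (hsupp : ∀ k ∉ Λ, U₀ k = 0) (hdiv : ∀ k, dp (kc k) (U₀ k) = 0)
    (hreal : ∀ k, U₀ (-k) = cj (U₀ k)) :
    ∃ a : ℝ → K3 → C3, a 0 = U₀ ∧ (∀ t k, a t (-k) = cj (a t k)) ∧
      (∀ t k, dp (kc k) (a t k) = 0) ∧ (∀ t, ∀ k ∉ Λ, a t k = 0) ∧
      (∀ T, 0 ≤ T → ∀ t ≤ T, ∀ k m, kn k ^ m * ‖a t k‖ ^ 2 ≤ B T m) ∧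
      (∀ k, Continuous fun t => a t k) ∧
      (∀ t, 0 < t → ∀ k ∈ Λ, HasDerivAt (fun s => a s k) (Fk η D (a t) k) t) := by
  obtain ⟨H, hH⟩ := hη.bdd
  have hH0 : 0 ≤ H := (abs_nonneg _).trans (hH (0, true) (0, true) (0, true))
  have hex : ∀ n : ℕ, ∃ a, GalC η D n (FL Λ n) a ∧ a 0 = tS (FL Λ n) U₀ := by
    intro n
    refine exists_gal hη hDn hD0 (FL_neg hΛ) (Nat.cast_nonneg n) (fun k hk => tS_not U₀ hk)
      (fun k => ?_) fun k => ?_
    · by_cases hk : k ∈ FL Λ n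
      · rw [tS_mem _ hk]; exact hdiv k
      · rw [tS_not _ hk]; unfold dp; simp
    · by_cases hk : k ∈ FL Λ n
      · rw [tS_mem _ hk, tS_mem _ (FL_neg hΛ k hk)]; exact hreal k
      · have hk' : -k ∉ FL Λ n := fun h => hk (by simpa using FL_neg hΛ _ h)
        rw [tS_not _ hk, tS_not _ hk']; funext i; simp [cj]
  choose A hA hA0 using hex
  set C6 : ℝ → ℝ := fun T => Real.sqrt (B T (2 * (r + 6))) with hC6
  have hC60 : ∀ T, 0 ≤ C6 T := fun T => Real.sqrt_nonneg _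
  have hbd : ∀ T : ℝ, ∀ n : ℕ, T ≤ n → ∀ t ∈ Icc (0 : ℝ) T, ∀ k m,
      kn k ^ m * ‖A n t k‖ ^ 2 ≤ B T m := by
    intro T n hn t ht k m
    refine (pow_sq_le_hn (rapV_fin ((hA n).supp t)) m k).trans ?_
    refine le_trans ?_ (hBm m ht.2)
    refine hap (FL Λ n) zero_notMem_FL (FL_sub Λ n) n (A n) (hA n) (fun m => ?_) t
      ⟨ht.1, ht.2.trans hn⟩ m
    rw [hA0]
    exact hn_tS_le hU _ m
  have hbe : ∀ T : ℝ, ∀ n : ℕ, T ≤ n → ∀ t ∈ Icc (0 : ℝ) T, ∀ k, ‖A n t k‖ ≤ bw r (C6 T) k := by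
    intro T n hn t ht k
    refine le_bw (fun hk => ?_) fun m => hbd T n hn t ht k m
    rw [hk]; exact (hA n).supp t 0 zero_notMem_FL
  set 𝓕 : Ultrafilter ℕ := hyperfilter ℕ with h𝓕
  have hev : ∀ t : ℝ, ∀ᶠ n : ℕ in (𝓕 : Filter ℕ), t ≤ (n : ℝ) := by
    intro t
    have : ∀ᶠ n : ℕ in atTop, t ≤ n := eventually_ge_atTop ⌈t⌉₊ |>.mono fun n hn => Nat.ceil_le.1 hn
    exact Nat.hyperfilter_le_atTop this
  have hlim : ∀ (t : ℝ) (k : K3), ∃ x, Tendsto (fun n => A n (max t 0) k) 𝓕 (𝓝 x) := by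
    intro t k
    have hc : IsCompact (Metric.closedBall (0 : C3) (bw r (C6 (max t 0)) k)) :=
      isCompact_closedBall _ _
    obtain ⟨x, -, hx⟩ := hc.ultrafilter_le_nhds (𝓕.map fun n => A n (max t 0) k) (by
      rw [le_principal_iff]
      show ∀ᶠ n in (𝓕 : Filter ℕ), A n (max t 0) k ∈ Metric.closedBall (0 : C3)
        (bw r (C6 (max t 0)) k)
      refine (hev (max t 0)).mono fun n hn => ?_
      rw [mem_closedBall_zero_iff]
      exact hbe _ n hn _ ⟨le_max_right _ _, le_rfl⟩ k)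
    exact ⟨x, hx⟩
  choose a ha using hlim
  have hmax : ∀ t, a (max t 0) = a t := by
    intro t
    funext k
    have h1 := ha (max t 0) k
    rw [max_eq_left (le_max_right t 0)] at h1
    exact tendsto_nhds_unique h1 (ha t k)
  have hAe : ∀ t, ∀ᶠ n in (𝓕 : Filter ℕ), ∀ k, ‖A n (max t 0) k‖ ≤ bw r (C6 (max t 0)) k :=
    fun t => (hev (max t 0)).mono fun n hn k => hbe _ n hn _ ⟨le_max_right _ _, le_rfl⟩ k
  have hF : ∀ t k, Tendsto (fun n => Fk η D (A n (max t 0)) k) 𝓕 (𝓝 (Fk η D (a t) k)) := by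
    intro t k
    unfold Fk
    refine Tendsto.sub (Tendsto.const_smul (ha t k) _) ?_
    exact tendsto_nonl hH (be6_summable (hC60 (max t 0))) (be6_nonneg (hC60 (max t 0)))
      ((hAe t).mono fun n hn k => (hn k).trans (bw_le (hC60 _) k)) (ha t) k
  have hmem : ∀ k : K3, k ∈ Λ → ∀ᶠ n in (𝓕 : Filter ℕ), k ∈ FL Λ n := by
    intro k hk
    have hk0 : k ≠ 0 := fun e => hΛ0 (e ▸ hk)
    have : ∀ᶠ n : ℕ in atTop, N k ≤ n := eventually_ge_atTop (N k)
    exact Filter.Eventually.mono (Nat.hyperfilter_le_atTop this) fun n hn =>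
      mem_FL.2 ⟨⟨hk0, hn⟩, hk⟩
  have haΛ : ∀ t, ∀ k ∉ Λ, a t k = 0 := by
    intro t k hk
    refine tendsto_nhds_unique (ha t k) ?_
    have : (fun n => A n (max t 0) k) = fun _ => 0 := by
      funext n; exact (hA n).supp _ k fun h => hk (FL_sub Λ n (Finset.mem_coe.2 h))
    rw [this]; exact tendsto_const_nhds
  have hLip : ∀ T s t k, s ∈ Icc 0 T → t ∈ Icc 0 T →
      ‖a s k - a t k‖ ≤ LL Cd r H (C6 T) * |s - t| := by
    intro T s t k hs ht
    have h1 : Tendsto (fun n => ‖A n (max s 0) k - A n (max t 0) k‖) 𝓕 (𝓝 ‖a s k - a t k‖) :=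
      ((ha s k).sub (ha t k)).norm
    refine le_of_tendsto h1 ?_
    filter_upwards [hev T] with n hn1
    rw [max_eq_left hs.1, max_eq_left ht.1]
    exact ((hA n).mono hn1).lip hH hD (hC60 T) (hbe T n hn1) hs ht k
  have hTay : ∀ T s t, ∀ k ∈ Λ, s ∈ Icc 0 T → t ∈ Icc 0 T →
      ‖a s k - a t k - (s - t) • Fk η D (a t) k‖ ≤ L2 D Cd r H (C6 T) k * |s - t| * |s - t| := by
    intro T s t k hk hs ht
    have h1 : Tendsto (fun n => ‖A n (max s 0) k - A n (max t 0) k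
          - (s - t) • Fk η D (A n (max t 0)) k‖) 𝓕
          (𝓝 ‖a s k - a t k - (s - t) • Fk η D (a t) k‖) :=
        (((ha s k).sub (ha t k)).sub (Tendsto.const_smul (hF t k) _)).norm
    refine le_of_tendsto h1 ?_
    filter_upwards [hev T, hmem k hk] with n hn1 hn3
    rw [max_eq_left hs.1, max_eq_left ht.1]
    exact ((hA n).mono hn1).taylor hH hD (hC60 T) (hbe T n hn1) hs ht hn3
  refine ⟨a, ?_, ?_, ?_, haΛ, ?_, ?_, ?_⟩
  · funext k
    refine tendsto_nhds_unique (ha 0 k) ?_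
    rw [max_self]
    by_cases hk : k ∈ Λ
    · refine tendsto_const_nhds.congr' ?_
      filter_upwards [hmem k hk] with n hn
      rw [hA0, tS_mem _ hn]
    · have : (fun n => A n 0 k) = fun _ => U₀ k := by
        funext n; rw [hsupp k hk]
        exact (hA n).supp _ k fun h => hk (FL_sub Λ n (Finset.mem_coe.2 h))
      rw [this]; exact tendsto_const_nhds
  · intro t k
    have hcj : Continuous cj := by
      unfold cj
      exact continuous_pi fun i => Complex.continuous_conj.comp (continuous_apply i)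
    refine tendsto_nhds_unique (ha t (-k)) ?_
    have h1 := (hcj.tendsto (a t k)).comp (ha t k)
    refine h1.congr fun n => ?_
    exact ((hA n).real _ k).symm
  · intro t k
    have hdp : Continuous fun x : C3 => dp (kc k) x := by unfold dp; fun_prop
    refine tendsto_nhds_unique ((hdp.tendsto (a t k)).comp (ha t k)) ?_
    have : ((fun x : C3 => dp (kc k) x) ∘ fun n => A n (max t 0) k) = fun _ => 0 := by
      funext n; exact (hA n).div _ k
    rw [this]; exact tendsto_const_nhds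
  · intro T hT t ht k m
    have h1 : Tendsto (fun n => kn k ^ m * ‖A n (max t 0) k‖ ^ 2) 𝓕 (𝓝 (kn k ^ m * ‖a t k‖ ^ 2)) :=
      (((ha t k).norm).pow 2).const_mul _
    refine le_of_tendsto h1 ?_
    filter_upwards [hev T] with n hn
    exact hbd T n hn _ ⟨le_max_right _ _, max_le ht hT⟩ k m
  · intro k
    have h1 : ∀ T, 0 ≤ T → ∀ s ≤ T, ∀ t ≤ T, ‖a s k - a t k‖ ≤ LL Cd r H (C6 T) * |s - t| := by
      intro T hT s hs t ht
      have hl0 : 0 ≤ LL Cd r H (C6 T) := by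
        have h2 := hLip T 0 T k ⟨le_rfl, hT⟩ ⟨hT, le_rfl⟩
        by_contra hneg
        have h3 : Tendsto (fun n => ‖Fk η D (A n (max 0 0)) k‖) 𝓕 (𝓝 ‖Fk η D (a 0) k‖) :=
          (hF 0 k).norm
        have h4 : ‖Fk η D (a 0) k‖ ≤ LL Cd r H (C6 T) := le_of_tendsto h3 (by
          filter_upwards [hev T] with n hn
          refine norm_Fk_le hH hD (hC60 T) (fun p => hbe T n hn _ ?_ p) k
          rw [max_self]
          exact ⟨le_rfl, hT⟩)
        exact hneg ((norm_nonneg _).trans h4)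
      rw [← hmax s, ← hmax t]
      refine (hLip T _ _ k ⟨le_max_right _ _, max_le hs hT⟩ ⟨le_max_right _ _, max_le ht hT⟩).trans ?_
      refine mul_le_mul_of_nonneg_left ?_ hl0
      exact abs_max_sub_max_le_abs _ _ _
    rw [continuous_iff_continuousAt]
    intro t
    set T := max t 0 + 1 with hT
    have hT0 : 0 ≤ T := by have := le_max_right t 0; linarith
    have htT : t < T := by have := le_max_left t 0; linarith
    rw [Metric.continuousAt_iff]
    intro ε hε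
    have hl0 : 0 ≤ LL Cd r H (C6 T) := by
      have h2 := h1 T hT0 (T - 1) (by linarith) T le_rfl
      have e : |T - 1 - T| = 1 := by
        rw [show T - 1 - T = -1 by ring, abs_neg, abs_one]
      rw [e, mul_one] at h2
      exact (norm_nonneg _).trans h2
    refine ⟨min (T - t) (ε / (LL Cd r H (C6 T) + 1)), lt_min (by linarith) (by positivity), ?_⟩
    intro s hs
    rw [Real.dist_eq] at hs
    have hs1 := hs.trans_le (min_le_left _ _)
    have hs2 := hs.trans_le (min_le_right _ _)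
    have hsT : s ≤ T := by have := (abs_lt.1 hs1).2; linarith
    rw [dist_eq_norm]
    refine (h1 T hT0 s hsT t htT.le).trans_lt ?_
    rw [lt_div_iff₀ (by positivity)] at hs2
    have h5 := abs_nonneg (s - t)
    calc LL Cd r H (C6 T) * |s - t| ≤ |s - t| * (LL Cd r H (C6 T) + 1) := by
          rw [mul_add, mul_one, mul_comm]; linarith
      _ < ε := hs2
  · intro t ht k hk
    refine hasDerivAt_of_taylor (L := L2 D Cd r H (C6 (t + 1)) k) ?_
    filter_upwards [lt_mem_nhds ht, gt_mem_nhds (lt_add_one t)] with s hs hs2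
    exact hTay (t + 1) s t k hk ⟨hs.le, hs2.le⟩ ⟨ht.le, by linarith⟩

end Pool.Agent.H226.DE
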