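import Pool.Agent.H226.DE.Conv

/-!
The sums which come from the normal form.
-/

open Set Filter Topology
open H459R3.NS Pool.Agent.X96.HT Pool.Agent.X96.DM

namespace Pool.Agent.H226.DE

open Pool.Agent.H226.SW

variable {S : Finset K3} {x : K3 → ℝ} {E : ℝ}

lemma Ad.one_le_mx (h : Ad S x E) {z : K3 × K3} (hz : z ∈ AS S) : 1 ≤ mx z :=
  (h.one_le (mem_AS.1 hz).1.1).trans (le_mx1 z)

/-- the nonlinear term in the first place -/
lemma Ad.typeA (h : Ad S x E) (a c : ℕ) :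
    ∑ z ∈ AS S, kn z.1 ^ (a + c + 3) * cv S x z.1 * (x z.2 * x (z.1 - z.2)) / mx z ^ (c + 2)
      ≤ 864 * 2 ^ (a + 1) * E * XS S x (a + 4) := by
  have h1 : ∀ z ∈ AS S, kn z.1 ^ (a + c + 3) * cv S x z.1 * (x z.2 * x (z.1 - z.2))
      / mx z ^ (c + 2) ≤ kn z.1 ^ (a + 1) * cv S x z.1 * (x z.2 * x (z.1 - z.2)) := by
    intro z hz
    have hm : 0 < mx z := by linarith [h.one_le_mx hz]
    rw [div_le_iff₀ (pow_pos hm _)]
    have e : kn z.1 ^ (a + c + 3) * cv S x z.1 * (x z.2 * x (z.1 - z.2))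
        = (kn z.1 ^ (a + 1) * cv S x z.1 * (x z.2 * x (z.1 - z.2))) * kn z.1 ^ (c + 2) := by ring
    rw [e]
    have h2 : 0 ≤ kn z.1 ^ (a + 1) * cv S x z.1 * (x z.2 * x (z.1 - z.2)) :=
      mul_nonneg (mul_nonneg (pow_nonneg (kn_nonneg _) _) (h.cv_nonneg _))
        (mul_nonneg (h.nonneg _) (h.nonneg _))
    exact mul_le_mul_of_nonneg_left (pow_le_pow_left₀ (kn_nonneg _) (le_mx1 z) _) h2
  refine (Finset.sum_le_sum h1).trans ?_
  refine (AS_le (F := fun z => kn z.1 ^ (a + 1) * cv S x z.1 * (x z.2 * x (z.1 - z.2)))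
    fun z => mul_nonneg (mul_nonneg (pow_nonneg (kn_nonneg _) _) (h.cv_nonneg _))
        (mul_nonneg (h.nonneg _) (h.nonneg _))).trans ?_
  refine le_trans (le_of_eq ?_) (h.sum_cv (a + 1))
  refine Finset.sum_congr rfl fun k _ => ?_
  have e : ∑ p ∈ S, kn k ^ (a + 1) * cv S x k * (x p * x (k - p))
      = kn k ^ (a + 1) * cv S x k * cv S x k := by
    rw [← Finset.mul_sum]
    rfl
  refine Eq.trans e ?_
  ring

lemma Ad.b1a (h : Ad S x E) (a : ℕ) :
    ∑ k ∈ S, ∑ p ∈ S, kn k ^ a * x k ^ 2 * x (k - p) ^ 2 ≤ E * XS S x a := by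
  unfold XS
  rw [Finset.mul_sum]
  refine Finset.sum_le_sum fun k _ => ?_
  rw [← Finset.mul_sum]
  have h1 := h.sq_shift k
  have h2 : 0 ≤ kn k ^ a * x k ^ 2 := mul_nonneg (pow_nonneg (kn_nonneg _) _) (sq_nonneg _)
  calc kn k ^ a * x k ^ 2 * ∑ p ∈ S, x (k - p) ^ 2 ≤ kn k ^ a * x k ^ 2 * E := by gcongr
    _ = _ := by ring

/-- the nonlinear term in the second place, first case -/
lemma Ad.typeB1 (h : Ad S x E) (a c : ℕ) :
    ∑ z ∈ (AS S).filter (fun z => kn z.1 ≤ 2 * kn z.2),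
      kn z.1 ^ (a + c + 2) * x z.1 * (kn z.2 * cv S x z.2) * x (z.1 - z.2) / mx z ^ (c + 2)
      ≤ (1 + 216 * 2 ^ (a + 2 * c) * (864 * 2 ^ (a + 1))) * E * XS S x (a + 4) := by
  classical
  have hE := h.E_nonneg
  have hX := Ad.XS_nonneg (S := S) x (a + 4)
  set α : K3 × K3 → ℝ := fun z => kn z.1 ^ (a + 4) * x z.1 ^ 2 * x (z.1 - z.2) ^ 2 with hα
  set β : K3 × K3 → ℝ := fun z => if kn z.1 ≤ 2 * kn z.2 then
    kn z.1 ^ (a + 2 * c) * (cv S x z.2 ^ 2 / kn z.2 ^ (2 * c + 2)) else 0 with hβ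
  have hα0 : ∀ z, 0 ≤ α z := fun z =>
    mul_nonneg (mul_nonneg (pow_nonneg (kn_nonneg _) _) (sq_nonneg _)) (sq_nonneg _)
  have hβ0 : ∀ z, 0 ≤ β z := fun z => by
    simp only [hβ]
    split_ifs
    · exact mul_nonneg (pow_nonneg (kn_nonneg _) _)
        (div_nonneg (sq_nonneg _) (pow_nonneg (kn_nonneg _) _))
    · exact le_rfl
  have h1 : ∀ z ∈ (AS S).filter (fun z => kn z.1 ≤ 2 * kn z.2),
      kn z.1 ^ (a + c + 2) * x z.1 * (kn z.2 * cv S x z.2) * x (z.1 - z.2) / mx z ^ (c + 2)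
        ≤ (α z + β z) / 2 := by
    intro z hz
    obtain ⟨hz, hc⟩ := Finset.mem_filter.1 hz
    have hp := h.one_le (mem_AS.1 hz).1.2
    have hm : 0 < mx z := by linarith [h.one_le_mx hz]
    refine amgm (hα0 z) (hβ0 z) ?_
    simp only [hα, hβ, if_pos hc]
    have hb : 0 < kn z.2 ^ (2 * c + 2) := by positivity
    have e2 : kn z.1 ^ (a + 4) * x z.1 ^ 2 * x (z.1 - z.2) ^ 2
        * (kn z.1 ^ (a + 2 * c) * (cv S x z.2 ^ 2 / kn z.2 ^ (2 * c + 2)))
        = ((kn z.1 ^ (a + c + 2) * x z.1 * cv S x z.2 * x (z.1 - z.2)) ^ 2)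
          / kn z.2 ^ (2 * c + 2) := by
      rw [mul_div_assoc']
      rw [mul_div_assoc']
      congr 1
      ring
    rw [e2, div_pow, div_le_div_iff₀ (by positivity) hb]
    have e3 : (kn z.1 ^ (a + c + 2) * x z.1 * (kn z.2 * cv S x z.2) * x (z.1 - z.2)) ^ 2
        * kn z.2 ^ (2 * c + 2)
        = (kn z.1 ^ (a + c + 2) * x z.1 * cv S x z.2 * x (z.1 - z.2)) ^ 2
          * kn z.2 ^ (2 * (c + 2)) := by ring
    rw [e3, ← pow_mul, mul_comm (c + 2) 2]
    have := le_mx2 z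
    have := kn_nonneg z.2
    gcongr
  have h2 : ∑ z ∈ (AS S).filter (fun z => kn z.1 ≤ 2 * kn z.2), α z ≤ E * XS S x (a + 4) :=
    (Finset.sum_le_sum_of_subset_of_nonneg (Finset.filter_subset _ _)
      fun z _ _ => hα0 z).trans ((AS_le hα0).trans (h.b1a (a + 4)))
  have h3 : ∑ z ∈ (AS S).filter (fun z => kn z.1 ≤ 2 * kn z.2), β z
      ≤ 216 * 2 ^ (a + 2 * c) * (864 * 2 ^ (a + 1) * E * XS S x (a + 4)) := by
    refine (Finset.sum_le_sum_of_subset_of_nonneg (Finset.filter_subset _ _)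
      fun z _ _ => hβ0 z).trans ((AS_le' hβ0).trans ?_)
    calc ∑ p ∈ S, ∑ k ∈ S, β (k, p)
        = ∑ p ∈ S, (∑ k ∈ S.filter (fun k => kn k ≤ 2 * kn p), kn k ^ (a + 2 * c))
            * (cv S x p ^ 2 / kn p ^ (2 * c + 2)) := by
          refine Finset.sum_congr rfl fun p _ => ?_
          rw [Finset.sum_filter, Finset.sum_mul]
          refine Finset.sum_congr rfl fun k _ => ?_
          simp only [hβ]
          split_ifs <;> simp
      _ ≤ ∑ p ∈ S, (216 * 2 ^ (a + 2 * c) * kn p ^ (a + 2 * c + 3))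
            * (cv S x p ^ 2 / kn p ^ (2 * c + 2)) := by
          refine Finset.sum_le_sum fun p hp => ?_
          refine mul_le_mul_of_nonneg_right (cnt_pow S (h.one_le hp) _)
            (div_nonneg (sq_nonneg _) (pow_nonneg (kn_nonneg _) _))
      _ = 216 * 2 ^ (a + 2 * c) * ∑ p ∈ S, kn p ^ (a + 1) * cv S x p ^ 2 := by
          rw [Finset.mul_sum]
          refine Finset.sum_congr rfl fun p hp => ?_
          have hp0 : kn p ≠ 0 := by linarith [h.one_le hp]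
          field_simp
          ring
      _ ≤ _ := by
          gcongr
          exact h.sum_cv (a + 1)
  refine (Finset.sum_le_sum h1).trans ?_
  rw [← Finset.sum_div, Finset.sum_add_distrib]
  have h4 : 0 ≤ E * XS S x (a + 4) := mul_nonneg hE hX
  have h5 : 0 ≤ 216 * 2 ^ (a + 2 * c) * (864 * 2 ^ (a + 1) * E * XS S x (a + 4)) := by positivity
  calc _ ≤ (E * XS S x (a + 4)
        + 216 * 2 ^ (a + 2 * c) * (864 * 2 ^ (a + 1) * E * XS S x (a + 4))) / 2 := by gcongr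
    _ ≤ E * XS S x (a + 4)
        + 216 * 2 ^ (a + 2 * c) * (864 * 2 ^ (a + 1) * E * XS S x (a + 4)) := by linarith
    _ = _ := by ring

/-- the nonlinear term in the second place, second case -/
lemma Ad.typeB2 (h : Ad S x E) (a c : ℕ) :
    ∑ z ∈ (AS S).filter (fun z => ¬kn z.1 ≤ 2 * kn z.2),
      kn z.1 ^ (a + c + 2) * x z.1 * (kn z.2 * cv S x z.2) * x (z.1 - z.2) / mx z ^ (c + 2)
      ≤ (216 + 216 * 2 ^ a) * E * XS S x (a + 4) := by
  classical
  have hE := h.E_nonneg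
  have hX := Ad.XS_nonneg (S := S) x (a + 4)
  set α : K3 × K3 → ℝ := fun z => if kn z.2 ≤ 2 * kn z.1 then kn z.1 ^ (a + 1) * x z.1 ^ 2 else 0
    with hα
  set β : K3 × K3 → ℝ := fun z => if kn z.2 ≤ 2 * kn z.1 then
    2 ^ a * kn z.1 ^ (a + 1) * x z.1 ^ 2 else 0 with hβ
  have hα0 : ∀ z, 0 ≤ α z := fun z => by
    simp only [hα]
    split_ifs
    · exact mul_nonneg (pow_nonneg (kn_nonneg _) _) (sq_nonneg _)
    · exact le_rfl
  have hβ0 : ∀ z, 0 ≤ β z := fun z => by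
    simp only [hβ]
    split_ifs
    · exact mul_nonneg (mul_nonneg (by positivity) (pow_nonneg (kn_nonneg _) _)) (sq_nonneg _)
    · exact le_rfl
  have h1 : ∀ z ∈ (AS S).filter (fun z => ¬kn z.1 ≤ 2 * kn z.2),
      kn z.1 ^ (a + c + 2) * x z.1 * (kn z.2 * cv S x z.2) * x (z.1 - z.2) / mx z ^ (c + 2)
        ≤ E * ((α z + β (z.1 - z.2, z.2)) / 2) := by
    intro z hz
    obtain ⟨hz, hc⟩ := Finset.mem_filter.1 hz
    rw [not_le] at hc
    have hk := h.one_le (mem_AS.1 hz).1.1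
    have hp := h.one_le (mem_AS.1 hz).1.2
    have hm : 0 < mx z := by linarith [h.one_le_mx hz]
    have hkq := kn_split z.1 z.2
    have c1 : kn z.2 ≤ 2 * kn z.1 := by linarith
    have c2 : kn z.2 ≤ 2 * kn (z.1 - z.2) := by linarith
    have hx1 := h.nonneg z.1
    have hx2 := h.nonneg (z.1 - z.2)
    simp only [hα, hβ, if_pos c1, if_pos c2]
    have h2 : kn z.1 ^ (a + c + 2) * x z.1 * (kn z.2 * cv S x z.2) * x (z.1 - z.2)
        / mx z ^ (c + 2) ≤ kn z.1 ^ a * kn z.2 * E * (x z.1 * x (z.1 - z.2)) := by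
      rw [div_le_iff₀ (pow_pos hm _)]
      calc kn z.1 ^ (a + c + 2) * x z.1 * (kn z.2 * cv S x z.2) * x (z.1 - z.2)
          = (kn z.1 ^ a * kn z.2 * cv S x z.2 * (x z.1 * x (z.1 - z.2))) * kn z.1 ^ (c + 2) := by
            ring
        _ ≤ (kn z.1 ^ a * kn z.2 * E * (x z.1 * x (z.1 - z.2))) * mx z ^ (c + 2) := by
            have := h.cv_le z.2
            have := h.cv_nonneg z.2
            have := le_mx1 z
            gcongr
    refine h2.trans ?_
    have h3 : kn z.1 ^ a * kn z.2 * (x z.1 * x (z.1 - z.2))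
        ≤ (kn z.1 ^ a * kn z.2 * x z.1 ^ 2 + kn z.1 ^ a * kn z.2 * x (z.1 - z.2) ^ 2) / 2 := by
      have h4 := two_mul_le_add_sq (x z.1) (x (z.1 - z.2))
      have h5 : 0 ≤ kn z.1 ^ a * kn z.2 := by positivity
      calc kn z.1 ^ a * kn z.2 * (x z.1 * x (z.1 - z.2))
          ≤ kn z.1 ^ a * kn z.2 * ((x z.1 ^ 2 + x (z.1 - z.2) ^ 2) / 2) := by
            gcongr
            linarith
        _ = _ := by ring
    have c3 : kn z.2 ≤ kn z.1 := by linarith
    have c4 : kn z.2 ≤ kn (z.1 - z.2) := by linarith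
    have hq0 := kn_nonneg (z.1 - z.2)
    have h6 : kn z.1 ^ a * kn z.2 * x z.1 ^ 2 ≤ kn z.1 ^ (a + 1) * x z.1 ^ 2 := by
      calc kn z.1 ^ a * kn z.2 * x z.1 ^ 2 ≤ kn z.1 ^ a * kn z.1 * x z.1 ^ 2 := by gcongr
        _ = _ := by ring
    have h7 : kn z.1 ^ a * kn z.2 * x (z.1 - z.2) ^ 2
        ≤ 2 ^ a * kn (z.1 - z.2) ^ (a + 1) * x (z.1 - z.2) ^ 2 := by
      have h8 : kn z.1 ^ a ≤ (2 * kn (z.1 - z.2)) ^ a :=
        pow_le_pow_left₀ (by linarith) (by linarith) a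
      calc kn z.1 ^ a * kn z.2 * x (z.1 - z.2) ^ 2
          ≤ (2 * kn (z.1 - z.2)) ^ a * kn (z.1 - z.2) * x (z.1 - z.2) ^ 2 := by gcongr
        _ = _ := by ring
    calc kn z.1 ^ a * kn z.2 * E * (x z.1 * x (z.1 - z.2))
        = E * (kn z.1 ^ a * kn z.2 * (x z.1 * x (z.1 - z.2))) := by ring
      _ ≤ E * ((kn z.1 ^ (a + 1) * x z.1 ^ 2
          + 2 ^ a * kn (z.1 - z.2) ^ (a + 1) * x (z.1 - z.2) ^ 2) / 2) := by
          gcongr
          linarith
  have key : ∀ C : ℝ, 0 ≤ C → ∑ k ∈ S, ∑ p ∈ S, (if kn p ≤ 2 * kn k then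
      C * kn k ^ (a + 1) * x k ^ 2 else 0) ≤ 216 * C * XS S x (a + 4) := by
    intro C hC
    unfold XS
    rw [Finset.mul_sum]
    refine Finset.sum_le_sum fun k hk => ?_
    rw [← Finset.sum_filter, Finset.sum_const, nsmul_eq_mul]
    have h4 := cnt S (h.one_le hk)
    have := kn_nonneg k
    calc ((S.filter fun p => kn p ≤ 2 * kn k).card : ℝ) * (C * kn k ^ (a + 1) * x k ^ 2)
        ≤ (216 * kn k ^ 3) * (C * kn k ^ (a + 1) * x k ^ 2) := by gcongr
      _ = _ := by ring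
  have h2 : ∑ z ∈ (AS S).filter (fun z => ¬kn z.1 ≤ 2 * kn z.2), α z
      ≤ 216 * 1 * XS S x (a + 4) := by
    refine (Finset.sum_le_sum_of_subset_of_nonneg (Finset.filter_subset _ _)
      fun z _ _ => hα0 z).trans ((AS_le hα0).trans ?_)
    refine le_trans (le_of_eq ?_) (key 1 zero_le_one)
    simp only [hα, one_mul]
  have h3 : ∑ z ∈ (AS S).filter (fun z => ¬kn z.1 ≤ 2 * kn z.2), β (z.1 - z.2, z.2)
      ≤ 216 * 2 ^ a * XS S x (a + 4) := by
    refine (Finset.sum_le_sum_of_subset_of_nonneg (Finset.filter_subset _ _)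
      fun z _ _ => hβ0 (z.1 - z.2, z.2)).trans
      ((AS_le' (F := fun z => β (z.1 - z.2, z.2)) fun z => hβ0 _).trans ?_)
    refine le_trans ?_ (key (2 ^ a) (by positivity))
    rw [Finset.sum_comm (s := S) (t := S) (f := fun k p => if kn p ≤ 2 * kn k then
      2 ^ a * kn k ^ (a + 1) * x k ^ 2 else 0)]
    refine Finset.sum_le_sum fun p _ => ?_
    exact sum_shift' (g := fun q => β (q, p)) (fun q => hβ0 _) (fun q hq => by
      simp [hβ, h.supp q hq]) p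
  refine (Finset.sum_le_sum h1).trans ?_
  rw [← Finset.mul_sum, ← Finset.sum_div, Finset.sum_add_distrib]
  calc _ ≤ E * ((216 * 1 * XS S x (a + 4) + 216 * 2 ^ a * XS S x (a + 4)) / 2) := by gcongr
    _ ≤ E * (216 * 1 * XS S x (a + 4) + 216 * 2 ^ a * XS S x (a + 4)) := by
        have h4 : 0 ≤ 216 * 1 * XS S x (a + 4) + 216 * 2 ^ a * XS S x (a + 4) := by positivity
        gcongr
        linarith
    _ = _ := by ring

/-- the nonlinear term in the second place -/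
lemma Ad.typeB (h : Ad S x E) (a c : ℕ) :
    ∑ z ∈ AS S, kn z.1 ^ (a + c + 2) * x z.1 * (kn z.2 * cv S x z.2) * x (z.1 - z.2)
        / mx z ^ (c + 2)
      ≤ ((1 + 216 * 2 ^ (a + 2 * c) * (864 * 2 ^ (a + 1))) + (216 + 216 * 2 ^ a)) * E
        * XS S x (a + 4) := by
  classical
  rw [← Finset.sum_filter_add_sum_filter_not (AS S) (fun z => kn z.1 ≤ 2 * kn z.2)]
  have h1 := h.typeB1 a c
  have h2 := h.typeB2 a c
  calc _ ≤ _ := add_le_add h1 h2
    _ = _ := by ring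

/-- the nonlinear term in the third place -/
lemma Ad.typeC (h : Ad S x E) (a c : ℕ) :
    ∑ z ∈ AS S, kn z.1 ^ (a + c + 2) * x z.1 * x z.2 * (kn (z.1 - z.2) * cv S x (z.1 - z.2))
        / mx z ^ (c + 2)
      ≤ ((1 + 216 * 2 ^ (a + 2 * c) * (864 * 2 ^ (a + 1))) + (216 + 216 * 2 ^ a)) * E
        * XS S x (a + 4) := by
  refine le_trans (le_of_eq ?_) (h.typeB a c)
  rw [← AS_swap]
  refine Finset.sum_congr rfl fun z _ => ?_
  simp only [sub_sub_cancel, mx_swap]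
  rw [show mx (z.1, z.2) = mx z from rfl]
  ring

/-- the correction -/
lemma Ad.corr (h : Ad S x E) (s : ℕ) :
    ∑ z ∈ AS S, kn z.1 ^ (2 * s + 1) * x z.1 * x z.2 * x (z.1 - z.2) / mx z ^ 3
      ≤ (E + 216 * 2 ^ (2 * s + 2)) * XS S x (2 * s) := by
  classical
  have hE := h.E_nonneg
  have hX := Ad.XS_nonneg (S := S) x (2 * s)
  set f : K3 × K3 → ℝ := fun z =>
    kn z.1 ^ (2 * s + 1) * x z.1 * x z.2 * x (z.1 - z.2) / mx z ^ 3 with hf
  set α : K3 × K3 → ℝ := fun z => kn z.1 ^ (2 * s) * x z.1 ^ 2 * x (z.1 - z.2) ^ 2 with hα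
  set β : K3 × K3 → ℝ := fun z => if kn z.1 ≤ 2 * kn z.2 then
    kn z.1 ^ (2 * s + 2) * (x z.2 ^ 2 / kn z.2 ^ 6) else 0 with hβ
  have hα0 : ∀ z, 0 ≤ α z := fun z =>
    mul_nonneg (mul_nonneg (pow_nonneg (kn_nonneg _) _) (sq_nonneg _)) (sq_nonneg _)
  have hβ0 : ∀ z, 0 ≤ β z := fun z => by
    simp only [hβ]
    split_ifs
    · exact mul_nonneg (pow_nonneg (kn_nonneg _) _)
        (div_nonneg (sq_nonneg _) (pow_nonneg (kn_nonneg _) _))
    · exact le_rfl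
  have hf0 : ∀ z, 0 ≤ f z := fun z => by
    have := h.nonneg z.1
    have := h.nonneg z.2
    have := h.nonneg (z.1 - z.2)
    have := kn_nonneg z.1
    have h1 : 0 ≤ mx z := (kn_nonneg _).trans (le_mx1 z)
    simp only [hf]
    positivity
  have h1 : ∀ z ∈ (AS S).filter (fun z => kn z.1 ≤ 2 * kn z.2), f z ≤ (α z + β z) / 2 := by
    intro z hz
    obtain ⟨hz, hc⟩ := Finset.mem_filter.1 hz
    have hp := h.one_le (mem_AS.1 hz).1.2
    have hm : 0 < mx z := by linarith [h.one_le_mx hz]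
    refine amgm (hα0 z) (hβ0 z) ?_
    simp only [hf, hα, hβ, if_pos hc]
    have hb : 0 < kn z.2 ^ 6 := by positivity
    have e2 : kn z.1 ^ (2 * s) * x z.1 ^ 2 * x (z.1 - z.2) ^ 2
        * (kn z.1 ^ (2 * s + 2) * (x z.2 ^ 2 / kn z.2 ^ 6))
        = ((kn z.1 ^ (2 * s + 1) * x z.1 * x z.2 * x (z.1 - z.2)) ^ 2) / kn z.2 ^ 6 := by
      rw [mul_div_assoc']
      rw [mul_div_assoc']
      congr 1
      ring
    rw [e2, div_pow]
    refine div_le_div_of_nonneg_left (sq_nonneg _) hb ?_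
    rw [← pow_mul]
    exact pow_le_pow_left₀ (kn_nonneg _) (le_mx2 z) 6
  have h2 : ∑ z ∈ (AS S).filter (fun z => kn z.1 ≤ 2 * kn z.2), α z ≤ E * XS S x (2 * s) :=
    (Finset.sum_le_sum_of_subset_of_nonneg (Finset.filter_subset _ _)
      fun z _ _ => hα0 z).trans ((AS_le hα0).trans (h.b1a (2 * s)))
  have h3 : ∑ z ∈ (AS S).filter (fun z => kn z.1 ≤ 2 * kn z.2), β z
      ≤ 216 * 2 ^ (2 * s + 2) * XS S x (2 * s) := by
    refine (Finset.sum_le_sum_of_subset_of_nonneg (Finset.filter_subset _ _)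
      fun z _ _ => hβ0 z).trans ((AS_le' hβ0).trans ?_)
    calc ∑ p ∈ S, ∑ k ∈ S, β (k, p)
        = ∑ p ∈ S, (∑ k ∈ S.filter (fun k => kn k ≤ 2 * kn p), kn k ^ (2 * s + 2))
            * (x p ^ 2 / kn p ^ 6) := by
          refine Finset.sum_congr rfl fun p _ => ?_
          rw [Finset.sum_filter, Finset.sum_mul]
          refine Finset.sum_congr rfl fun k _ => ?_
          simp only [hβ]
          split_ifs <;> simp
      _ ≤ ∑ p ∈ S, (216 * 2 ^ (2 * s + 2) * kn p ^ (2 * s + 2 + 3)) * (x p ^ 2 / kn p ^ 6) := by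
          refine Finset.sum_le_sum fun p hp => ?_
          refine mul_le_mul_of_nonneg_right (cnt_pow S (h.one_le hp) _)
            (div_nonneg (sq_nonneg _) (pow_nonneg (kn_nonneg _) _))
      _ ≤ ∑ p ∈ S, 216 * 2 ^ (2 * s + 2) * (kn p ^ (2 * s) * x p ^ 2) := by
          refine Finset.sum_le_sum fun p hp => ?_
          have hp1 := h.one_le hp
          rw [mul_div_assoc', div_le_iff₀ (by positivity)]
          have h5 : kn p ^ (2 * s + 2 + 3) ≤ kn p ^ (2 * s + 6) :=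
            pow_le_pow_right₀ hp1 (by omega)
          calc 216 * 2 ^ (2 * s + 2) * kn p ^ (2 * s + 2 + 3) * x p ^ 2
              ≤ 216 * 2 ^ (2 * s + 2) * kn p ^ (2 * s + 6) * x p ^ 2 := by gcongr
            _ = _ := by ring
      _ = _ := by
          unfold XS
          rw [Finset.mul_sum]
  have h4 : ∑ z ∈ (AS S).filter (fun z => kn z.1 ≤ 2 * kn z.2), f z
      ≤ (E * XS S x (2 * s) + 216 * 2 ^ (2 * s + 2) * XS S x (2 * s)) / 2 := by
    refine (Finset.sum_le_sum h1).trans ?_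
    rw [← Finset.sum_div, Finset.sum_add_distrib]
    gcongr
  -- the symmetric half
  have h5 : ∑ z ∈ AS S, f z ≤ ∑ z ∈ (AS S).filter (fun z => kn z.1 ≤ 2 * kn z.2), f z
      + ∑ z ∈ (AS S).filter (fun z => kn z.1 ≤ 2 * kn (z.1 - z.2)), f z := by
    rw [Finset.sum_filter, Finset.sum_filter, ← Finset.sum_add_distrib]
    refine Finset.sum_le_sum fun z _ => ?_
    have h6 := kn_split z.1 z.2
    have h7 := hf0 z
    by_cases c : kn z.1 ≤ 2 * kn z.2
    · rw [if_pos c]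
      split_ifs <;> linarith
    · rw [if_neg c, if_pos (by push Not at c; linarith), zero_add]
  have h8 : ∑ z ∈ (AS S).filter (fun z => kn z.1 ≤ 2 * kn (z.1 - z.2)), f z
      = ∑ z ∈ (AS S).filter (fun z => kn z.1 ≤ 2 * kn z.2), f z := by
    rw [Finset.sum_filter, Finset.sum_filter, ← AS_swap]
    refine Finset.sum_congr rfl fun z _ => ?_
    simp only [sub_sub_cancel]
    have e : f (z.1, z.1 - z.2) = f z := by
      simp only [hf, sub_sub_cancel, mx_swap]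
      rw [show mx (z.1, z.2) = mx z from rfl]
      ring
    rw [e]
  rw [h8] at h5
  calc ∑ z ∈ AS S, f z ≤ _ := h5
    _ ≤ (E * XS S x (2 * s) + 216 * 2 ^ (2 * s + 2) * XS S x (2 * s)) / 2
        + (E * XS S x (2 * s) + 216 * 2 ^ (2 * s + 2) * XS S x (2 * s)) / 2 := by gcongr
    _ = _ := by ring

end Pool.Agent.H226.DE
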