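import Pool.Agent.H226.DE.Gal
import Pool.Agent.H226.DE.Quart

/-!
The normal form.
-/

open MeasureTheory Set Filter Topology
open scoped ENNReal InnerProductSpace NNReal
open H459R3.NS Pool.Agent.X96.HT Pool.Agent.X96.DM

namespace Pool.Agent.H226.DE

open Pool.Agent.H226.SW hiding Fk Fk_apply

variable {η : Md → Md → Md → ℝ} {D : K3 → ℂ} {S : Finset K3} {H : ℝ}

/-- the trilinear form of a pair of frequencies -/
noncomputable def tg (η : Md → Md → Md → ℝ) (z : K3 × K3) (a b c : C3) : ℂ :=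
  ∑ i, (starRingEnd ℂ) (a i) * bil η z.1 z.2 (z.1 - z.2) b c i

/-- the denominator -/
noncomputable def Zc (D : K3 → ℂ) (z : K3 × K3) : ℂ :=
  (starRingEnd ℂ) (D z.1) + D z.2 + D (z.1 - z.2)

/-- the trilinear form at the field -/
noncomputable def tu (η : Md → Md → Md → ℝ) (U : K3 → C3) (z : K3 × K3) : ℂ :=
  tg η z (U z.1) (U z.2) (U (z.1 - z.2))

/-- the quartic form -/
noncomputable def qu (η : Md → Md → Md → ℝ) (U : K3 → C3) (z : K3 × K3) : ℂ :=
  tg η z (nonl η U z.1) (U z.2) (U (z.1 - z.2)) + tg η z (U z.1) (nonl η U z.2) (U (z.1 - z.2))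
    + tg η z (U z.1) (U z.2) (nonl η U (z.1 - z.2))

lemma norm_tg_le (hH : ∀ a b c, |η a b c| ≤ H) (z : K3 × K3) (a b c : C3) :
    ‖tg η z a b c‖ ≤ 3 * cB H * kn z.1 * (‖a‖ * ‖b‖ * ‖c‖) := by
  unfold tg
  refine (norm_sum_le _ _).trans ?_
  calc ∑ i, ‖(starRingEnd ℂ) (a i) * bil η z.1 z.2 (z.1 - z.2) b c i‖
      ≤ ∑ _i : Fin 3, ‖a‖ * (cB H * kn z.1 * (‖b‖ * ‖c‖)) := by
        refine Finset.sum_le_sum fun i _ => ?_
        rw [norm_mul, RCLike.norm_conj]
        gcongr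
        · exact norm_le_pi_norm a i
        · exact (norm_le_pi_norm _ i).trans (norm_bil_le hH (by abel) b c)
    _ = _ := by
        rw [Finset.sum_const, Finset.card_univ, Fintype.card_fin, nsmul_eq_mul]
        push_cast
        ring

lemma bil_bilinear (hH : ∀ a b c, |η a b c| ≤ H) {k p q : K3} (h : p + q = k) :
    IsBoundedBilinearMap ℝ fun x : C3 × C3 => bil η k p q x.1 x.2 where
  add_left x y z := bil_add_left η k p q x y z
  smul_left r x y := by
    have := bil_smul_left η k p q (r : ℂ) x y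
    simpa using this
  add_right x y z := bil_add_right η k p q x y z
  smul_right r x y := by
    have := bil_smul_right η k p q (r : ℂ) x y
    simpa using this
  bound := by
    have hH0 : 0 ≤ H := (abs_nonneg _).trans (hH (k, true) (p, true) (q, true))
    have h1 := cB_nonneg hH0
    have h2 := kn_nonneg k
    refine ⟨cB H * kn k + 1, by positivity, fun x y => ?_⟩
    refine (norm_bil_le hH h x y).trans ?_
    have : 0 ≤ ‖x‖ * ‖y‖ := by positivity
    calc cB H * kn k * (‖x‖ * ‖y‖) ≤ (cB H * kn k + 1) * (‖x‖ * ‖y‖) := by gcongr; linarith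
      _ = _ := by ring

lemma bil_deriv (hH : ∀ a b c, |η a b c| ≤ H) {k p q : K3} (h : p + q = k) {f g : ℝ → C3}
    {f' g' : C3} {I : Set ℝ} {t : ℝ} (hf : HasDerivWithinAt f f' I t)
    (hg : HasDerivWithinAt g g' I t) :
    HasDerivWithinAt (fun s => bil η k p q (f s) (g s))
      (bil η k p q f' (g t) + bil η k p q (f t) g') I t := by
  have h1 := (bil_bilinear (η := η) hH h).hasFDerivAt (f t, g t)
  have h2 := h1.comp_hasDerivWithinAt t (hf.prodMk hg)
  refine h2.congr_deriv ?_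
  rw [IsBoundedBilinearMap.deriv_apply]
  exact add_comm _ _

lemma GalC.vec {T : ℝ} {a : ℝ → K3 → C3} (h : GalC η D T S a) {t : ℝ} (ht : t ∈ Icc 0 T)
    {k : K3} (hk : k ∈ S) :
    HasDerivWithinAt (fun s => a s k) (-(D k) • a t k - nonl η (a t) k) (Icc 0 T) t :=
  hasDerivWithinAt_pi.2 fun i => h.deriv t ht k hk i

/-- the derivative of the trilinear form along a solution -/
lemma GalC.tu_deriv (hH : ∀ a b c, |η a b c| ≤ H) {T : ℝ} {a : ℝ → K3 → C3}
    (h : GalC η D T S a) {t : ℝ} (ht : t ∈ Icc 0 T) {z : K3 × K3} (hz : z ∈ AS S) :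
    HasDerivWithinAt (fun s => tu η (a s) z) (-Zc D z * tu η (a t) z - qu η (a t) z)
      (Icc 0 T) t := by
  obtain ⟨⟨hk, hp⟩, hq⟩ := mem_AS.1 hz
  have h1 := h.vec ht hk
  have h2 := bil_deriv (η := η) (k := z.1) (p := z.2) (q := z.1 - z.2) hH (by abel)
    (h.vec ht hp) (h.vec ht hq)
  have h3 : ∀ i, HasDerivWithinAt (fun s => (starRingEnd ℂ) (a s z.1 i))
      ((starRingEnd ℂ) ((-(D z.1) • a t z.1 - nonl η (a t) z.1) i)) (Icc 0 T) t := fun i =>
    ((hasDerivWithinAt_pi.1 h1) i).star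
  have h4 : ∀ i, HasDerivWithinAt (fun s => bil η z.1 z.2 (z.1 - z.2) (a s z.2) (a s (z.1 - z.2)) i)
      ((bil η z.1 z.2 (z.1 - z.2) (-(D z.2) • a t z.2 - nonl η (a t) z.2) (a t (z.1 - z.2))
        + bil η z.1 z.2 (z.1 - z.2) (a t z.2)
          (-(D (z.1 - z.2)) • a t (z.1 - z.2) - nonl η (a t) (z.1 - z.2))) i) (Icc 0 T) t :=
    fun i => (hasDerivWithinAt_pi.1 h2) i
  have h5 := HasDerivWithinAt.fun_sum (u := Finset.univ) fun i _ => (h3 i).mul (h4 i)
  refine h5.congr_deriv ?_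
  unfold qu tu tg Zc
  rw [← Finset.sum_add_distrib, ← Finset.sum_add_distrib, Finset.mul_sum,
    ← Finset.sum_sub_distrib]
  refine Finset.sum_congr rfl fun i _ => ?_
  rw [bil_sub_left, bil_sub_right, bil_smul_left, bil_smul_right]
  simp only [Pi.sub_apply, Pi.smul_apply, smul_eq_mul, Pi.add_apply, map_sub, map_mul, map_neg]
  ring

/-- the correction -/
noncomputable def gc (η : Md → Md → Md → ℝ) (D : K3 → ℂ) (P : Finset (K3 × K3)) (w : K3 → ℝ)
    (U : K3 → C3) : ℝ := ∑ z ∈ P, w z.1 * (tu η U z / Zc D z).re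

lemma GalC.gc_deriv (hH : ∀ a b c, |η a b c| ≤ H) {T : ℝ} {a : ℝ → K3 → C3}
    (h : GalC η D T S a) {t : ℝ} (ht : t ∈ Icc 0 T) {P : Finset (K3 × K3)} (hP : P ⊆ AS S)
    (hZ : ∀ z ∈ P, Zc D z ≠ 0) (w : K3 → ℝ) :
    HasDerivWithinAt (fun s => gc η D P w (a s))
      (-(∑ z ∈ P, w z.1 * (tu η (a t) z).re) - ∑ z ∈ P, w z.1 * (qu η (a t) z / Zc D z).re)
      (Icc 0 T) t := by
  unfold gc
  rw [← Finset.sum_neg_distrib, ← Finset.sum_sub_distrib]
  refine HasDerivWithinAt.fun_sum fun z hz => ?_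
  have h1 := (h.tu_deriv hH ht (hP hz)).div_const (Zc D z)
  have h2 : HasDerivWithinAt (fun s => (tu η (a s) z / Zc D z).re)
      (((-Zc D z * tu η (a t) z - qu η (a t) z) / Zc D z).re) (Icc 0 T) t :=
    (Complex.reCLM.hasFDerivAt.comp_hasDerivWithinAt t h1)
  refine (h2.const_mul (w z.1)).congr_deriv ?_
  have h3 := hZ z hz
  have e : (-Zc D z * tu η (a t) z - qu η (a t) z) / Zc D z
      = -tu η (a t) z - qu η (a t) z / Zc D z := by
    field_simp
  rw [e, Complex.sub_re, Complex.neg_re]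
  ring

lemma nonl_sum {U : K3 → C3} (hS : ∀ k ∉ S, U k = 0) (k : K3) :
    nonl η U k = ∑ p ∈ S, bil η k p (k - p) (U p) (U (k - p)) := by
  unfold nonl
  refine tsum_eq_sum fun p hp => ?_
  rw [hS p hp]
  have := bil_smul_left η k p (k - p) 0 0 (U (k - p))
  simpa using this

lemma sum_pair {U : K3 → C3} (hS : ∀ k ∉ S, U k = 0) (w : K3 → ℝ) :
    ∑ k ∈ S, w k * (∑ i, (starRingEnd ℂ) (U k i) * nonl η U k i).re
      = ∑ z ∈ AS S, w z.1 * (tu η U z).re := by
  classical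
  unfold AS
  rw [Finset.sum_filter, Finset.sum_product]
  refine Finset.sum_congr rfl fun k _ => ?_
  have e : ∑ i, (starRingEnd ℂ) (U k i) * nonl η U k i
      = ∑ p ∈ S, tu η U (k, p) := by
    rw [nonl_sum hS]
    unfold tu tg
    rw [Finset.sum_comm]
    refine Finset.sum_congr rfl fun i _ => ?_
    rw [Finset.sum_apply, Finset.mul_sum]
  rw [e, Complex.re_sum, Finset.mul_sum]
  refine Finset.sum_congr rfl fun p _ => ?_
  split_ifs with hq
  · rfl
  · have h0 : U (k - p) = 0 := hS _ hq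
    have h1 : tu η U (k, p) = 0 := by
      unfold tu tg
      simp only [h0]
      have := bil_smul_right η k p (k - p) 0 (U p) 0
      rw [smul_zero, zero_smul] at this
      simp [this]
    rw [h1]
    simp

lemma GalC.nw_deriv' {T : ℝ} {a : ℝ → K3 → C3} (h : GalC η D T S a) (w : K3 → ℝ) {t : ℝ}
    (ht : t ∈ Icc 0 T) :
    HasDerivWithinAt (fun s => nw S w (a s))
      (-(2 * nw S (fun k => w k * (D k).re) (a t)) - 2 * ∑ z ∈ AS S, w z.1 * (tu η (a t) z).re)
      (Icc 0 T) t := by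
  have h2 : ∀ k ∈ S, ∀ i, HasDerivWithinAt (fun s => ‖a s k i‖ ^ 2)
      (-(2 * (D k).re * ‖a t k i‖ ^ 2)
        - 2 * ((starRingEnd ℂ) (a t k i) * nonl η (a t) k i).re) (Icc 0 T) t := by
    intro k hk i
    refine (h.deriv t ht k hk i).norm_sq.congr_deriv ?_
    rw [Complex.inner, ← Complex.normSq_eq_norm_sq, Complex.normSq_apply]
    simp only [Complex.mul_re, Complex.sub_re, Complex.sub_im, Complex.neg_re, Complex.neg_im,
      Complex.conj_re, Complex.conj_im, Complex.mul_im]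
    ring
  have h3 : HasDerivWithinAt (fun s => ∑ k ∈ S, w k * ∑ i, ‖a s k i‖ ^ 2)
      (∑ k ∈ S, w k * ∑ i, (-(2 * (D k).re * ‖a t k i‖ ^ 2)
        - 2 * ((starRingEnd ℂ) (a t k i) * nonl η (a t) k i).re)) (Icc 0 T) t :=
    HasDerivWithinAt.fun_sum fun k hk =>
      (HasDerivWithinAt.fun_sum fun i _ => h2 k hk i).const_mul _
  refine h3.congr_deriv ?_
  rw [← sum_pair (h.supp t)]
  unfold nw
  rw [Finset.mul_sum, Finset.mul_sum, ← Finset.sum_neg_distrib, ← Finset.sum_sub_distrib]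
  refine Finset.sum_congr rfl fun k _ => ?_
  rw [Finset.sum_sub_distrib, ← Finset.mul_sum, Finset.sum_neg_distrib, ← Finset.mul_sum,
    Complex.re_sum]
  ring

/-- the modified weighted norm -/
theorem GalC.mod_deriv (hH : ∀ a b c, |η a b c| ≤ H) {T : ℝ} {a : ℝ → K3 → C3}
    (h : GalC η D T S a) {t : ℝ} (ht : t ∈ Icc 0 T) {P : Finset (K3 × K3)} (hP : P ⊆ AS S)
    (hZ : ∀ z ∈ P, Zc D z ≠ 0) (w : K3 → ℝ) :
    HasDerivWithinAt (fun s => nw S w (a s) - 2 * gc η D P w (a s))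
      (-(2 * nw S (fun k => w k * (D k).re) (a t))
        - 2 * ∑ z ∈ AS S \ P, w z.1 * (tu η (a t) z).re
        + 2 * ∑ z ∈ P, w z.1 * (qu η (a t) z / Zc D z).re) (Icc 0 T) t := by
  refine ((h.nw_deriv' w ht).sub ((h.gc_deriv hH ht hP hZ w).const_mul 2)).congr_deriv ?_
  rw [← Finset.sum_sdiff hP]
  ring

end Pool.Agent.H226.DE
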