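import Pool.Agent.H226.DE.AprE

/-!
The near resonant triads, with dissipation.
-/

open MeasureTheory Set Filter Topology
open scoped ENNReal InnerProductSpace NNReal
open H459R3.NS Pool.Agent.X96.HT Pool.Agent.X96.DM

namespace Pool.Agent.H226.DE

open Pool.Agent.H226.SW hiding Fk Fk_apply

variable {S : Finset K3} {x : K3 → ℝ} {E : ℝ}

/-- at most `C M ^ 2` frequencies of length at most `M` are related to a given one -/
def Few (NR : K3 → K3 → Prop) (C : ℝ) : Prop := ∀ (F : Finset K3) (L : K3), L ≠ 0 → ∀ M : ℝ,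
  1 ≤ M → (∀ m ∈ F, kn m ≤ M ∧ NR L m) → (F.card : ℝ) ≤ C * M ^ 2

open Classical in
/-- the short related frequencies -/
noncomputable def NL (S : Finset K3) (NR : K3 → K3 → Prop) (L : K3) : Finset K3 :=
  S.filter fun m => NR L m ∧ kn m ≤ kn L ∧ kn m ≤ kn (L - m)

lemma mem_NL {NR : K3 → K3 → Prop} {L m : K3} :
    m ∈ NL S NR L ↔ m ∈ S ∧ NR L m ∧ kn m ≤ kn L ∧ kn m ≤ kn (L - m) := by
  classical
  unfold NL
  rw [Finset.mem_filter]

lemma kn_le_two {L m : K3} (h : kn m ≤ kn (L - m)) : kn L ≤ 2 * kn (L - m) := by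
  have := kn_split L m
  linarith

lemma Ad.dbl (h : Ad S x E) (a : ℕ) (b : ℕ) :
    ∑ L ∈ S, ∑ m ∈ S, kn (L - m) ^ a * x (L - m) ^ 2 * (kn m ^ b * x m ^ 2)
      ≤ XS S x b * XS S x a := by
  rw [Finset.sum_comm]
  unfold XS
  rw [Finset.sum_mul]
  refine Finset.sum_le_sum fun m _ => ?_
  rw [← Finset.sum_mul, mul_comm]
  have h1 := sum_shift' (S := S) (g := fun k => kn k ^ a * x k ^ 2)
    (fun k => mul_nonneg (pow_nonneg (kn_nonneg k) _) (sq_nonneg _))
    (fun k hk => by simp [h.supp k hk]) m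
  have h2 : 0 ≤ kn m ^ b * x m ^ 2 := mul_nonneg (pow_nonneg (kn_nonneg m) _) (sq_nonneg _)
  exact mul_le_mul_of_nonneg_left h1 h2

theorem Ad.near (h : Ad S x E) {NR : K3 → K3 → Prop} {C : ℝ} (hF : Few NR C) (hC : 1 ≤ C) (s : ℕ)
    {ρ θ : ℝ} (hρ : 0 < ρ) (hθ : 0 < θ) :
    ∑ L ∈ S, kn L ^ (2 * s + 1) * x L * ∑ m ∈ NL S NR L, x m * x (L - m)
      ≤ (ρ * C * (1 + 4 ^ (s + 1) * E) / 2 + θ / 2) * XS S x (2 * s + 2)
        + C * 4 ^ s / (2 * θ * ρ ^ 2) * (XS S x 2 * XS S x (2 * s)) := by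
  classical
  have hE := h.E_nonneg
  have hC0 : 0 < C := by linarith
  set N1 : K3 → Finset K3 := fun L => (NL S NR L).filter fun m => kn m ≤ ρ * kn L with hN1
  set N2 : K3 → Finset K3 := fun L => (NL S NR L).filter fun m => ¬ kn m ≤ ρ * kn L with hN2
  have hsplit : ∀ L, ∑ m ∈ NL S NR L, x m * x (L - m)
      = ∑ m ∈ N1 L, x m * x (L - m) + ∑ m ∈ N2 L, x m * x (L - m) := fun L =>
    (Finset.sum_filter_add_sum_filter_not _ _ _).symm
  set b1 : K3 → ℝ := fun L => kn L ^ (2 * s + 2) * ∑ m ∈ N1 L, (x m * x (L - m)) ^ 2 with hb1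
  set b2 : K3 → ℝ := fun L => kn L ^ (2 * s + 2) * ∑ m ∈ N2 L, (x m * x (L - m)) ^ 2 with hb2
  have hb1n : ∀ L, 0 ≤ b1 L := fun L => mul_nonneg (pow_nonneg (kn_nonneg L) _)
    (Finset.sum_nonneg fun m _ => sq_nonneg _)
  have hb2n : ∀ L, 0 ≤ b2 L := fun L => mul_nonneg (pow_nonneg (kn_nonneg L) _)
    (Finset.sum_nonneg fun m _ => sq_nonneg _)
  have hc1 : ∀ L ∈ S, ((N1 L).card : ℝ) ≤ C * (ρ * kn L) ^ 2 := by
    intro L hL
    rcases (N1 L).eq_empty_or_nonempty with he | ⟨m, hm⟩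
    · rw [he]; simp only [Finset.card_empty, Nat.cast_zero]; positivity
    · have hm1 := Finset.mem_filter.1 hm
      have hm2 := mem_NL.1 hm1.1
      refine hF (N1 L) L (fun e => h.zero (e ▸ hL)) (ρ * kn L) ((h.one_le hm2.1).trans hm1.2)
        fun m' hm' => ?_
      have hm1' := Finset.mem_filter.1 hm'
      exact ⟨hm1'.2, (mem_NL.1 hm1'.1).2.1⟩
  have hc2 : ∀ L ∈ S, ((N2 L).card : ℝ) ≤ C * kn L ^ 2 := by
    intro L hL
    refine hF (N2 L) L (fun e => h.zero (e ▸ hL)) (kn L) (h.one_le hL) fun m' hm' => ?_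
    have hm1' := Finset.mem_filter.1 hm'
    exact ⟨(mem_NL.1 hm1'.1).2.2.1, (mem_NL.1 hm1'.1).2.1⟩
  have hz1 : ∀ L ∈ S, kn L ^ (2 * s + 1) * x L * ∑ m ∈ N1 L, x m * x (L - m)
      ≤ (ρ * C * (kn L ^ (2 * s + 2) * x L ^ 2) + ρ * C * b1 L) / 2 := by
    intro L hL
    have hk := kn_nonneg L
    refine amgm (by positivity) (by have := hb1n L; positivity) ?_
    have h1 : (∑ m ∈ N1 L, x m * x (L - m)) ^ 2
        ≤ (N1 L).card * ∑ m ∈ N1 L, (x m * x (L - m)) ^ 2 := sq_sum_le_card_mul_sum_sq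
    have h2 : 0 ≤ ∑ m ∈ N1 L, (x m * x (L - m)) ^ 2 := Finset.sum_nonneg fun m _ => sq_nonneg _
    rw [mul_pow]
    calc (kn L ^ (2 * s + 1) * x L) ^ 2 * (∑ m ∈ N1 L, x m * x (L - m)) ^ 2
        ≤ (kn L ^ (2 * s + 1) * x L) ^ 2 * ((C * (ρ * kn L) ^ 2)
            * ∑ m ∈ N1 L, (x m * x (L - m)) ^ 2) := by
          gcongr
          exact h1.trans (mul_le_mul_of_nonneg_right (hc1 L hL) h2)
      _ = (C * 1) * (ρ ^ 2 * (kn L ^ (2 * s + 2) * x L ^ 2) * b1 L) := by
          simp only [hb1]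
          ring
      _ ≤ (C * C) * (ρ ^ 2 * (kn L ^ (2 * s + 2) * x L ^ 2) * b1 L) := by
          have := hb1n L
          gcongr
      _ = _ := by ring
  have hz2 : ∀ L ∈ S, kn L ^ (2 * s + 1) * x L * ∑ m ∈ N2 L, x m * x (L - m)
      ≤ (θ * (kn L ^ (2 * s + 2) * x L ^ 2) + C / θ * b2 L) / 2 := by
    intro L hL
    have hk := kn_nonneg L
    refine amgm (by positivity) (by have := hb2n L; positivity) ?_
    have h1 : (∑ m ∈ N2 L, x m * x (L - m)) ^ 2
        ≤ (N2 L).card * ∑ m ∈ N2 L, (x m * x (L - m)) ^ 2 := sq_sum_le_card_mul_sum_sq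
    have h2 : 0 ≤ ∑ m ∈ N2 L, (x m * x (L - m)) ^ 2 := Finset.sum_nonneg fun m _ => sq_nonneg _
    rw [mul_pow]
    calc (kn L ^ (2 * s + 1) * x L) ^ 2 * (∑ m ∈ N2 L, x m * x (L - m)) ^ 2
        ≤ (kn L ^ (2 * s + 1) * x L) ^ 2 * ((C * kn L ^ 2)
            * ∑ m ∈ N2 L, (x m * x (L - m)) ^ 2) := by
          gcongr
          exact h1.trans (mul_le_mul_of_nonneg_right (hc2 L hL) h2)
      _ = _ := by
          simp only [hb2]
          field_simp
          ring
  have hs1 : ∑ L ∈ S, b1 L ≤ 4 ^ (s + 1) * (E * XS S x (2 * s + 2)) := by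
    have h1 := h.dbl (2 * s + 2) 0
    have h0 : XS S x 0 ≤ E := by
      refine le_trans (le_of_eq ?_) h.en
      unfold XS
      simp
    calc ∑ L ∈ S, b1 L ≤ ∑ L ∈ S, ∑ m ∈ S, 4 ^ (s + 1)
          * (kn (L - m) ^ (2 * s + 2) * x (L - m) ^ 2 * (kn m ^ 0 * x m ^ 2)) := by
          refine Finset.sum_le_sum fun L _ => ?_
          simp only [hb1]
          rw [Finset.mul_sum]
          have hsub : N1 L ⊆ S := fun m hm =>
            (mem_NL.1 (Finset.mem_filter.1 hm).1).1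
          refine le_trans (Finset.sum_le_sum (g := fun m => 4 ^ (s + 1)
            * (kn (L - m) ^ (2 * s + 2) * x (L - m) ^ 2 * (kn m ^ 0 * x m ^ 2))) fun m hm => ?_)
            (Finset.sum_le_sum_of_subset_of_nonneg hsub fun m _ _ => ?_)
          · have h3 := kn_le_two (mem_NL.1 (Finset.mem_filter.1 hm).1).2.2.2
            have h4 : kn L ^ (2 * s + 2) ≤ (2 * kn (L - m)) ^ (2 * s + 2) :=
              pow_le_pow_left₀ (kn_nonneg _) h3 _
            have h5 : (2 * kn (L - m)) ^ (2 * s + 2) = 4 ^ (s + 1) * kn (L - m) ^ (2 * s + 2) := by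
              rw [mul_pow]
              congr 1
              rw [show 2 * s + 2 = 2 * (s + 1) by ring, pow_mul]
              norm_num
            calc kn L ^ (2 * s + 2) * (x m * x (L - m)) ^ 2
                ≤ (4 ^ (s + 1) * kn (L - m) ^ (2 * s + 2)) * (x m * x (L - m)) ^ 2 := by
                  rw [← h5]; gcongr
              _ = _ := by ring
          · have := kn_nonneg (L - m)
            positivity
      _ = 4 ^ (s + 1) * ∑ L ∈ S, ∑ m ∈ S,
          kn (L - m) ^ (2 * s + 2) * x (L - m) ^ 2 * (kn m ^ 0 * x m ^ 2) := by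
          simp_rw [Finset.mul_sum]
      _ ≤ 4 ^ (s + 1) * (XS S x 0 * XS S x (2 * s + 2)) := by gcongr
      _ ≤ _ := by
          have := Ad.XS_nonneg (S := S) x (2 * s + 2)
          gcongr
  have hs2 : ∑ L ∈ S, b2 L ≤ 4 ^ s / ρ ^ 2 * (XS S x 2 * XS S x (2 * s)) := by
    have h1 := h.dbl (2 * s) 2
    calc ∑ L ∈ S, b2 L ≤ ∑ L ∈ S, ∑ m ∈ S, 4 ^ s / ρ ^ 2
          * (kn (L - m) ^ (2 * s) * x (L - m) ^ 2 * (kn m ^ 2 * x m ^ 2)) := by
          refine Finset.sum_le_sum fun L _ => ?_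
          simp only [hb2]
          rw [Finset.mul_sum]
          have hsub : N2 L ⊆ S := fun m hm =>
            (mem_NL.1 (Finset.mem_filter.1 hm).1).1
          refine le_trans (Finset.sum_le_sum (g := fun m => 4 ^ s / ρ ^ 2
            * (kn (L - m) ^ (2 * s) * x (L - m) ^ 2 * (kn m ^ 2 * x m ^ 2))) fun m hm => ?_)
            (Finset.sum_le_sum_of_subset_of_nonneg hsub fun m _ _ => ?_)
          · have hm2 := Finset.mem_filter.1 hm
            have h3 := kn_le_two (mem_NL.1 hm2.1).2.2.2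
            have h6 : kn L ≤ kn m / ρ := by
              rw [le_div_iff₀ hρ]
              have := not_le.1 hm2.2
              linarith
            have hk := kn_nonneg L
            have hk2 := kn_nonneg (L - m)
            have hk3 := kn_nonneg m
            have h4 : kn L ^ (2 * s) * kn L ^ 2 ≤ (2 * kn (L - m)) ^ (2 * s) * (kn m / ρ) ^ 2 := by
              gcongr
            have h5 : (2 * kn (L - m)) ^ (2 * s) * (kn m / ρ) ^ 2
                = 4 ^ s / ρ ^ 2 * (kn (L - m) ^ (2 * s) * kn m ^ 2) := by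
              rw [mul_pow, div_pow, pow_mul 2 2 s]
              norm_num
              ring
            calc kn L ^ (2 * s + 2) * (x m * x (L - m)) ^ 2
                = (kn L ^ (2 * s) * kn L ^ 2) * (x m * x (L - m)) ^ 2 := by ring
              _ ≤ (4 ^ s / ρ ^ 2 * (kn (L - m) ^ (2 * s) * kn m ^ 2))
                  * (x m * x (L - m)) ^ 2 := by
                  rw [← h5]; gcongr
              _ = _ := by ring
          · have := kn_nonneg (L - m)
            have := kn_nonneg m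
            positivity
      _ = 4 ^ s / ρ ^ 2 * ∑ L ∈ S, ∑ m ∈ S,
          kn (L - m) ^ (2 * s) * x (L - m) ^ 2 * (kn m ^ 2 * x m ^ 2) := by
          simp_rw [Finset.mul_sum]
      _ ≤ _ := by gcongr
  calc ∑ L ∈ S, kn L ^ (2 * s + 1) * x L * ∑ m ∈ NL S NR L, x m * x (L - m)
      = ∑ L ∈ S, (kn L ^ (2 * s + 1) * x L * ∑ m ∈ N1 L, x m * x (L - m)
        + kn L ^ (2 * s + 1) * x L * ∑ m ∈ N2 L, x m * x (L - m)) := by
        refine Finset.sum_congr rfl fun L _ => ?_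
        rw [hsplit, mul_add]
    _ ≤ ∑ L ∈ S, ((ρ * C * (kn L ^ (2 * s + 2) * x L ^ 2) + ρ * C * b1 L) / 2
        + (θ * (kn L ^ (2 * s + 2) * x L ^ 2) + C / θ * b2 L) / 2) :=
        Finset.sum_le_sum fun L hL => add_le_add (hz1 L hL) (hz2 L hL)
    _ = (ρ * C / 2 + θ / 2) * XS S x (2 * s + 2) + ρ * C / 2 * ∑ L ∈ S, b1 L
        + C / θ / 2 * ∑ L ∈ S, b2 L := by
        unfold XS
        rw [Finset.mul_sum, Finset.mul_sum, Finset.mul_sum, ← Finset.sum_add_distrib,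
          ← Finset.sum_add_distrib]
        refine Finset.sum_congr rfl fun L _ => ?_
        ring
    _ ≤ (ρ * C / 2 + θ / 2) * XS S x (2 * s + 2)
        + ρ * C / 2 * (4 ^ (s + 1) * (E * XS S x (2 * s + 2)))
        + C / θ / 2 * (4 ^ s / ρ ^ 2 * (XS S x 2 * XS S x (2 * s))) := by
        gcongr
    _ = _ := by
        field_simp
        ring

/-- the difference of the frequencies -/
def dl (g : K3 → ℝ) (L m : K3) : ℝ := g L - g m - g (L - m)

/-- the near resonant part of the derivative -/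
theorem Ad.near_le (h : Ad S x E) (hsym : ∀ k, x (-k) = x k) {g : K3 → ℝ}
    (hg : ∀ k, g (-k) = -g k) {Λ C : ℝ}
    (hF : Few (fun L m => |dl g L m| ≤ 8 * Λ * kn L ^ 3) C) (hC : 1 ≤ C) (hΛ : 0 ≤ Λ) (s : ℕ)
    {ρ θ : ℝ} (hρ : 0 < ρ) (hθ : 0 < θ) {Q : Finset (K3 × K3)} (hQ : Q ⊆ AS S)
    (hQ2 : ∀ z ∈ Q, |dl g z.1 z.2| ≤ Λ * mx z ^ 3) :
    ∑ z ∈ Q, kn z.1 ^ (2 * s + 1) * x z.1 * x z.2 * x (z.1 - z.2)
      ≤ 3 * ((ρ * C * (1 + 4 ^ (s + 1) * E) / 2 + θ / 2) * XS S x (2 * s + 2)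
        + C * 4 ^ s / (2 * θ * ρ ^ 2) * (XS S x 2 * XS S x (2 * s))) := by
  classical
  set NR : K3 → K3 → Prop := fun L m => |dl g L m| ≤ 8 * Λ * kn L ^ 3 with hNR
  set T : K3 × K3 → ℝ := fun z => if z.2 ∈ NL S NR z.1 then
    kn z.1 ^ (2 * s + 1) * x z.1 * (x z.2 * x (z.1 - z.2)) else 0 with hT
  have hT0 : ∀ z, 0 ≤ T z := by
    intro z
    simp only [hT]
    split_ifs
    · have h1 := h.nonneg z.1
      have h2 := h.nonneg z.2
      have h3 := h.nonneg (z.1 - z.2)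
      have h4 := kn_nonneg z.1
      positivity
    · exact le_rfl
  have hJ : ∑ L ∈ S, ∑ m ∈ S, T (L, m)
      = ∑ L ∈ S, kn L ^ (2 * s + 1) * x L * ∑ m ∈ NL S NR L, x m * x (L - m) := by
    refine Finset.sum_congr rfl fun L _ => ?_
    simp only [hT]
    rw [Finset.mul_sum, ← Finset.sum_filter]
    refine Finset.sum_congr ?_ fun _ _ => rfl
    ext m
    rw [Finset.mem_filter]
    exact ⟨fun hm => hm.2, fun hm => ⟨(mem_NL.1 hm).1, hm⟩⟩
  set J := ∑ L ∈ S, ∑ m ∈ S, T (L, m) with hJdef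
  have h1 : ∑ z ∈ AS S, T z ≤ J := AS_le hT0
  have h2 : ∑ z ∈ AS S, T (z.1, z.1 - z.2) ≤ J := by rw [AS_swap]; exact h1
  have h3 : ∑ z ∈ AS S, T (z.2, z.1) ≤ J := by
    refine (AS_le' (F := fun z => T (z.2, z.1)) fun z => hT0 _).trans (le_of_eq ?_)
    rfl
  have hpt : ∀ z ∈ Q, kn z.1 ^ (2 * s + 1) * x z.1 * x z.2 * x (z.1 - z.2)
      ≤ T z + T (z.1, z.1 - z.2) + T (z.2, z.1) := by
    intro z hz
    obtain ⟨⟨m1, m2⟩, m3⟩ := mem_AS.1 (hQ hz)
    have hq := hQ2 z hz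
    have n1 := hT0 z
    have n2 := hT0 (z.1, z.1 - z.2)
    have n3 := hT0 (z.2, z.1)
    have k1 := kn_nonneg z.1
    have k2 := kn_nonneg z.2
    have k3 := kn_nonneg (z.1 - z.2)
    have t1 := kn_split z.1 z.2
    have t2 := kn_split2 z.1 z.2
    have t3 := kn_split3 z.1 z.2
    have x1 := h.nonneg z.1
    have x2 := h.nonneg z.2
    have x3 := h.nonneg (z.1 - z.2)
    have e1 : z.2 - z.1 = -(z.1 - z.2) := by abel
    have hm0 : 0 ≤ mx z := k1.trans (le_mx1 z)
    -- the large one controls the longest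
    have hbig : ∀ L, mx z ≤ 2 * kn L → Λ * mx z ^ 3 ≤ 8 * Λ * kn L ^ 3 := by
      intro L hL
      calc Λ * mx z ^ 3 ≤ Λ * (2 * kn L) ^ 3 := by gcongr
        _ = _ := by ring
    by_cases c1 : kn z.2 ≤ kn z.1 ∧ kn z.2 ≤ kn (z.1 - z.2)
    · have hmz : mx z ≤ 2 * kn z.1 := by
        unfold mx
        exact max_le (by linarith) (max_le (by linarith [c1.1]) (by linarith [c1.1]))
      have hin : z.2 ∈ NL S NR z.1 := mem_NL.2 ⟨m2, hq.trans (hbig _ hmz), c1.1, c1.2⟩
      have : T z = kn z.1 ^ (2 * s + 1) * x z.1 * (x z.2 * x (z.1 - z.2)) := by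
        simp only [hT]; rw [if_pos hin]
      rw [this]
      rw [this] at n1
      linarith
    · by_cases c2 : kn (z.1 - z.2) ≤ kn z.1 ∧ kn (z.1 - z.2) ≤ kn z.2
      · have hmz : mx z ≤ 2 * kn z.1 := by
          unfold mx
          exact max_le (by linarith) (max_le (by linarith [c2.1]) (by linarith [c2.1]))
        have hdl : dl g z.1 (z.1 - z.2) = dl g z.1 z.2 := by
          unfold dl
          rw [sub_sub_cancel]
          ring
        have hin : z.1 - z.2 ∈ NL S NR z.1 := by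
          refine mem_NL.2 ⟨m3, ?_, c2.1, ?_⟩
          · show |dl g z.1 (z.1 - z.2)| ≤ _
            rw [hdl]
            exact hq.trans (hbig _ hmz)
          · rw [sub_sub_cancel]; exact c2.2
        have : T (z.1, z.1 - z.2) = kn z.1 ^ (2 * s + 1) * x z.1 * (x (z.1 - z.2) * x z.2) := by
          simp only [hT, sub_sub_cancel]; rw [if_pos hin]
        rw [this]
        rw [this] at n2
        linarith
      · have c3 : kn z.1 ≤ kn z.2 ∧ kn z.1 ≤ kn (z.1 - z.2) := by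
          by_contra hn
          rw [not_and_or, not_le, not_le] at hn
          rw [not_and_or, not_le, not_le] at c1 c2
          rcases hn with h' | h' <;> rcases c1 with h'' | h'' <;> rcases c2 with h''' | h''' <;>
            linarith
        have hmz : mx z ≤ 2 * kn z.2 := by
          unfold mx
          exact max_le (by linarith [c3.1]) (max_le (by linarith) (by linarith [c3.1]))
        have hdl : dl g z.2 z.1 = -dl g z.1 z.2 := by
          unfold dl
          rw [e1, hg]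
          ring
        have hin : z.1 ∈ NL S NR z.2 := by
          refine mem_NL.2 ⟨m1, ?_, c3.1, ?_⟩
          · show |dl g z.2 z.1| ≤ _
            rw [hdl, abs_neg]
            exact hq.trans (hbig _ hmz)
          · rw [e1, kn_neg]; exact c3.2
        have hTz : T (z.2, z.1) = kn z.2 ^ (2 * s + 1) * x z.2 * (x z.1 * x (z.1 - z.2)) := by
          simp only [hT]; rw [if_pos hin, e1, hsym]
        rw [hTz]
        have hpw : kn z.1 ^ (2 * s + 1) ≤ kn z.2 ^ (2 * s + 1) := pow_le_pow_left₀ k1 c3.1 _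
        have h5 : kn z.1 ^ (2 * s + 1) * (x z.1 * x z.2 * x (z.1 - z.2))
            ≤ kn z.2 ^ (2 * s + 1) * (x z.1 * x z.2 * x (z.1 - z.2)) := by gcongr
        linarith
  have hJ2 := h.near (NR := NR) hF hC s hρ hθ
  calc ∑ z ∈ Q, kn z.1 ^ (2 * s + 1) * x z.1 * x z.2 * x (z.1 - z.2)
      ≤ ∑ z ∈ Q, (T z + T (z.1, z.1 - z.2) + T (z.2, z.1)) := Finset.sum_le_sum hpt
    _ ≤ ∑ z ∈ AS S, (T z + T (z.1, z.1 - z.2) + T (z.2, z.1)) :=
        Finset.sum_le_sum_of_subset_of_nonneg hQ fun z _ _ => by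
          have := hT0 z
          have := hT0 (z.1, z.1 - z.2)
          have := hT0 (z.2, z.1)
          linarith
    _ = ∑ z ∈ AS S, T z + ∑ z ∈ AS S, T (z.1, z.1 - z.2) + ∑ z ∈ AS S, T (z.2, z.1) := by
        rw [Finset.sum_add_distrib, Finset.sum_add_distrib]
    _ ≤ J + J + J := by gcongr
    _ = 3 * J := by ring
    _ ≤ _ := by
        rw [hJ]
        gcongr

end Pool.Agent.H226.DE
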