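import Pool.Agent.H226.DE.Sol
import Pool.Agent.H226.OF.Phys
import Pool.Agent.H226.DE.Cnt

/-!
Partial derivatives of order `n` and their symbols.
-/

open MeasureTheory Set Filter Topology
open scoped ENNReal NNReal ContDiff
open H459R3.NS Pool.Agent.X96.HT
open Pool.Agent.X96.DM hiding LL Fk Fk_apply exists_lim TT_all exists_sol uniq

namespace Pool.Agent.H226.DE

open Pool.Agent.H226.SW hiding Fk Fk_apply Pol D_bw L2 norm_visc norm_Fk_le Fk_sub_le exists_lim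
  TT_all exists_sol uniq diff_deriv

/-- the partial derivative of order `n` in the coordinates `σ` -/
noncomputable def itd {n : ℕ} (σ : Fin n → Fin 3) (f : V → ℝ) (x : V) : ℝ :=
  iteratedFDeriv ℝ n f x fun l => Pi.single (σ l) 1

/-- its symbol -/
noncomputable def sy {n : ℕ} (σ : Fin n → Fin 3) (k : K3) : ℂ :=
  ∏ l, (2 * Real.pi * Complex.I * (k (σ l) : ℂ))

lemma itd_zero (σ : Fin 0 → Fin 3) (f : V → ℝ) : itd σ f = f := by
  funext x
  unfold itd
  rw [iteratedFDeriv_zero_apply]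

lemma itd_succ {n : ℕ} {f : V → ℝ} (hf : ContDiff ℝ ∞ f) (σ : Fin (n + 1) → Fin 3) :
    itd σ f = pd (σ 0) (itd (Fin.tail σ) f) := by
  funext x
  unfold itd
  rw [iteratedFDeriv_succ_apply_left]
  unfold pd
  have hd : DifferentiableAt ℝ (iteratedFDeriv ℝ n f) x :=
    (hf.differentiable_iteratedFDeriv (by exact_mod_cast WithTop.coe_lt_top n)) x
  have h1 : HasFDerivAt (fun y => iteratedFDeriv ℝ n f y
      (fun l => Pi.single ((Fin.tail σ) l) (1 : ℝ)))
      ((ContinuousMultilinearMap.apply ℝ (fun _ : Fin n => V) ℝ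
        (fun l => Pi.single ((Fin.tail σ) l) (1 : ℝ))).comp
          (fderiv ℝ (iteratedFDeriv ℝ n f) x)) x :=
    (ContinuousMultilinearMap.apply ℝ (fun _ : Fin n => V) ℝ
        (fun l => Pi.single ((Fin.tail σ) l) (1 : ℝ))).hasFDerivAt.comp x hd.hasFDerivAt
  rw [h1.fderiv]
  rfl

lemma sp_itd {n : ℕ} : ∀ (σ : Fin n → Fin 3) {f : V → ℝ}, SP f → SP (itd σ f) := by
  induction n with
  | zero => intro σ f hf; rw [itd_zero]; exact hf
  | succ n ih =>
    intro σ f hf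
    rw [itd_succ hf.smooth]
    exact (ih _ hf).pd _

lemma fr_itd {n : ℕ} : ∀ (σ : Fin n → Fin 3) {f : V → ℝ}, SP f → ∀ k,
    fr (itd σ f) k = sy σ k * fr f k := by
  induction n with
  | zero => intro σ f hf k; rw [itd_zero]; unfold sy; simp
  | succ n ih =>
    intro σ f hf k
    rw [itd_succ hf.smooth, fr_pd (sp_itd _ hf)]
    unfold H459R3.NS.D
    rw [ih _ hf]
    unfold sy
    rw [Fin.prod_univ_succ]
    simp only [Fin.tail]
    ring

lemma sy_neg {n : ℕ} (σ : Fin n → Fin 3) (k : K3) : sy σ (-k) = (starRingEnd ℂ) (sy σ k) := by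
  unfold sy
  rw [map_prod]
  refine Finset.prod_congr rfl fun l _ => ?_
  simp only [Pi.neg_apply, Int.cast_neg, map_mul, map_ofNat, Complex.conj_ofReal, Complex.conj_I,
    map_intCast]
  ring

lemma sy_eq {n : ℕ} (σ : Fin n → Fin 3) (k : K3) :
    sy σ k = (2 * Real.pi * Complex.I) ^ n * ((∏ l, (k (σ l) : ℝ) : ℝ) : ℂ) := by
  unfold sy
  rw [Finset.prod_mul_distrib]
  simp

/-- the sign -/
noncomputable def sg (n : ℕ) : ℝ := (-1) ^ (n / 2)

lemma pow_eq {n : ℕ} (hn : Odd n) :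
    (2 * (Real.pi : ℂ) * Complex.I) ^ n = ((sg n * (2 * Real.pi) ^ n : ℝ) : ℂ) * Complex.I := by
  obtain ⟨m, rfl⟩ := hn
  unfold sg
  have e : (2 * m + 1) / 2 = m := by omega
  rw [e, mul_pow, pow_succ Complex.I, pow_mul Complex.I, Complex.I_sq]
  push_cast
  ring

lemma sy_odd {n : ℕ} (hn : Odd n) (σ : Fin n → Fin 3) (k : K3) :
    sy σ k = ((sg n * (2 * Real.pi) ^ n * ∏ l, (k (σ l) : ℝ) : ℝ) : ℂ) * Complex.I := by
  rw [sy_eq, pow_eq hn]
  push_cast
  ring

lemma sg_abs (n : ℕ) : |sg n| = 1 := by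
  unfold sg
  rw [abs_pow, abs_neg, abs_one, one_pow]

lemma norm_sy {n : ℕ} (σ : Fin n → Fin 3) (k : K3) : ‖sy σ k‖ ≤ (2 * Real.pi) ^ n * (1 + kn k) ^ n := by
  unfold sy
  rw [norm_prod, ← mul_pow]
  refine (Finset.prod_le_prod (fun l _ => norm_nonneg _) (fun l _ => ?_)).trans (le_of_eq
    (Finset.prod_const _) |>.trans (by rw [Finset.card_univ, Fintype.card_fin]))
  rw [norm_mul, norm_mul, norm_mul]
  simp only [Complex.norm_I, mul_one, Complex.norm_intCast, Complex.norm_real, Real.norm_eq_abs,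
    Complex.norm_ofNat]
  rw [abs_of_pos Real.pi_pos]
  have h1 := abs_le_kn k (σ l)
  have := Real.pi_pos
  gcongr
  linarith

/-- the symbol `-D` of the operator `Lo` -/
structure Symb (Lo : (V → ℝ) → V → ℝ) (D : K3 → ℂ) : Prop where
  sp : ∀ {f : V → ℝ}, SP f → SP (Lo f)
  fr : ∀ {f : V → ℝ}, SP f → ∀ k, fr (Lo f) k = -D k * fr f k
  zero : D 0 = 0
  conj : ∀ k, D (-k) = (starRingEnd ℂ) (D k)
  nonneg : ∀ k, 0 ≤ (D k).re

/-- the operator `ν Δ + ∑ α ∂^σ` -/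
noncomputable def opL {ι : Type*} [Fintype ι] {n : ℕ} (ν : ℝ) (α : ι → ℝ) (σ : ι → Fin n → Fin 3)
    (f : V → ℝ) (x : V) : ℝ := ν * ∑ j, pd j (pd j f) x + ∑ i, α i * itd (σ i) f x

/-- its symbol -/
noncomputable def syL {ι : Type*} [Fintype ι] {n : ℕ} (ν : ℝ) (α : ι → ℝ) (σ : ι → Fin n → Fin 3)
    (k : K3) : ℂ := ((ν * ((2 * Real.pi) ^ 2 * kn k ^ 2) : ℝ) : ℂ) - ∑ i, (α i : ℂ) * sy (σ i) k

/-- the frequency -/
noncomputable def frq {ι : Type*} [Fintype ι] {n : ℕ} (α : ι → ℝ) (σ : ι → Fin n → Fin 3)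
    (k : K3) : ℝ := sg n * (2 * Real.pi) ^ n * ∑ i, α i * ∏ l, (k (σ i l) : ℝ)

lemma syL_eq {ι : Type*} [Fintype ι] {n : ℕ} (hn : Odd n) (ν : ℝ) (α : ι → ℝ)
    (σ : ι → Fin n → Fin 3) (k : K3) :
    syL ν α σ k = ((ν * ((2 * Real.pi) ^ 2 * kn k ^ 2) : ℝ) : ℂ)
      - ((frq α σ k : ℝ) : ℂ) * Complex.I := by
  unfold syL frq
  congr 1
  simp_rw [sy_odd hn]
  push_cast
  rw [Finset.mul_sum, Finset.sum_mul]
  refine Finset.sum_congr rfl fun i _ => ?_
  ring

lemma syL_re {ι : Type*} [Fintype ι] {n : ℕ} (hn : Odd n) (ν : ℝ) (α : ι → ℝ)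
    (σ : ι → Fin n → Fin 3) (k : K3) : (syL ν α σ k).re = ν * ((2 * Real.pi) ^ 2 * kn k ^ 2) := by
  rw [syL_eq hn, Complex.sub_re, Complex.ofReal_re, Complex.re_ofReal_mul, Complex.I_re, mul_zero,
    sub_zero]

lemma syL_im {ι : Type*} [Fintype ι] {n : ℕ} (hn : Odd n) (ν : ℝ) (α : ι → ℝ)
    (σ : ι → Fin n → Fin 3) (k : K3) : (syL ν α σ k).im = -frq α σ k := by
  rw [syL_eq hn, Complex.sub_im, Complex.ofReal_im, Complex.im_ofReal_mul, Complex.I_im, mul_one,
    zero_sub]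

theorem symb_opL {ι : Type*} [Fintype ι] {n : ℕ} (hn : Odd n) {ν : ℝ} (hν : 0 ≤ ν) (α : ι → ℝ)
    (σ : ι → Fin n → Fin 3) : Symb (opL ν α σ) (syL ν α σ) where
  sp := fun {f} hf => by
    have h1 : SP fun x => ∑ i, α i * itd (σ i) f x :=
      SP.sum fun i _ => by
        have h2 := sp_itd (σ i) hf
        exact ⟨contDiff_const.mul h2.smooth, fun j x => by rw [h2.per j x]⟩
    have h3 : SP fun x => ν * lap f x := by
      have h4 := sp_lap hf
      exact ⟨contDiff_const.mul h4.smooth, fun j x => by rw [h4.per j x]⟩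
    exact h3.add h1
  fr := fun {f} hf k => by
    have h4 := sp_lap hf
    have h1 : ∀ i, SP fun x => α i * itd (σ i) f x := fun i => by
      have h2 := sp_itd (σ i) hf
      exact ⟨contDiff_const.mul h2.smooth, fun j x => by rw [h2.per j x]⟩
    have e : opL ν α σ f = fun x => ν * lap f x + ∑ i, α i * itd (σ i) f x := rfl
    rw [e, fr_add (f := fun x => ν * lap f x) (g := fun x => ∑ i, α i * itd (σ i) f x)
      (continuous_const.mul h4.cont) (SP.sum fun i _ => h1 i).cont, fr_smul,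
      fr_lap hf, fr_sum fun i _ => h1 i]
    simp_rw [fr_smul, fr_itd (σ _) hf]
    unfold syL
    rw [neg_sub, sub_mul, Finset.sum_mul]
    have e2 : ∀ i, (α i : ℂ) * sy (σ i) k * fr f k = (α i : ℂ) * (sy (σ i) k * fr f k) :=
      fun i => by ring
    simp_rw [e2]
    push_cast
    ring
  zero := by
    rw [syL_eq hn, kn_zero]
    unfold frq
    have hn0 : n ≠ 0 := hn.pos.ne'
    have h5 : ∑ i, α i * ∏ l, (((0 : K3) (σ i l) : ℤ) : ℝ) = 0 :=
      Finset.sum_eq_zero fun i _ => by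
        simp only [Pi.zero_apply, Int.cast_zero, Finset.prod_const, Finset.card_univ,
          Fintype.card_fin]
        rw [zero_pow hn0, mul_zero]
    rw [h5]
    simp
  conj := fun k => by
    unfold syL
    rw [map_sub, Complex.conj_ofReal, kn_neg, map_sum]
    simp_rw [sy_neg, map_mul, Complex.conj_ofReal]
  nonneg := fun k => by
    rw [syL_re hn]
    have := kn_nonneg k
    positivity

lemma polC_syL {ι : Type*} [Fintype ι] {n : ℕ} {ν : ℝ} (hν : 0 ≤ ν) (α : ι → ℝ)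
    (σ : ι → Fin n → Fin 3) :
    PolC (ν * (2 * Real.pi) ^ 2 + ∑ i, |α i| * (2 * Real.pi) ^ n) (n + 2) (syL ν α σ) := by
  intro k
  have hk := kn_nonneg k
  have hpi := Real.pi_pos
  have h1 : 1 ≤ 1 + kn k := by linarith
  unfold syL
  refine (norm_sub_le _ _).trans ?_
  rw [add_mul]
  refine add_le_add ?_ ?_
  · rw [Complex.norm_real, Real.norm_eq_abs, abs_of_nonneg (by positivity)]
    have h2 : kn k ^ 2 ≤ (1 + kn k) ^ (n + 2) := by
      calc kn k ^ 2 ≤ (1 + kn k) ^ 2 := by gcongr; linarith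
        _ ≤ (1 + kn k) ^ (n + 2) := pow_le_pow_right₀ h1 (by omega)
    calc ν * ((2 * Real.pi) ^ 2 * kn k ^ 2) = ν * (2 * Real.pi) ^ 2 * kn k ^ 2 := by ring
      _ ≤ _ := by gcongr
  · refine (norm_sum_le _ _).trans ?_
    rw [Finset.sum_mul]
    refine Finset.sum_le_sum fun i _ => ?_
    rw [norm_mul, Complex.norm_real, Real.norm_eq_abs]
    have h2 := norm_sy (σ i) k
    have h3 : (1 + kn k) ^ n ≤ (1 + kn k) ^ (n + 2) := pow_le_pow_right₀ h1 (by omega)
    calc |α i| * ‖sy (σ i) k‖ ≤ |α i| * ((2 * Real.pi) ^ n * (1 + kn k) ^ n) := by gcongr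
      _ ≤ |α i| * ((2 * Real.pi) ^ n * (1 + kn k) ^ (n + 2)) := by gcongr
      _ = _ := by ring

end Pool.Agent.H226.DE
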