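import Pool.Agent.H226.DE.Op
import Pool.Agent.H226.DE.Uniq

/-!
The equations in physical space, with pressure and with any mean velocity.
-/

open MeasureTheory Set Filter Topology
open scoped ENNReal NNReal ContDiff
open H459R3.NS Pool.Agent.X96.HT
open Pool.Agent.X96.DM hiding LL Fk Fk_apply exists_lim TT_all exists_sol uniq
open Pool.Agent.H356R3.NS (SFam RD TT pw pw_pos one_le_pw pw_sub cvv SF)

namespace Pool.Agent.H226.DE

open Pool.Agent.H226.SW hiding Fk Fk_apply Pol D_bw L2 norm_visc norm_Fk_le Fk_sub_le exists_lim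
  TT_all exists_sol uniq diff_deriv

/-- `(u, p)` is a smooth `1`-periodic solution of `∂ₜ u + (u·∇) u = Lo u - ∇ p`, `div u = 0`, for
the times in `I`. -/
structure IsSolL (Lo : (V → ℝ) → V → ℝ) (I : Set ℝ) (u : ℝ → V → V) (p : ℝ → V → ℝ) : Prop where
  smooth_u : ContDiffOn ℝ ∞ (fun z : ℝ × V => u z.1 z.2) (I ×ˢ univ)
  smooth_p : ContDiffOn ℝ ∞ (fun z : ℝ × V => p z.1 z.2) (I ×ˢ univ)
  per_u : ∀ t ∈ I, Per (u t)
  per_p : ∀ t ∈ I, Per (p t)
  divfree : ∀ t ∈ I, ∀ x, ∑ i, pd i (fun y => u t y i) x = 0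
  momentum : ∀ t ∈ I, 0 < t → ∀ x i,
    deriv (fun s => u s x i) t + ∑ j, u t x j * pd j (fun y => u t y i) x
      = Lo (fun y => u t y i) x - pd i (p t) x

/-- `k · m` -/
noncomputable def kd (k : K3) (m : V) : ℝ := ∑ j, (k j : ℝ) * m j

/-- the multiplier with drift -/
noncomputable def Dm (D : K3 → ℂ) (m : V) (k : K3) : ℂ := D k + 2 * Real.pi * Complex.I * kd k m

lemma fr_const (c : ℝ) (k : K3) : fr (fun _ => c) k = if k = 0 then (c : ℂ) else 0 := by
  unfold fr fc
  rw [integral_mul_const, integral_ee]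
  by_cases hk : k = 0
  · rw [if_pos (by rw [hk, neg_zero]), if_pos hk, one_mul]
  · rw [if_neg (by rwa [neg_eq_zero]), if_neg hk, zero_mul]

lemma sp_const (c : ℝ) : SP fun _ : V => c := ⟨contDiff_const, fun _ _ => rfl⟩

lemma sp_add_const {f : V → ℝ} (hf : SP f) (c : ℝ) : SP fun x => f x + c := hf.add (sp_const c)

lemma pd_add_const (f : V → ℝ) (c : ℝ) (j : Fin 3) : pd j (fun x => f x + c) = pd j f := by
  funext x
  unfold pd
  rw [fderiv_add_const]

/-- the field without its mean -/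
def sb (m : V) (w : V → V) : V → V := fun x i => w x i - m i

lemma sb_eq (m : V) (w : V → V) (i : Fin 3) :
    (fun x => sb m w x i) = fun x => w x i + -m i := by
  funext x; unfold sb; ring

lemma sp_sb {m : V} {w : V → V} (hw : ∀ i, SP fun x => w x i) (i : Fin 3) :
    SP fun x => sb m w x i := by
  rw [sb_eq]
  exact sp_add_const (hw i) _

lemma pd_sb (m : V) (w : V → V) (i j : Fin 3) :
    pd j (fun x => sb m w x i) = pd j (fun x => w x i) := by
  rw [sb_eq, pd_add_const]

lemma co_sb {m : V} {w : V → V} (hw : ∀ i, SP fun x => w x i) {k : K3} (hk : k ≠ 0) :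
    co (sb m w) k = co w k := by
  funext i
  unfold co
  rw [sb_eq, fr_add (hw i).cont continuous_const, fr_const, if_neg hk, add_zero]

lemma co_sb_zero {m : V} {w : V → V} (hw : ∀ i, SP fun x => w x i)
    (hm : ∀ i, co w 0 i = (m i : ℂ)) : co (sb m w) 0 = 0 := by
  funext i
  have h1 := hm i
  unfold co at h1 ⊢
  rw [sb_eq, fr_add (hw i).cont continuous_const, fr_const, if_pos rfl, h1]
  push_cast
  simp

lemma conv_sb {m : V} {w : V → V} (i : Fin 3) (x : V) :
    conv (fun i y => w y i) i x = conv (fun i y => sb m w y i) i x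
      + ∑ j, m j * pd j (fun y => w y i) x := by
  unfold conv
  rw [← Finset.sum_add_distrib]
  refine Finset.sum_congr rfl fun j _ => ?_
  rw [pd_sb]
  unfold sb
  ring

lemma fr_conv_sb {m : V} {w : V → V} (hw : ∀ i, SP fun x => w x i) (i : Fin 3) (k : K3) :
    fr (conv (fun i y => w y i) i) k = fr (conv (fun i y => sb m w y i) i) k
      + 2 * Real.pi * Complex.I * kd k m * co w k i := by
  have e : conv (fun i y => w y i) i = fun x => conv (fun i y => sb m w y i) i x
      + ∑ j, m j * pd j (fun y => w y i) x := funext fun x => conv_sb i x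
  have h1 : ∀ j, SP fun x => m j * pd j (fun y => w y i) x := fun j =>
    (sp_const (m j)).mul ((hw i).pd j)
  have hs : SP (conv (fun i y => sb m w y i) i) :=
    Pool.Agent.X96.HT.sp_conv (v := sb m w) (fun i => sp_sb hw i) i
  rw [e, fr_add (f := conv (fun i y => sb m w y i) i)
    (g := fun x => ∑ j, m j * pd j (fun y => w y i) x) hs.cont
    (SP.sum fun j _ => h1 j).cont, fr_sum fun j _ => h1 j]
  congr 1
  simp_rw [fr_smul, fr_pd (hw i)]
  unfold H459R3.NS.D kd co
  push_cast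
  rw [Finset.mul_sum, Finset.sum_mul]
  refine Finset.sum_congr rfl fun j _ => ?_
  ring

lemma fr_conv_zero {w : V → V} (hw : ∀ i, SP fun x => w x i)
    (hdiv : ∀ k, dp (kc k) (co w k) = 0) (i : Fin 3) :
    fr (conv (fun i y => w y i) i) 0 = 0 := by
  have h1 := hasSum_conv hw i 0
  rw [neg_zero] at h1
  refine h1.unique ?_
  have h2 : (fun l => 2 * Real.pi * Complex.I * (dp (kc (0 - l)) (co w l) * co w (0 - l) i))
      = fun _ => 0 := by
    funext l
    have h3 := hdiv l
    have h4 : dp (kc (0 - l)) (co w l) = 0 := by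
      rw [zero_sub, kc_neg]
      unfold dp at h3 ⊢
      simp only [Pi.neg_apply]
      linear_combination -h3
    rw [h4]; ring
  rw [h2]
  exact hasSum_zero

lemma nonl_one_lry {w : V → V} (hw : ∀ i, SP fun x => w x i)
    (hdiv : ∀ k, dp (kc k) (co w k) = 0) (h0 : co w 0 = 0) {k : K3} (hk : k ≠ 0) :
    nonl (fun _ _ _ => 1) (co w) k = lry k fun i => fr (conv (fun i y => w y i) i) k := by
  rw [nonl_one hw hdiv h0 k, hel_true_add_false hk]

/-- the mean -/
noncomputable def mn (w : V → V) : V := fun i => ∫ x in cube, w x i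

lemma co_zero_eq (w : V → V) (i : Fin 3) : co w 0 i = (mn w i : ℂ) := by
  unfold co fr fc mn
  have e : ∀ x : V, ee (-0) x * ((w x i : ℝ) : ℂ) = ((w x i : ℝ) : ℂ) := fun x => by
    rw [neg_zero, ee_zero, one_mul]
  simp_rw [e]
  exact integral_complex_ofReal

section

variable {Lo : (V → ℝ) → V → ℝ} {D : K3 → ℂ} {T : ℝ} {u : ℝ → V → V} {p : ℝ → V → ℝ}

lemma IsSolL.mono {I J : Set ℝ} (h : IsSolL Lo I u p) (hJ : J ⊆ I) : IsSolL Lo J u p where
  smooth_u := h.smooth_u.mono (prod_mono hJ Subset.rfl)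
  smooth_p := h.smooth_p.mono (prod_mono hJ Subset.rfl)
  per_u t ht := h.per_u t (hJ ht)
  per_p t ht := h.per_p t (hJ ht)
  divfree t ht := h.divfree t (hJ ht)
  momentum t ht := h.momentum t (hJ ht)

lemma IsSolL.smooth_c (h : IsSolL Lo (Ico 0 T) u p) (i : Fin 3) :
    ContDiffOn ℝ ∞ (fun z : ℝ × V => u z.1 z.2 i) (Ico 0 T ×ˢ univ) :=
  (contDiffOn_pi.1 h.smooth_u) i

lemma IsSolL.sp (h : IsSolL Lo (Ico 0 T) u p) {t : ℝ} (ht : t ∈ Ico 0 T) (i : Fin 3) :
    SP (fun y => u t y i) where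
  smooth := contDiff_slice (f := fun t y => u t y i) (h.smooth_c i) ht
  per j x := congrFun (h.per_u t ht j x) i

lemma IsSolL.sp_p (h : IsSolL Lo (Ico 0 T) u p) {t : ℝ} (ht : t ∈ Ico 0 T) : SP (p t) where
  smooth := contDiff_slice h.smooth_p ht
  per := h.per_p t ht

/-- the coefficients of the time derivative -/
lemma IsSolL.cod_eq (hL : Symb Lo D) (h : IsSolL Lo (Ico 0 T) u p) {t : ℝ} (ht : t ∈ Ioo 0 T)
    (k : K3) (i : Fin 3) :
    cod u t k i = -D k * co (u t) k i
      - fr (conv (fun i y => u t y i) i) k - 2 * Real.pi * Complex.I * (k i : ℂ) * fr (p t) k := by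
  have hI : t ∈ Ico 0 T := ⟨ht.1.le, ht.2⟩
  have hsp := h.sp hI
  have hp : SP (p t) := h.sp_p hI
  have e : dt (fun s y => u s y i) t = fun x => (Lo (fun y => u t y i) x
      + (-1) * conv (fun i y => u t y i) i x) + (-1) * pd i (p t) x := by
    funext x
    have h1 := h.momentum t hI ht.1 x i
    have h2 : dt (fun s y => u s y i) t x = deriv (fun s => u s x i) t := rfl
    have h3 : conv (fun i y => u t y i) i x = ∑ j, u t x j * pd j (fun y => u t y i) x := rfl
    rw [h2, h3]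
    linarith
  have hc : SP (conv (fun i y => u t y i) i) := Pool.Agent.X96.HT.sp_conv (v := u t) hsp i
  unfold cod
  rw [e, fr_add (f := fun x => Lo (fun y => u t y i) x + (-1) * conv (fun i y => u t y i) i x)
    (g := fun x => (-1) * pd i (p t) x), fr_add (f := Lo fun y => u t y i)
    (g := fun x => (-1) * conv (fun i y => u t y i) i x), fr_smul, fr_smul, hL.fr (hsp i),
    fr_pd hp, H459R3.NS.D]
  · unfold co; push_cast; ring
  · exact (hL.sp (hsp i)).cont
  · exact continuous_const.mul hc.cont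
  · exact (hL.sp (hsp i)).cont.add (continuous_const.mul hc.cont)
  · exact continuous_const.mul (hp.pd i).cont

/-- the mean is constant -/
lemma IsSolL.mean (hL : Symb Lo D) (h : IsSolL Lo (Ico 0 T) u p) {t : ℝ} (ht : t ∈ Ico 0 T) :
    ∀ i, co (u t) 0 i = (mn (u 0) i : ℂ) := by
  intro i
  have hcod : ∀ t ∈ Ioo 0 T, HasDerivAt (fun s => co (u s) 0 i) (cod u t 0 i) t :=
    fun t ht => hasDerivAt_fr (f := fun s y => u s y i) (h.smooth_c i) ht 0
  have hcont : ContinuousOn (fun s => co (u s) 0 i) (Ico 0 T) :=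
    continuousOn_fr (f := fun s y => u s y i) (h.smooth_c i) 0
  rw [← co_zero_eq]
  refine eq_start hcont (fun s hs => ?_) ht
  refine (hcod s hs).congr_deriv ?_
  have hs' : s ∈ Ico 0 T := ⟨hs.1.le, hs.2⟩
  rw [h.cod_eq hL hs, fr_conv_zero (h.sp hs') (dp_co (h.sp hs') (h.divfree s hs')), hL.zero]
  simp

/-- the field without its mean solves the equations with drift -/
theorem IsSolL.toC (hL : Symb Lo D) (h : IsSolL Lo (Ico 0 T) u p) :
    IsSolC (fun _ _ _ => 1) (Dm D (mn (u 0))) {0}ᶜ (Ico 0 T) (fun t => sb (mn (u 0)) (u t)) := by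
  set m := mn (u 0) with hm
  have hcod : ∀ t ∈ Ioo 0 T, ∀ k i, HasDerivAt (fun s => co (u s) k i) (cod u t k i) t :=
    fun t ht k i => hasDerivAt_fr (f := fun s y => u s y i) (h.smooth_c i) ht k
  refine ⟨?_, fun t ht j x => ?_, fun t ht x => ?_, fun t ht k hk => ?_,
    fun t ht ht0 k hk i => ?_⟩
  · rw [contDiffOn_pi]
    intro i
    exact (h.smooth_c i).sub contDiffOn_const
  · funext i
    show u t (x + Pi.single j 1) i - m i = u t x i - m i
    rw [h.per_u t ht j x]
  · simp_rw [pd_sb]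
    exact h.divfree t ht x
  · have hk0 : k = 0 := by simpa using hk
    subst hk0
    exact co_sb_zero (h.sp ht) (h.mean hL ht)
  · have hk0 : k ≠ 0 := by simpa using hk
    have ht' : t ∈ Ioo 0 T := ⟨ht0, ht.2⟩
    have hsp := h.sp ht
    have hdv := dp_co hsp (h.divfree t ht)
    have hsp' := fun i => sp_sb (m := m) hsp i
    have hdv' : ∀ k, dp (kc k) (co (sb m (u t)) k) = 0 := by
      intro k
      by_cases hk : k = 0
      · subst hk
        rw [co_sb_zero hsp (h.mean hL ht)]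
        unfold dp; simp
      · rw [co_sb hsp hk]; exact hdv k
    have e1 : (fun s => co (sb m (u s)) k i) =ᶠ[𝓝 t] fun s => co (u s) k i := by
      filter_upwards [Ioo_mem_nhds ht'.1 ht'.2] with s hs
      rw [co_sb (h.sp ⟨hs.1.le, hs.2⟩) hk0]
    refine ((hcod t ht' k i).congr_of_eventuallyEq e1).congr_deriv ?_
    rw [nonl_one_lry hsp' hdv' (co_sb_zero hsp (h.mean hL ht)) hk0]
    have hdcod : dp (kc k) (cod u t k) = 0 := by
      have h1 : HasDerivAt (fun s => dp (kc k) (co (u s) k)) (dp (kc k) (cod u t k)) t := by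
        unfold dp
        exact (((hcod t ht' k 0).const_mul _).add ((hcod t ht' k 1).const_mul _)).add
          ((hcod t ht' k 2).const_mul _)
      have h2 : HasDerivAt (fun s => dp (kc k) (co (u s) k)) 0 t := by
        refine (hasDerivAt_const t (0 : ℂ)).congr_of_eventuallyEq ?_
        filter_upwards [Ioo_mem_nhds ht'.1 ht'.2] with s hs
        exact dp_co (h.sp ⟨hs.1.le, hs.2⟩) (h.divfree s ⟨hs.1.le, hs.2⟩) k
      exact h1.unique h2
    have hkn : (kn k : ℂ) ≠ 0 := by exact_mod_cast (kn_pos hk0).ne'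
    set b : C3 := fun i => fr (conv (fun i y => sb m (u t) y i) i) k with hb
    have hcb : ∀ i, cod u t k i = -Dm D m k * co (u t) k i - b i
        - 2 * Real.pi * Complex.I * (k i : ℂ) * fr (p t) k := by
      intro i
      rw [h.cod_eq hL ht', fr_conv_sb (m := m) hsp]
      unfold Dm
      simp only [hb]
      ring
    have hpr : 2 * Real.pi * Complex.I * fr (p t) k * (kn k : ℂ) ^ 2 = -dp (kc k) b := by
      have h5 := hdcod
      have h6 := hdv k
      have h7 := kc_sq k
      unfold dp at h5 h6 h7 ⊢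
      simp only [hcb] at h5
      simp only [kc] at h5 h6 h7 ⊢
      rw [← h7]
      linear_combination -h5 - Dm D m k * h6
    rw [hcb, co_sb hsp hk0]
    have h8 : 2 * Real.pi * Complex.I * fr (p t) k = -(dp (kc k) b / (kn k : ℂ) ^ 2) := by
      field_simp
      linear_combination hpr
    unfold lry
    simp only [Pi.sub_apply, Pi.smul_apply, smul_eq_mul]
    have e9 : kc k i = (k i : ℂ) := rfl
    rw [e9]
    linear_combination -(k i : ℂ) * h8

end

lemma re_Dm (D : K3 → ℂ) (m : V) (k : K3) : (Dm D m k).re = (D k).re := by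
  unfold Dm
  rw [Complex.add_re]
  have : (2 * (Real.pi : ℂ) * Complex.I * kd k m).re = 0 := by
    rw [show (2 * (Real.pi : ℂ) * Complex.I * kd k m) = ((2 * Real.pi * kd k m : ℝ) : ℂ) * Complex.I
      by push_cast; ring, Complex.re_ofReal_mul, Complex.I_re, mul_zero]
  rw [this, add_zero]

lemma im_Dm (D : K3 → ℂ) (m : V) (k : K3) : (Dm D m k).im = (D k).im + 2 * Real.pi * kd k m := by
  unfold Dm
  rw [Complex.add_im]
  have : (2 * (Real.pi : ℂ) * Complex.I * kd k m).im = 2 * Real.pi * kd k m := by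
    rw [show (2 * (Real.pi : ℂ) * Complex.I * kd k m) = ((2 * Real.pi * kd k m : ℝ) : ℂ) * Complex.I
      by push_cast; ring, Complex.im_ofReal_mul, Complex.I_im, mul_one]
  rw [this]

lemma kd_neg (k : K3) (m : V) : kd (-k) m = -kd k m := by
  unfold kd
  rw [← Finset.sum_neg_distrib]
  refine Finset.sum_congr rfl fun j _ => ?_
  simp

lemma kd_sub (k l : K3) (m : V) : kd (k - l) m = kd k m - kd l m := by
  unfold kd
  rw [← Finset.sum_sub_distrib]
  refine Finset.sum_congr rfl fun j _ => ?_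
  simp only [Pi.sub_apply, Int.cast_sub]
  ring

lemma Dm_conj {D : K3 → ℂ} (hD : ∀ k, D (-k) = (starRingEnd ℂ) (D k)) (m : V) (k : K3) :
    Dm D m (-k) = (starRingEnd ℂ) (Dm D m k) := by
  unfold Dm
  rw [hD, map_add, kd_neg]
  simp only [map_mul, map_ofNat, Complex.conj_ofReal, Complex.conj_I, Complex.ofReal_neg]
  ring

lemma dl_Dm (D : K3 → ℂ) (m : V) (L l : K3) :
    dl (fun k => (Dm D m k).im) L l = dl (fun k => (D k).im) L l := by
  unfold dl
  simp only [im_Dm, kd_sub]
  ring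

lemma polC_Dm {D : K3 → ℂ} {Cd : ℝ} {r : ℕ} (hD : PolC Cd r D) (m : V) (hr : 1 ≤ r) :
    PolC (Cd + 2 * Real.pi * ∑ j, |m j|) r (Dm D m) := by
  intro k
  have hk := kn_nonneg k
  have h1 : 1 ≤ 1 + kn k := by linarith
  unfold Dm
  refine (norm_add_le _ _).trans ?_
  rw [add_mul]
  refine add_le_add (hD k) ?_
  rw [norm_mul, norm_mul, norm_mul, Complex.norm_I, mul_one, Complex.norm_ofNat,
    Complex.norm_real, Complex.norm_real, Real.norm_eq_abs, Real.norm_eq_abs,
    abs_of_pos Real.pi_pos]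
  have h2 : |kd k m| ≤ kn k * ∑ j, |m j| := by
    unfold kd
    rw [Finset.mul_sum]
    refine (Finset.abs_sum_le_sum_abs _ _).trans (Finset.sum_le_sum fun j _ => ?_)
    rw [abs_mul]
    have := abs_le_kn k j
    gcongr
  have h3 : kn k ≤ (1 + kn k) ^ r := by
    calc kn k ≤ (1 + kn k) ^ 1 := by rw [pow_one]; linarith
      _ ≤ _ := pow_le_pow_right₀ h1 hr
  have hs : 0 ≤ ∑ j, |m j| := Finset.sum_nonneg fun j _ => abs_nonneg _
  have := Real.pi_pos
  calc 2 * Real.pi * |kd k m| ≤ 2 * Real.pi * (kn k * ∑ j, |m j|) := by gcongr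
    _ = 2 * Real.pi * (∑ j, |m j|) * kn k := by ring
    _ ≤ _ := by gcongr

/-- uniqueness -/
theorem uniqL {Lo : (V → ℝ) → V → ℝ} {D : K3 → ℂ} {Cd : ℝ} {r : ℕ} (hL : Symb Lo D)
    (hD : PolC Cd r D) (hr : 1 ≤ r) {T : ℝ} {u u' : ℝ → V → V} {p p' : ℝ → V → ℝ}
    (h : IsSolL Lo (Ico 0 T) u p) (h' : IsSolL Lo (Ico 0 T) u' p') (h0 : u 0 = u' 0) :
    ∀ t ∈ Ico 0 T, u t = u' t := by
  intro t ht
  have h1 := h.toC hL
  have h2 := h'.toC hL
  rw [← h0] at h2
  have h3 := uniq (η := fun _ _ _ => 1) (isWeight_rwt one1_le)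
    (fun k => by rw [re_Dm]; exact hL.nonneg k)
    (polC_Dm hD (mn (u 0)) hr) (by simp) h1 h2 (by
      show sb (mn (u 0)) (u 0) = sb (mn (u 0)) (u' 0)
      rw [h0]) t ht
  funext x i
  have h4 := congrFun (congrFun h3 x) i
  simp only [sb] at h4
  linarith

end Pool.Agent.H226.DE
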