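import Pool.Agent.H226.DE.Lim
import Pool.Agent.H226.SW.Sol

/-!
Smoothness of the limit, with bounds which may grow in time.
-/

open MeasureTheory Set Filter Topology
open scoped ENNReal NNReal ContDiff
open H459R3.NS Pool.Agent.X96.HT
open Pool.Agent.X96.DM hiding LL Fk Fk_apply exists_lim TT_all exists_sol
open Pool.Agent.H356R3.NS (SFam RD TT pw pw_pos one_le_pw pw_sub cvv SF)

namespace Pool.Agent.H226.DE

/-- bounded smooth functions of the time -/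
def TB : ℕ → (ℝ → ℂ) → Prop
  | 0, φ => Continuous φ ∧ ∃ C, ∀ t, ‖φ t‖ ≤ C
  | n + 1, φ => (Continuous φ ∧ ∃ C, ∀ t, ‖φ t‖ ≤ C) ∧
      ∃ φ' : ℝ → ℂ, (∀ t, HasDerivAt φ (φ' t) t) ∧ TB n φ'

lemma TB.bd {n : ℕ} {φ : ℝ → ℂ} (h : TB n φ) : Continuous φ ∧ ∃ C, ∀ t, ‖φ t‖ ≤ C := by
  cases n with
  | zero => exact h
  | succ n => exact h.1

lemma TB.pred {n : ℕ} : ∀ {φ : ℝ → ℂ}, TB (n + 1) φ → TB n φ := by
  induction n with
  | zero => intro φ h; exact h.1
  | succ n ih =>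
    intro φ h
    obtain ⟨h1, φ', h2, h3⟩ := h
    exact ⟨h1, φ', h2, ih h3⟩

lemma RD_tmul {φ : ℝ → ℂ} {C : ℝ} (hφ : ∀ t, ‖φ t‖ ≤ C) {c : SFam} (hc : RD c) :
    RD fun k t => φ t * c k t := by
  intro m
  obtain ⟨b, hb, h⟩ := hc m
  have hC : 0 ≤ C := (norm_nonneg _).trans (hφ 0)
  refine ⟨fun k => C * b k, hb.mul_left C, fun k t => ?_⟩
  rw [norm_mul]
  have h1 := h k t
  have h2 := pow_pos (pw_pos k) m
  calc pw k ^ m * (‖φ t‖ * ‖c k t‖) = ‖φ t‖ * (pw k ^ m * ‖c k t‖) := by ring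
    _ ≤ C * b k := mul_le_mul (hφ t) h1 (by positivity) hC

lemma TT.tmul {n : ℕ} : ∀ {φ : ℝ → ℂ} {c : SFam}, TB n φ → TT n c →
    TT n fun k t => φ t * c k t := by
  induction n with
  | zero =>
    intro φ c hφ hc
    obtain ⟨h1, C, h2⟩ := hφ
    exact ⟨RD_tmul h2 hc.1, fun k => h1.mul (hc.2 k)⟩
  | succ n ih =>
    intro φ c hφ hc
    have hφ' := hφ
    have hc' := hc
    obtain ⟨⟨h1, C, h2⟩, φ', h3, h4⟩ := hφ
    obtain ⟨g1, g2, c', g3, g4⟩ := hc
    refine ⟨RD_tmul h2 g1, fun k => h1.mul (g2 k), fun k t => φ' t * c k t + φ t * c' k t,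
      fun k t ht => (h3 t).mul (g3 k t ht), ?_⟩
    exact Pool.Agent.H356R3.NS.TT.add (ih h4 (Pool.Agent.H356R3.NS.TT.pred hc')) (ih hφ'.pred g4)

lemma deriv_zero_of_const {ψ : ℝ → ℝ} {U : Set ℝ} (hU : IsOpen U) {c : ℝ}
    (h : ∀ t ∈ U, ψ t = c) {t : ℝ} (ht : t ∈ U) : deriv ψ t = 0 := by
  have h1 : ψ =ᶠ[𝓝 t] fun _ => c := by
    filter_upwards [hU.mem_nhds ht] with s hs
    exact h s hs
  rw [h1.deriv_eq]
  simp

lemma TB_of_const {T₀ T₁ : ℝ} (n : ℕ) : ∀ {ψ : ℝ → ℝ} {c c' : ℝ}, ContDiff ℝ ∞ ψ →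
    (∀ t < T₀, ψ t = c) → (∀ t > T₁, ψ t = c') → TB n fun t => (ψ t : ℂ) := by
  have hb : ∀ {ψ : ℝ → ℝ} {c c' : ℝ}, ContDiff ℝ ∞ ψ → (∀ t < T₀, ψ t = c) →
      (∀ t > T₁, ψ t = c') → Continuous (fun t => (ψ t : ℂ)) ∧ ∃ C, ∀ t, ‖(ψ t : ℂ)‖ ≤ C := by
    intro ψ c c' hψ h1 h2
    refine ⟨Complex.continuous_ofReal.comp hψ.continuous, ?_⟩
    obtain ⟨C, hC⟩ := (isCompact_Icc (a := T₀) (b := T₁)).exists_bound_of_continuousOn
      (f := ψ) hψ.continuous.continuousOn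
    refine ⟨max C (max |c| |c'|), fun t => ?_⟩
    rw [Complex.norm_real, Real.norm_eq_abs]
    rcases lt_or_ge t T₀ with ht | ht
    · rw [h1 t ht]
      exact (le_max_left _ _).trans (le_max_right _ _)
    · rcases lt_or_ge T₁ t with ht' | ht'
      · rw [h2 t ht']
        exact (le_max_right _ _).trans (le_max_right _ _)
      · exact (hC t ⟨ht, ht'⟩).trans (le_max_left _ _)
  induction n with
  | zero => intro ψ c c' hψ h1 h2; exact hb hψ h1 h2
  | succ n ih =>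
    intro ψ c c' hψ h1 h2
    refine ⟨hb hψ h1 h2, fun t => ((deriv ψ t : ℝ) : ℂ), fun t => ?_, ?_⟩
    · exact ((hψ.differentiable (by simp) t).hasDerivAt).ofReal_comp
    · refine ih (ψ := deriv ψ) (c := 0) (c' := 0) ?_ (fun t ht => ?_) fun t ht => ?_
      · exact (contDiff_infty_iff_deriv.1 hψ).2
      · exact deriv_zero_of_const isOpen_Iio (fun s hs => h1 s hs) ht
      · exact deriv_zero_of_const isOpen_Ioi (fun s hs => h2 s hs) ht

/-- the change of the time -/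
noncomputable def th (T t : ℝ) : ℝ :=
  t * Real.smoothTransition (T + 1 - t) + (T + 1) * (1 - Real.smoothTransition (T + 1 - t))

lemma th_eq {T t : ℝ} (h : t ≤ T) : th T t = t := by
  unfold th
  rw [Real.smoothTransition.one_of_one_le (by linarith)]
  ring

lemma th_le (T t : ℝ) : th T t ≤ T + 1 := by
  unfold th
  have h1 := Real.smoothTransition.nonneg (T + 1 - t)
  rcases le_or_gt t (T + 1) with h | h
  · have : t * Real.smoothTransition (T + 1 - t) ≤ (T + 1) * Real.smoothTransition (T + 1 - t) := by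
      gcongr
    linarith
  · rw [Real.smoothTransition.zero_of_nonpos (by linarith)]
    linarith

lemma th_pos {T t : ℝ} (hT : 0 ≤ T) (ht : 0 < t) : 0 < th T t := by
  unfold th
  have h1 := Real.smoothTransition.nonneg (T + 1 - t)
  have h2 := Real.smoothTransition.le_one (T + 1 - t)
  rcases h2.eq_or_lt with h | h
  · rw [h]
    linarith
  · have h3 : 0 ≤ t * Real.smoothTransition (T + 1 - t) := by positivity
    have h4 : 0 < (T + 1) * (1 - Real.smoothTransition (T + 1 - t)) :=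
      mul_pos (by linarith) (by linarith)
    linarith

lemma th_smooth (T : ℝ) : ContDiff ℝ ∞ (th T) := by
  unfold th
  have h1 : ContDiff ℝ ∞ fun t : ℝ => Real.smoothTransition (T + 1 - t) :=
    (Real.smoothTransition.contDiff (n := ⊤)).comp (contDiff_const.sub contDiff_id)
  exact (contDiff_id.mul h1).add (contDiff_const.mul (contDiff_const.sub h1))

lemma th_deriv (T t : ℝ) : HasDerivAt (th T) (deriv (th T) t) t :=
  ((th_smooth T).differentiable (by simp) t).hasDerivAt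

lemma th_TB (T : ℝ) (n : ℕ) : TB n fun t => ((deriv (th T) t : ℝ) : ℂ) := by
  refine TB_of_const (T₀ := T) (T₁ := T + 1) (c := 1) (c' := 0) n
    (contDiff_infty_iff_deriv.1 (th_smooth T)).2 (fun t ht => ?_) fun t ht => ?_
  · have h1 : th T =ᶠ[𝓝 t] fun s => s := by
      filter_upwards [Iio_mem_nhds ht] with s hs
      exact th_eq (le_of_lt hs)
    rw [h1.deriv_eq]
    simp
  · refine deriv_zero_of_const (U := Ioi (T + 1)) isOpen_Ioi (c := T + 1) (fun s hs => ?_) ht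
    unfold th
    rw [Real.smoothTransition.zero_of_nonpos (by linarith [mem_Ioi.1 hs])]
    ring

open Pool.Agent.H226.SW hiding Fk Fk_apply Pol D_bw L2 norm_visc norm_Fk_le Fk_sub_le exists_lim

variable {η : Md → Md → Md → ℝ} {D : K3 → ℂ} {Cd : ℝ} {r : ℕ} {Λ : Set K3}

open Classical in
lemma TT_gen (hη : IsWeight η) (hD : PolC Cd r D) {φ : ℝ → ℝ}
    (hφ : ∀ n, TB n fun t => (φ t : ℂ)) {a : ℝ → K3 → C3} {B : ℕ → ℝ}
    (h0 : ∀ t, a t 0 = 0) (haΛ : ∀ t, ∀ k ∉ Λ, a t k = 0)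
    (hB : ∀ t k m, kn k ^ m * ‖a t k‖ ^ 2 ≤ B m) (hc : ∀ k, Continuous fun t => a t k)
    (hd : ∀ t, 0 < t → ∀ k ∈ Λ, HasDerivAt (fun s => a s k) (φ t • Fk η D (a t) k) t) (n : ℕ) :
    ∀ i, TT n fun k t => a t k i := by
  obtain ⟨H, hH⟩ := hη.bdd
  have hCd := hD.nonneg
  have hrd := rd_of_bd h0 hB
  have hci : ∀ i k, Continuous fun t => a t k i := fun i k => (continuous_apply i).comp (hc k)
  have hab : ∀ t k, ‖a t k‖ ≤ be6 (Real.sqrt (B 12)) k := fun t k =>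
    le_be6 (fun hk => by rw [hk]; exact h0 t) (hB t k)
  induction n with
  | zero => intro i; exact ⟨hrd i, hci i⟩
  | succ n ih =>
    intro i
    refine ⟨hrd i, hci i, fun k t => (φ t : ℂ) * ((if k ∈ Λ then -(D k) else 0) * a t k i
      + ∑ j, ∑ m, (if k ∈ Λ then (-1 : ℂ) else 0)
        * cvw (Mb η i j m) (fun k t => a t k j) (fun k t => a t k m) k t),
      fun k t ht => ?_, ?_⟩
    · by_cases hk : k ∈ Λ
      · have h1 := (hasDerivAt_pi.1 (hd t ht k hk)) i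
        refine h1.congr_deriv ?_
        rw [Pi.smul_apply, Fk_apply, nonl_expand hH (be6_summable (Real.sqrt_nonneg _)) hab]
        simp only [if_pos hk, neg_mul, one_mul, Finset.sum_neg_distrib, Complex.real_smul]
        ring
      · have h1 : (fun s => a s k i) = fun _ => 0 := by
          funext s; rw [haΛ s k hk]; rfl
        show HasDerivAt (fun s => a s k i) _ t
        rw [h1]
        simp only [if_neg hk, zero_mul, Finset.sum_const_zero, add_zero, mul_zero]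
        exact hasDerivAt_const _ _
    · refine TT.tmul (hφ n) (Pool.Agent.H356R3.NS.TT.add
        (Pool.Agent.H356R3.NS.TT.mul (C := Cd * 2 ^ r) (r := r) (fun k => ?_) (ih i)) ?_)
      · have h2 := pw_pos k
        have h3 : ‖(if k ∈ Λ then -(D k) else 0)‖ ≤ ‖D k‖ := by
          split_ifs
          · rw [norm_neg]
          · rw [norm_zero]; exact norm_nonneg _
        refine h3.trans ((hD k).trans ?_)
        have h4 := kn_le_pw k
        have h5 := one_le_pw k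
        have h6 := kn_nonneg k
        calc Cd * (1 + kn k) ^ r ≤ Cd * (2 * pw k) ^ r := by
              gcongr
              linarith
          _ = _ := by rw [mul_pow]; ring
      · refine Pool.Agent.H356R3.NS.TT.sum _ fun j _ => Pool.Agent.H356R3.NS.TT.sum _ fun m _ => ?_
        exact Pool.Agent.H356R3.NS.TT.mul (C := 1) (r := 0) (fun k => by split_ifs <;> simp)
          (TT.cvw (norm_Mb_le hH i j m) (ih j) (ih m))

/-- smooth families, locally uniformly in time -/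
def TL (c : SFam) : Prop := ∀ T, 0 ≤ T → ∃ c' : SFam, (∀ n, TT n c') ∧
  ∀ t ∈ Icc 0 T, ∀ k, c' k t = c k t

lemma TT_th (hη : IsWeight η) (hD : PolC Cd r D) {a : ℝ → K3 → C3} {B : ℝ → ℕ → ℝ}
    (h0 : ∀ t, a t 0 = 0) (haΛ : ∀ t, ∀ k ∉ Λ, a t k = 0)
    (hB : ∀ T, 0 ≤ T → ∀ t ≤ T, ∀ k m, kn k ^ m * ‖a t k‖ ^ 2 ≤ B T m)
    (hc : ∀ k, Continuous fun t => a t k)
    (hd : ∀ t, 0 < t → ∀ k ∈ Λ, HasDerivAt (fun s => a s k) (Fk η D (a t) k) t) {T : ℝ}
    (hT : 0 ≤ T) (n : ℕ) (i : Fin 3) : TT n fun k t => a (th T t) k i := by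
  refine TT_gen (η := η) (Λ := Λ) (B := B (T + 1)) hη hD (φ := deriv (th T)) (th_TB T)
    (a := fun t => a (th T t)) (fun t => h0 _) (fun t => haΛ _)
    (fun t k m => hB (T + 1) (by linarith) _ (th_le T t) k m)
    (fun k => (hc k).comp (th_smooth T).continuous) (fun t ht k hk => ?_) n i
  exact (hd (th T t) (th_pos hT ht) k hk).scomp t (th_deriv T t)

lemma TL_of (hη : IsWeight η) (hD : PolC Cd r D) {a : ℝ → K3 → C3} {B : ℝ → ℕ → ℝ}
    (h0 : ∀ t, a t 0 = 0) (haΛ : ∀ t, ∀ k ∉ Λ, a t k = 0)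
    (hB : ∀ T, 0 ≤ T → ∀ t ≤ T, ∀ k m, kn k ^ m * ‖a t k‖ ^ 2 ≤ B T m)
    (hc : ∀ k, Continuous fun t => a t k)
    (hd : ∀ t, 0 < t → ∀ k ∈ Λ, HasDerivAt (fun s => a s k) (Fk η D (a t) k) t) (i : Fin 3) :
    TL fun k t => a t k i := by
  intro T hT
  refine ⟨fun k t => a (th T t) k i, fun n => TT_th hη hD h0 haΛ hB hc hd hT n i,
    fun t ht k => ?_⟩
  show a (th T t) k i = a t k i
  rw [th_eq ht.2]

lemma TL.add {c d : SFam} (hc : TL c) (hd : TL d) : TL fun k t => c k t + d k t := by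
  intro T hT
  obtain ⟨c', h1, h2⟩ := hc T hT
  obtain ⟨d', g1, g2⟩ := hd T hT
  refine ⟨fun k t => c' k t + d' k t, fun n => Pool.Agent.H356R3.NS.TT.add (h1 n) (g1 n),
    fun t ht k => ?_⟩
  simp only [h2 t ht k, g2 t ht k]

lemma TL.mul {c : SFam} (hc : TL c) {p : K3 → ℂ} {C : ℝ} {r : ℕ}
    (hp : ∀ k, ‖p k‖ ≤ C * pw k ^ r) : TL fun k t => p k * c k t := by
  intro T hT
  obtain ⟨c', h1, h2⟩ := hc T hT
  refine ⟨fun k t => p k * c' k t, fun n => Pool.Agent.H356R3.NS.TT.mul hp (h1 n),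
    fun t ht k => ?_⟩
  simp only [h2 t ht k]

lemma TL.conv {c d : SFam} (hc : TL c) (hd : TL d) : TL (cvv c d) := by
  intro T hT
  obtain ⟨c', h1, h2⟩ := hc T hT
  obtain ⟨d', g1, g2⟩ := hd T hT
  refine ⟨cvv c' d', fun n => Pool.Agent.H356R3.NS.TT.conv (h1 n) (g1 n), fun t ht k => ?_⟩
  unfold cvv
  simp only [h2 t ht, g2 t ht]

lemma TL.sum {ι : Type*} (s : Finset ι) {f : ι → SFam} (h : ∀ i ∈ s, TL (f i)) :
    TL fun k t => ∑ i ∈ s, f i k t := by
  intro T hT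
  have h' : ∀ i, ∃ c' : SFam, i ∈ s → (∀ n, TT n c') ∧ ∀ t ∈ Icc 0 T, ∀ k, c' k t = f i k t := by
    intro i
    by_cases hi : i ∈ s
    · obtain ⟨c', h1⟩ := h i hi T hT
      exact ⟨c', fun _ => h1⟩
    · exact ⟨f i, fun hn => absurd hn hi⟩
  choose c' hc' using h'
  refine ⟨fun k t => ∑ i ∈ s, c' i k t,
    fun n => Pool.Agent.H356R3.NS.TT.sum s fun i hi => (hc' i hi).1 n, fun t ht k => ?_⟩
  exact Finset.sum_congr rfl fun i hi => (hc' i hi).2 t ht k

/-- local functions are smooth -/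
lemma contDiffOn_glue {f : ℝ × V → ℂ} (h : ∀ T, 0 ≤ T → ∃ g : ℝ × V → ℂ,
    ContDiffOn ℝ ∞ g (Ici 0 ×ˢ univ) ∧ ∀ t ∈ Icc 0 T, ∀ x, g (t, x) = f (t, x)) :
    ContDiffOn ℝ ∞ f (Ici 0 ×ˢ univ) := by
  intro z hz
  obtain ⟨g, h1, h2⟩ := h (z.1 + 1) (by have := hz.1; simp only [mem_Ici] at this; linarith)
  have hz0 : 0 ≤ z.1 := hz.1
  refine (h1 z hz).congr_of_eventuallyEq ?_ ?_
  · have h3 : ∀ᶠ w in 𝓝[Ici 0 ×ˢ univ] z, w.1 < z.1 + 1 := by
      refine nhdsWithin_le_nhds ?_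
      exact continuous_fst.continuousAt.eventually_lt continuousAt_const (by simp)
    filter_upwards [h3, self_mem_nhdsWithin] with w hw hw2
    exact (h2 w.1 ⟨hw2.1, hw.le⟩ w.2).symm
  · exact (h2 z.1 ⟨hz0, by linarith⟩ z.2).symm

lemma TL.smooth {c : SFam} (hc : TL c) : ContDiffOn ℝ ∞ (SF c) (Ici 0 ×ˢ univ) := by
  refine contDiffOn_glue fun T hT => ?_
  obtain ⟨c', h1, h2⟩ := hc T hT
  refine ⟨SF c', Pool.Agent.H356R3.NS.SF_contDiffOn h1, fun t ht x => ?_⟩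
  unfold SF
  simp only [h2 t ht]

end Pool.Agent.H226.DE
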