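import Pool.Agent.H226.DE.ResI

/-! Borel-Cantelli for countably many linear forms (proved by helper253). -/

set_option autoImplicit false

open MeasureTheory Set
open scoped BigOperators

namespace Pool.Agent.H226.DE.Res

namespace BCAux

variable {I : Type} [Fintype I] [DecidableEq I]

/-- the shear -/
noncomputable def mat (V : I → ℝ) (j : I) : Matrix I I ℝ := (1 : Matrix I I ℝ).updateRow j V

theorem det_mat (V : I → ℝ) (j : I) : (mat V j).det = V j := by
  unfold mat
  rw [← Matrix.det_transpose, ← Matrix.updateCol_transpose, Matrix.transpose_one,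
    ← Matrix.cramer_apply, Matrix.cramer_one]
  rfl

theorem mat_j (V : I → ℝ) (j : I) (α : I → ℝ) :
    (mat V j).mulVec α j = ∑ m, α m * V m := by
  unfold mat
  rw [Matrix.mulVec, Matrix.updateRow_self]
  exact Finset.sum_congr rfl fun m _ => mul_comm _ _

theorem mat_m (V : I → ℝ) (j : I) (α : I → ℝ) (m : I) (hm : m ≠ j) :
    (mat V j).mulVec α m = α m := by
  unfold mat
  rw [Matrix.mulVec, Matrix.updateRow_ne hm]
  have h := congrFun (Matrix.one_mulVec α) m
  rw [Matrix.mulVec] at h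
  exact h

theorem vol_le (V : I → ℝ) (a₀ δ A : ℝ) (j : I) (hV : V j ≠ 0) :
    volume ({α : I → ℝ | ∀ m, |α m| ≤ A} ∩ {α : I → ℝ | |a₀ + ∑ m, α m * V m| ≤ δ}) ≤
      ENNReal.ofReal (2 * (δ / |V j|)) * ENNReal.ofReal (2 * A) ^ (Fintype.card I - 1) := by
  have hdet : LinearMap.det (Matrix.toLin' (mat V j)) ≠ 0 := by
    rw [LinearMap.det_toLin', det_mat]; exact hV
  set S : Set (I → ℝ) := Set.pi univ fun m => if m = j then Icc (-a₀ - δ) (-a₀ + δ) else
    Icc (-A) A with hS
  have hsub : ({α : I → ℝ | ∀ m, |α m| ≤ A} ∩ {α : I → ℝ | |a₀ + ∑ m, α m * V m| ≤ δ}) ⊆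
      (Matrix.toLin' (mat V j)) ⁻¹' S := by
    rintro α ⟨h1, h2⟩
    rw [mem_preimage, Matrix.toLin'_apply, hS]
    intro m _
    by_cases hm : m = j
    · subst hm
      simp only [if_true]
      rw [mat_j]
      have h2' : |a₀ + ∑ m, α m * V m| ≤ δ := h2
      have h3 := abs_le.1 h2'
      constructor <;> linarith [h3.1, h3.2]
    · simp only [if_neg hm]
      rw [mat_m V j α m hm]
      have h3 := abs_le.1 (h1 m)
      exact ⟨h3.1, h3.2⟩
  refine (measure_mono hsub).trans ?_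
  rw [Measure.addHaar_preimage_linearMap _ hdet, LinearMap.det_toLin', det_mat, hS, volume_pi_pi,
    ← Finset.mul_prod_erase Finset.univ _ (Finset.mem_univ j)]
  simp only [if_true]
  have h1 : ∏ x ∈ Finset.univ.erase j, volume (if x = j then Icc (-a₀ - δ) (-a₀ + δ) else
      Icc (-A) A) = ENNReal.ofReal (2 * A) ^ (Fintype.card I - 1) := by
    rw [Finset.prod_congr rfl (g := fun _ => ENNReal.ofReal (2 * A)), Finset.prod_const,
      Finset.card_erase_of_mem (Finset.mem_univ j), Finset.card_univ]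
    intro x hx
    rw [if_neg (Finset.ne_of_mem_erase hx), Real.volume_Icc]
    congr 1
    ring
  rw [h1, Real.volume_Icc, ← mul_assoc]
  refine mul_le_mul' ?_ le_rfl
  rw [← ENNReal.ofReal_mul (abs_nonneg _)]
  apply le_of_eq
  congr 1
  rw [abs_inv]
  ring

end BCAux

theorem s_bc : S_bc := by
  intro I _ ι _ V a₀ δ j hδ hV hs
  classical
  have h1 : ∀ A : ℕ, ∀ᵐ α : I → ℝ, {i | α ∈ {α : I → ℝ | ∀ m, |α m| ≤ (A : ℝ)} ∩
      {α : I → ℝ | |a₀ i + ∑ m, α m * V i m| ≤ δ i}}.Finite := by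
    intro A
    apply ae_finite_setOfPred_mem
    have h2 : ∑' i, ENNReal.ofReal (2 * (δ i / |V i (j i)|)) *
        ENNReal.ofReal (2 * (A : ℝ)) ^ (Fintype.card I - 1) ≠ ⊤ := by
      rw [ENNReal.tsum_mul_right]
      exact ENNReal.mul_ne_top (hs.mul_left 2).tsum_ofReal_ne_top
        (ENNReal.pow_ne_top ENNReal.ofReal_ne_top)
    exact ne_top_of_le_ne_top h2 (ENNReal.tsum_le_tsum fun i =>
      BCAux.vol_le (V i) (a₀ i) (δ i) A (j i) (hV i))
  rw [← ae_all_iff] at h1
  filter_upwards [h1] with α hα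
  obtain ⟨A, hA⟩ := exists_nat_ge (∑ m, |α m|)
  refine (hα A).subset fun i hi => ⟨fun m => ?_, hi⟩
  exact (Finset.single_le_sum (f := fun m => |α m|) (fun m _ => abs_nonneg _)
    (Finset.mem_univ m)).trans hA

end Pool.Agent.H226.DE.Res
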