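import Pool.Agent.H226.DE.ResI

open MeasureTheory Set
open scoped BigOperators

namespace Pool.Agent.H226.DE.Res

/-- the one-dimensional sum -/
lemma summ_one : Summable fun m : ℤ => (1 + |(m : ℝ)|) ^ (-(7 / 6) : ℝ) := by
  have h1 : Summable fun m : ℤ => |(m : ℝ)| ^ (-(7 / 6) : ℝ) :=
    Real.summable_abs_int_rpow (by norm_num)
  have h2 : Summable fun m : ℤ => if m = 0 then (1 : ℝ) else 0 :=
    summable_of_ne_finset_zero (s := {0}) fun m hm => by
      rw [if_neg (by simpa using hm)]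
  refine Summable.of_nonneg_of_le (fun m => by positivity) (fun m => ?_) (h1.add h2)
  by_cases hm : m = 0
  · subst hm
    simp only [Int.cast_zero, abs_zero, add_zero, Real.one_rpow, if_true]
    have : (0 : ℝ) ≤ 0 ^ (-(7 / 6) : ℝ) := by positivity
    linarith
  · rw [if_neg hm, add_zero]
    have h3 : (0 : ℝ) < |(m : ℝ)| := abs_pos.2 (by exact_mod_cast hm)
    exact Real.rpow_le_rpow_of_nonpos h3 (by linarith) (by norm_num)

lemma abs_le_len (k : Fin 3 → ℤ) (j : Fin 3) : |(k j : ℝ)| ≤ len k := by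
  unfold len
  refine Real.abs_le_sqrt ?_
  exact Finset.single_le_sum (f := fun j => (k j : ℝ) ^ 2)
    (fun i _ => sq_nonneg _) (Finset.mem_univ j)

theorem s_summ : S_summ := by
  unfold S_summ
  obtain ⟨f, hf⟩ : ∃ f : ℤ → ℝ, f = fun m : ℤ => (1 + |(m : ℝ)|) ^ (-(7 / 6) : ℝ) := ⟨_, rfl⟩
  have hs : Summable f := by rw [hf]; exact summ_one
  have hf0 : ∀ m, 0 ≤ f m := fun m => by rw [hf]; positivity
  have h2 := hs.mul_of_nonneg hs hf0 hf0
  have h2' : ∀ x : ℤ × ℤ, 0 ≤ f x.1 * f x.2 := fun x => mul_nonneg (hf0 _) (hf0 _)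
  have h3 := hs.mul_of_nonneg h2 hf0 h2'
  have h3' : ∀ x : ℤ × ℤ × ℤ, 0 ≤ f x.1 * (f x.2.1 * f x.2.2) := fun x =>
    mul_nonneg (hf0 _) (h2' _)
  have h6 := h3.mul_of_nonneg h3 h3' h3'
  -- the injection
  have hinj : Function.Injective (fun z : {z : (Fin 3 → ℤ) × (Fin 3 → ℤ) //
      z.1 ≠ 0 ∧ z.2 ≠ 0 ∧ z.1 - z.2 ≠ 0} =>
        (((z.1.1 0, z.1.1 1, z.1.1 2), (z.1.2 0, z.1.2 1, z.1.2 2)) :
          (ℤ × ℤ × ℤ) × (ℤ × ℤ × ℤ))) := by
    intro z z' h
    simp only [Prod.mk.injEq] at h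
    obtain ⟨⟨a0, a1, a2⟩, b0, b1, b2⟩ := h
    apply Subtype.ext
    apply Prod.ext
    · funext j
      fin_cases j
      · exact a0
      · exact a1
      · exact a2
    · funext j
      fin_cases j
      · exact b0
      · exact b1
      · exact b2
  refine Summable.of_nonneg_of_le (fun z => ?_) (fun z => ?_)
    ((h6.comp_injective hinj).mul_left (2 ^ 7))
  · have := mxl_ge_one (z := z.1) z.2.1
    positivity
  · have hM := mxl_ge_one (z := z.1) z.2.1
    obtain ⟨M, hMd⟩ : ∃ M, M = mxl z.1 := ⟨_, rfl⟩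
    rw [← hMd] at hM ⊢
    obtain ⟨g, hg⟩ : ∃ g : ℝ, g = (2 * M) ^ (-(7 / 6) : ℝ) := ⟨_, rfl⟩
    have hg0 : 0 ≤ g := by rw [hg]; positivity
    have key : ∀ m : ℤ, |(m : ℝ)| ≤ M → g ≤ f m := by
      intro m hm
      rw [hg, hf]
      exact Real.rpow_le_rpow_of_nonpos (by positivity) (by linarith) (by norm_num)
    have hk : ∀ j, |(z.1.1 j : ℝ)| ≤ M := fun j => (abs_le_len _ j).trans (by
      rw [hMd]; exact le_max_left _ _)
    have hp : ∀ j, |(z.1.2 j : ℝ)| ≤ M := fun j => (abs_le_len _ j).trans (by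
      rw [hMd]; exact le_trans (le_max_left _ _) (le_max_right _ _))
    have hg6 : g ^ 6 = 1 / (2 * M) ^ 7 := by
      rw [hg, ← Real.rpow_natCast, ← Real.rpow_mul (by positivity)]
      norm_num
    have hfin : 1 / M ^ 7 = 2 ^ 7 * ((g * (g * g)) * (g * (g * g))) := by
      have : (g * (g * g)) * (g * (g * g)) = g ^ 6 := by ring
      rw [this, hg6]
      field_simp

    rw [hfin]
    simp only [Function.comp]
    refine mul_le_mul_of_nonneg_left ?_ (by norm_num)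
    have A : g * (g * g) ≤ f (z.1.1 0) * (f (z.1.1 1) * f (z.1.1 2)) :=
      mul_le_mul (key _ (hk 0)) (mul_le_mul (key _ (hk 1)) (key _ (hk 2)) hg0 (hf0 _))
        (mul_nonneg hg0 hg0) (hf0 _)
    have B : g * (g * g) ≤ f (z.1.2 0) * (f (z.1.2 1) * f (z.1.2 2)) :=
      mul_le_mul (key _ (hp 0)) (mul_le_mul (key _ (hp 1)) (key _ (hp 2)) hg0 (hf0 _))
        (mul_nonneg hg0 hg0) (hf0 _)
    exact mul_le_mul A B (mul_nonneg hg0 (mul_nonneg hg0 hg0))
      (mul_nonneg (hf0 _) (mul_nonneg (hf0 _) (hf0 _)))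

end Pool.Agent.H226.DE.Res
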