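import Pool.Agent.H226.DE.ResI

/-!
Proof of `S_triad`: every triad of nonzero integer vectors has a large coefficient.
-/

set_option autoImplicit false

open scoped BigOperators

namespace Pool.Agent.H226.DE.Res.Triad

lemma three {u v s e1 e2 e3 δ E : ℝ} (hu : |u| ≤ δ) (hv : |v| ≤ δ) (hs : |s| ≤ δ)
    (h1 : |e1| ≤ E) (h2 : |e2| ≤ E) (h3 : |e3| ≤ E) :
    |u * e1 + v * e2 + s * e3| ≤ 3 * (δ * E) := by
  have hδ : 0 ≤ δ := (abs_nonneg _).trans hu
  have a1 : |u * e1| ≤ δ * E := by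
    rw [abs_mul]
    exact mul_le_mul hu h1 (abs_nonneg _) hδ
  have a2 : |v * e2| ≤ δ * E := by
    rw [abs_mul]
    exact mul_le_mul hv h2 (abs_nonneg _) hδ
  have a3 : |s * e3| ≤ δ * E := by
    rw [abs_mul]
    exact mul_le_mul hs h3 (abs_nonneg _) hδ
  have b1 := abs_add_le (u * e1 + v * e2) (s * e3)
  have b2 := abs_add_le (u * e1) (v * e2)
  linarith

lemma cube {a b : ℝ} (ha0 : 0 ≤ a) (ha : a ≤ 6) (hb0 : 0 ≤ b) (hb : b ≤ 6) :
    |a - b| ≤ 216 ∧ |a ^ 2 - b ^ 2| ≤ 216 ∧ |a * b * (a - b)| ≤ 216 := by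
  have h1 : |a - b| ≤ 6 := by
    rw [abs_le]
    constructor <;> linarith
  refine ⟨by linarith, ?_, ?_⟩
  · rw [abs_le]
    constructor <;> nlinarith
  · rw [abs_mul, abs_of_nonneg (mul_nonneg ha0 hb0)]
    have h2 : a * b ≤ 6 * 6 := mul_le_mul ha hb hb0 (by norm_num)
    have h3 : a * b * |a - b| ≤ (6 * 6) * 6 := mul_le_mul h2 h1 (abs_nonneg _) (by norm_num)
    linarith

lemma le_of_det {w D B : ℝ} (hD : 1 ≤ |D|) (h : |w * D| ≤ B) : |w| ≤ B := by
  rw [abs_mul] at h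
  have : |w| ≤ |w| * |D| := le_mul_of_one_le_right (abs_nonneg _) hD
  linarith

lemma lagr {w0 w1 w2 δ : ℝ} {t1 t2 t3 : ℕ} (h12 : t1 ≠ t2) (h13 : t1 ≠ t3) (h23 : t2 ≠ t3)
    (b1 : t1 ≤ 6) (b2 : t2 ≤ 6) (b3 : t3 ≤ 6)
    (hu : |w0 + w1 * t1 + w2 * (t1 : ℝ) ^ 2| ≤ δ) (hv : |w0 + w1 * t2 + w2 * (t2 : ℝ) ^ 2| ≤ δ)
    (hs : |w0 + w1 * t3 + w2 * (t3 : ℝ) ^ 2| ≤ δ) :
    |w0| ≤ 648 * δ ∧ |w1| ≤ 648 * δ ∧ |w2| ≤ 648 * δ := by
  have c1 : (t1 : ℝ) ≤ 6 := by exact_mod_cast b1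
  have c2 : (t2 : ℝ) ≤ 6 := by exact_mod_cast b2
  have c3 : (t3 : ℝ) ≤ 6 := by exact_mod_cast b3
  have z1 : (0 : ℝ) ≤ t1 := Nat.cast_nonneg _
  have z2 : (0 : ℝ) ≤ t2 := Nat.cast_nonneg _
  have z3 : (0 : ℝ) ≤ t3 := Nat.cast_nonneg _
  obtain ⟨p1, p2, p3⟩ := cube z2 c2 z3 c3
  obtain ⟨q1, q2, q3⟩ := cube z3 c3 z1 c1
  obtain ⟨r1, r2, r3⟩ := cube z1 c1 z2 c2
  have hD : 1 ≤ |(((t1 : ℝ) - t2) * (t1 - t3) * (t2 - t3))| := by
    have h1 : (((t1 : ℝ) - t2) * (t1 - t3) * (t2 - t3)) =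
        (((((t1 : ℤ) - t2) * (t1 - t3) * (t2 - t3)) : ℤ) : ℝ) := by push_cast; ring
    rw [h1, ← Int.cast_abs]
    have h2 : (1 : ℤ) ≤ |((t1 : ℤ) - t2) * (t1 - t3) * (t2 - t3)| := by
      apply Int.one_le_abs
      refine mul_ne_zero (mul_ne_zero ?_ ?_) ?_
      · exact sub_ne_zero.mpr (by exact_mod_cast h12)
      · exact sub_ne_zero.mpr (by exact_mod_cast h13)
      · exact sub_ne_zero.mpr (by exact_mod_cast h23)
    exact_mod_cast h2
  refine ⟨le_of_det hD ?_, le_of_det hD ?_, le_of_det hD ?_⟩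
  · have h := three hu hv hs p3 q3 r3
    have e : w0 * (((t1 : ℝ) - t2) * (t1 - t3) * (t2 - t3)) =
      (w0 + w1 * t1 + w2 * (t1 : ℝ) ^ 2) * ((t2 : ℝ) * t3 * (t2 - t3)) +
      (w0 + w1 * t2 + w2 * (t2 : ℝ) ^ 2) * ((t3 : ℝ) * t1 * (t3 - t1)) +
      (w0 + w1 * t3 + w2 * (t3 : ℝ) ^ 2) * ((t1 : ℝ) * t2 * (t1 - t2)) := by ring
    rw [e]
    linarith
  · have h := three hu hv hs p2 q2 r2
    have e : w1 * (((t1 : ℝ) - t2) * (t1 - t3) * (t2 - t3)) =
      -((w0 + w1 * t1 + w2 * (t1 : ℝ) ^ 2) * ((t2 : ℝ) ^ 2 - t3 ^ 2) +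
      (w0 + w1 * t2 + w2 * (t2 : ℝ) ^ 2) * ((t3 : ℝ) ^ 2 - t1 ^ 2) +
      (w0 + w1 * t3 + w2 * (t3 : ℝ) ^ 2) * ((t1 : ℝ) ^ 2 - t2 ^ 2)) := by ring
    rw [e, abs_neg]
    linarith
  · have h := three hu hv hs p1 q1 r1
    have e : w2 * (((t1 : ℝ) - t2) * (t1 - t3) * (t2 - t3)) =
      (w0 + w1 * t1 + w2 * (t1 : ℝ) ^ 2) * ((t2 : ℝ) - t3) +
      (w0 + w1 * t2 + w2 * (t2 : ℝ) ^ 2) * ((t3 : ℝ) - t1) +
      (w0 + w1 * t3 + w2 * (t3 : ℝ) ^ 2) * ((t1 : ℝ) - t2) := by ring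
    rw [e]
    linarith

/-- the value of the polynomial of a vector -/
def fv (w : Fin 3 → ℤ) (t : ℕ) : ℤ := ∑ j, w j * (t : ℤ) ^ (j : ℕ)

lemma fv_eq (w : Fin 3 → ℤ) (t : ℕ) :
    ((fv w t : ℤ) : ℝ) = (w 0 : ℝ) + (w 1 : ℝ) * t + (w 2 : ℝ) * (t : ℝ) ^ 2 := by
  unfold fv
  rw [Fin.sum_univ_three]
  simp

/-- the bad points -/
noncomputable def bad (w : Fin 3 → ℤ) : Finset ℕ :=
  (Finset.range 7).filter fun t => ¬ (‖w‖ ≤ 649 * |(fv w t : ℝ)|)

lemma card_bad {w : Fin 3 → ℤ} (hw : w ≠ 0) : (bad w).card ≤ 2 := by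
  by_contra hcon
  push Not at hcon
  obtain ⟨t1, h1, t2, h2, t3, h3, h12, h13, h23⟩ := Finset.two_lt_card.mp hcon
  have hpos : 0 < ‖w‖ := norm_pos_iff.mpr hw
  have key : ∀ t ∈ bad w, t ≤ 6 ∧
      |(w 0 : ℝ) + (w 1 : ℝ) * t + (w 2 : ℝ) * (t : ℝ) ^ 2| ≤ ‖w‖ / 649 := by
    intro t ht
    unfold bad at ht
    rw [Finset.mem_filter, Finset.mem_range] at ht
    obtain ⟨ha, hb⟩ := ht
    refine ⟨by omega, ?_⟩
    push Not at hb
    rw [fv_eq] at hb
    rw [le_div_iff₀ (by norm_num)]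
    linarith
  obtain ⟨a0, a1, a2⟩ := lagr h12 h13 h23 (key t1 h1).1 (key t2 h2).1 (key t3 h3).1
    (key t1 h1).2 (key t2 h2).2 (key t3 h3).2
  have hle : ‖w‖ ≤ 648 * (‖w‖ / 649) := by
    rw [pi_norm_le_iff_of_nonneg (by positivity)]
    intro j
    rw [Int.norm_eq_abs]
    fin_cases j
    · exact a0
    · exact a1
    · exact a2
  linarith

lemma exists_good {k p q : Fin 3 → ℤ} (hk : k ≠ 0) (hp : p ≠ 0) (hq : q ≠ 0) :
    ∃ t : ℕ, t ≤ 6 ∧ ‖k‖ ≤ 649 * |(fv k t : ℝ)| ∧ ‖p‖ ≤ 649 * |(fv p t : ℝ)| ∧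
      ‖q‖ ≤ 649 * |(fv q t : ℝ)| := by
  classical
  have h1 : (bad k ∪ bad p ∪ bad q).card ≤ 6 := by
    have := Finset.card_union_le (bad k ∪ bad p) (bad q)
    have := Finset.card_union_le (bad k) (bad p)
    have := card_bad hk
    have := card_bad hp
    have := card_bad hq
    omega
  have h2 : ∃ t ∈ Finset.range 7, t ∉ bad k ∪ bad p ∪ bad q := by
    apply Finset.exists_mem_notMem_of_card_lt_card
    rw [Finset.card_range]
    omega
  obtain ⟨t, ht, hn⟩ := h2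
  rw [Finset.mem_union, Finset.mem_union] at hn
  push Not at hn
  obtain ⟨⟨n1, n2⟩, n3⟩ := hn
  have hh : ∀ w : Fin 3 → ℤ, t ∉ bad w → ‖w‖ ≤ 649 * |(fv w t : ℝ)| := by
    intro w hw
    by_contra hc
    apply hw
    unfold bad
    rw [Finset.mem_filter]
    exact ⟨ht, hc⟩
  rw [Finset.mem_range] at ht
  exact ⟨t, by omega, hh k n1, hh p n2, hh q n3⟩

lemma base {a b : ℝ} (ha : 1 ≤ a) (hb : 1 ≤ b) {m : ℕ} (hm : 1 ≤ m) :
    ((a + b) / 2) ^ m ≤ (a + b) ^ (m + 1) - a ^ (m + 1) - b ^ (m + 1) := by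
  have ha0 : 0 ≤ a := by linarith
  have hb0 : 0 ≤ b := by linarith
  have h1 : a ^ m + b ^ m ≤ (a + b) ^ m := by
    obtain ⟨l, rfl⟩ : ∃ l, m = l + 1 := ⟨m - 1, by omega⟩
    have p1 : a ^ l ≤ (a + b) ^ l := pow_le_pow_left₀ ha0 (by linarith) l
    have p2 : b ^ l ≤ (a + b) ^ l := pow_le_pow_left₀ hb0 (by linarith) l
    calc a ^ (l + 1) + b ^ (l + 1) = a ^ l * a + b ^ l * b := by ring
      _ ≤ (a + b) ^ l * a + (a + b) ^ l * b := by gcongr
      _ = _ := by ring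
  have h2 : ((a + b) / 2) ^ m ≤ a ^ m + b ^ m := by
    have p1 : 0 ≤ a ^ m := by positivity
    have p2 : 0 ≤ b ^ m := by positivity
    rcases le_total a b with h | h
    · have : ((a + b) / 2) ^ m ≤ b ^ m := pow_le_pow_left₀ (by linarith) (by linarith) m
      linarith
    · have : ((a + b) / 2) ^ m ≤ a ^ m := pow_le_pow_left₀ (by linarith) (by linarith) m
      linarith
  have h3 : a ^ m + b ^ m ≤ a * b ^ m + b * a ^ m := by
    have p1 : 0 ≤ a ^ m := by positivity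
    have p2 : 0 ≤ b ^ m := by positivity
    nlinarith
  have h4 : (a + b) * (a ^ m + b ^ m) ≤ (a + b) ^ (m + 1) := by
    rw [pow_succ, mul_comm]
    gcongr
  have h5 : (a + b) * (a ^ m + b ^ m) = a ^ (m + 1) + b ^ (m + 1) + (a * b ^ m + b * a ^ m) := by
    ring
  linarith

lemma triad {x y z T : ℝ} (hx : 1 ≤ |x|) (hy : 1 ≤ |y|) (hz : 1 ≤ |z|) (h : x = y + z)
    (hT0 : 0 ≤ T) (hT : T ≤ |x| ∨ T ≤ |y| ∨ T ≤ |z|) {m : ℕ} (hm : 1 ≤ m) (ho : Odd (m + 1)) :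
    (T / 2) ^ m ≤ |x ^ (m + 1) - y ^ (m + 1) - z ^ (m + 1)| := by
  -- the core: `a + b` is the largest
  have core : ∀ a b : ℝ, 1 ≤ a → 1 ≤ b → T ≤ a + b →
      (T / 2) ^ m ≤ (a + b) ^ (m + 1) - a ^ (m + 1) - b ^ (m + 1) := by
    intro a b ha hb hab
    refine le_trans ?_ (base ha hb hm)
    apply pow_le_pow_left₀ (by linarith)
    linarith
  rcases le_abs'.mp hx with hx | hx <;> rcases le_abs'.mp hy with hy | hy <;>
    rcases le_abs'.mp hz with hz | hz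
  · -- all negative
    rw [abs_of_neg (by linarith : x < 0), abs_of_neg (by linarith : y < 0),
      abs_of_neg (by linarith : z < 0)] at hT
    have h1 := core (-y) (-z) (by linarith) (by linarith) (by
      rcases hT with hT | hT | hT <;> linarith)
    rw [show -y + -z = -x by linarith, ho.neg_pow, ho.neg_pow, ho.neg_pow] at h1
    refine h1.trans ?_
    have := neg_abs_le (x ^ (m + 1) - y ^ (m + 1) - z ^ (m + 1))
    linarith
  · -- x < 0, y < 0, z > 0 : -y = -x + z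
    rw [abs_of_neg (by linarith : x < 0), abs_of_neg (by linarith : y < 0),
      abs_of_pos (by linarith : 0 < z)] at hT
    have h1 := core (-x) z (by linarith) (by linarith) (by
      rcases hT with hT | hT | hT <;> linarith)
    rw [show -x + z = -y by linarith, ho.neg_pow, ho.neg_pow] at h1
    refine h1.trans ?_
    have := le_abs_self (x ^ (m + 1) - y ^ (m + 1) - z ^ (m + 1))
    linarith
  · -- x < 0, y > 0, z < 0 : -z = -x + y
    rw [abs_of_neg (by linarith : x < 0), abs_of_pos (by linarith : 0 < y),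
      abs_of_neg (by linarith : z < 0)] at hT
    have h1 := core (-x) y (by linarith) (by linarith) (by
      rcases hT with hT | hT | hT <;> linarith)
    rw [show -x + y = -z by linarith, ho.neg_pow, ho.neg_pow] at h1
    refine h1.trans ?_
    have := le_abs_self (x ^ (m + 1) - y ^ (m + 1) - z ^ (m + 1))
    linarith
  · exact absurd h (by intro h; linarith)
  · exact absurd h (by intro h; linarith)
  · -- x > 0, y < 0, z > 0 : z = x + (-y)
    rw [abs_of_pos (by linarith : 0 < x), abs_of_neg (by linarith : y < 0),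
      abs_of_pos (by linarith : 0 < z)] at hT
    have h1 := core x (-y) (by linarith) (by linarith) (by
      rcases hT with hT | hT | hT <;> linarith)
    rw [show x + -y = z by linarith, ho.neg_pow] at h1
    refine h1.trans ?_
    have := neg_abs_le (x ^ (m + 1) - y ^ (m + 1) - z ^ (m + 1))
    linarith
  · -- x > 0, y > 0, z < 0 : y = x + (-z)
    rw [abs_of_pos (by linarith : 0 < x), abs_of_pos (by linarith : 0 < y),
      abs_of_neg (by linarith : z < 0)] at hT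
    have h1 := core x (-z) (by linarith) (by linarith) (by
      rcases hT with hT | hT | hT <;> linarith)
    rw [show x + -z = y by linarith, ho.neg_pow] at h1
    refine h1.trans ?_
    have := neg_abs_le (x ^ (m + 1) - y ^ (m + 1) - z ^ (m + 1))
    linarith
  · -- all positive
    rw [abs_of_pos (by linarith : 0 < x), abs_of_pos (by linarith : 0 < y),
      abs_of_pos (by linarith : 0 < z)] at hT
    have h1 := core y z (by linarith) (by linarith) (by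
      rcases hT with hT | hT | hT <;> linarith)
    rw [← h] at h1
    refine h1.trans ?_
    exact le_abs_self _

lemma expand (z : (Fin 3 → ℤ) × (Fin 3 → ℤ)) (t n : ℕ) :
    fv z.1 t ^ n - fv z.2 t ^ n - fv (z.1 - z.2) t ^ n =
      ∑ σ : Fin n → Fin 3, (∏ i, (t : ℤ) ^ ((σ i : Fin 3) : ℕ)) * VV z σ := by
  unfold fv VV
  rw [Fintype.sum_pow, Fintype.sum_pow, Fintype.sum_pow, ← Finset.sum_sub_distrib,
    ← Finset.sum_sub_distrib]
  apply Finset.sum_congr rfl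
  intro σ _
  rw [Finset.prod_mul_distrib, Finset.prod_mul_distrib, Finset.prod_mul_distrib]
  ring

lemma len_le (w : Fin 3 → ℤ) : len w ≤ 2 * ‖w‖ := by
  unfold len
  rw [Real.sqrt_le_left (by positivity)]
  have h : ∀ j, (w j : ℝ) ^ 2 ≤ ‖w‖ ^ 2 := by
    intro j
    have h1 := norm_le_pi_norm w j
    rw [Int.norm_eq_abs] at h1
    exact sq_le_sq' (by linarith [neg_abs_le (w j : ℝ)]) ((le_abs_self _).trans h1)
  rw [Fin.sum_univ_three]
  have := h 0
  have := h 1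
  have := h 2
  nlinarith [sq_nonneg ‖w‖]

lemma one_le_fv {w : Fin 3 → ℤ} (hw : w ≠ 0) {t : ℕ} (h : ‖w‖ ≤ 649 * |(fv w t : ℝ)|) :
    1 ≤ |(fv w t : ℝ)| := by
  have hpos : 0 < ‖w‖ := norm_pos_iff.mpr hw
  have h0 : fv w t ≠ 0 := by
    intro h0
    rw [h0] at h
    simp at h
    exact hw h
  have := Int.one_le_abs h0
  rw [← Int.cast_abs]
  exact_mod_cast this

end Pool.Agent.H226.DE.Res.Triad

namespace Pool.Agent.H226.DE.Res

open Triad

theorem s_triad : S_triad := by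
  intro n hn hn3
  obtain ⟨m, rfl⟩ : ∃ m, n = m + 1 := ⟨n - 1, by omega⟩
  have hm : 1 ≤ m := by omega
  rw [Nat.add_sub_cancel]
  refine ⟨(1 / 2596 : ℝ) ^ m / (2 * 108 ^ (m + 1)), by positivity, fun z h1 h2 h3 => ?_⟩
  obtain ⟨t, ht6, g1, g2, g3⟩ := exists_good h1 h2 h3
  by_contra hcon
  push Not at hcon
  set N : ℝ := max ‖z.1‖ (max ‖z.2‖ ‖z.1 - z.2‖) with hN
  have hN0 : 0 < N := lt_of_lt_of_le (norm_pos_iff.mpr h1) (le_max_left _ _)
  have hT : N / 649 ≤ |(fv z.1 t : ℝ)| ∨ N / 649 ≤ |(fv z.2 t : ℝ)| ∨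
      N / 649 ≤ |(fv (z.1 - z.2) t : ℝ)| := by
    have h4 : N ≤ ‖z.1‖ ∨ N ≤ ‖z.2‖ ∨ N ≤ ‖z.1 - z.2‖ := by
      rw [hN]
      rcases max_choice ‖z.1‖ (max ‖z.2‖ ‖z.1 - z.2‖) with h | h
      · left
        exact h.le
      · rcases max_choice ‖z.2‖ ‖z.1 - z.2‖ with h' | h'
        · right
          left
          exact (h.trans h').le
        · right
          right
          exact (h.trans h').le
    rcases h4 with h4 | h4 | h4
    · left
      rw [div_le_iff₀ (by norm_num)]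
      linarith
    · right
      left
      rw [div_le_iff₀ (by norm_num)]
      linarith
    · right
      right
      rw [div_le_iff₀ (by norm_num)]
      linarith
  have hsum : (fv z.1 t : ℝ) = (fv z.2 t : ℝ) + (fv (z.1 - z.2) t : ℝ) := by
    rw [fv_eq, fv_eq, fv_eq]
    simp only [Pi.sub_apply]
    push_cast
    ring
  have hlow := triad (one_le_fv h1 g1) (one_le_fv h2 g2) (one_le_fv h3 g3) hsum
    (by positivity) hT hm hn
  have hexp : (fv z.1 t : ℝ) ^ (m + 1) - (fv z.2 t : ℝ) ^ (m + 1) -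
      (fv (z.1 - z.2) t : ℝ) ^ (m + 1) =
      ∑ σ : Fin (m + 1) → Fin 3, (∏ i, (t : ℝ) ^ ((σ i : Fin 3) : ℕ)) * (VV z σ : ℝ) := by
    have h5 := expand z t (m + 1)
    have h6 := congrArg (Int.cast (R := ℝ)) h5
    push_cast at h6
    exact h6
  have hmx : mxl z ≤ 2 * N := by
    unfold mxl
    refine max_le ?_ (max_le ?_ ?_)
    · have := len_le z.1
      have h7 : ‖z.1‖ ≤ N := le_max_left _ _
      linarith
    · have := len_le z.2
      have h7 : ‖z.2‖ ≤ N := (le_max_left _ _).trans (le_max_right _ _)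
      linarith
    · have := len_le (z.1 - z.2)
      have h7 : ‖z.1 - z.2‖ ≤ N := (le_max_right _ _).trans (le_max_right _ _)
      linarith
  have hmx0 : 0 ≤ mxl z := by
    have := mxl_ge_one h1
    linarith
  have hup : |∑ σ : Fin (m + 1) → Fin 3, (∏ i, (t : ℝ) ^ ((σ i : Fin 3) : ℕ)) * (VV z σ : ℝ)| ≤
      108 ^ (m + 1) * ((1 / 2596 : ℝ) ^ m / (2 * 108 ^ (m + 1)) * (2 * N) ^ m) := by
    refine (Finset.abs_sum_le_sum_abs _ _).trans ?_
    have h8 : ∀ σ ∈ (Finset.univ : Finset (Fin (m + 1) → Fin 3)),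
        |(∏ i, (t : ℝ) ^ ((σ i : Fin 3) : ℕ)) * (VV z σ : ℝ)| ≤
        36 ^ (m + 1) * ((1 / 2596 : ℝ) ^ m / (2 * 108 ^ (m + 1)) * (2 * N) ^ m) := by
      intro σ _
      rw [abs_mul]
      have h9 : |∏ i, (t : ℝ) ^ ((σ i : Fin 3) : ℕ)| ≤ 36 ^ (m + 1) := by
        rw [Finset.abs_prod]
        calc ∏ i, |(t : ℝ) ^ ((σ i : Fin 3) : ℕ)| ≤ ∏ _i : Fin (m + 1), (36 : ℝ) := by
              apply Finset.prod_le_prod (fun _ _ => abs_nonneg _)
              intro i _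
              have ht0 : (0 : ℝ) ≤ t := Nat.cast_nonneg _
              have ht6' : (t : ℝ) ≤ 6 := by exact_mod_cast ht6
              rw [abs_of_nonneg (by positivity)]
              calc (t : ℝ) ^ ((σ i : Fin 3) : ℕ) ≤ 6 ^ ((σ i : Fin 3) : ℕ) :=
                    pow_le_pow_left₀ ht0 ht6' _
                _ ≤ 6 ^ 2 := pow_le_pow_right₀ (by norm_num) (by omega)
                _ = 36 := by norm_num
          _ = _ := by simp
      have h10 : |(VV z σ : ℝ)| ≤ (1 / 2596 : ℝ) ^ m / (2 * 108 ^ (m + 1)) * (2 * N) ^ m := by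
        refine (hcon σ).le.trans ?_
        gcongr
      gcongr
    refine (Finset.sum_le_sum h8).trans ?_
    rw [Finset.sum_const, nsmul_eq_mul, Finset.card_univ, Fintype.card_fun, Fintype.card_fin,
      Fintype.card_fin]
    push_cast
    rw [← mul_assoc, ← mul_pow]
    norm_num
  rw [hexp] at hlow
  have h11 := hlow.trans hup
  have h12 : (108 : ℝ) ^ (m + 1) * ((1 / 2596 : ℝ) ^ m / (2 * 108 ^ (m + 1)) * (2 * N) ^ m) =
      (N / 649 / 2) ^ m / 2 := by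
    have h13 : (N / 649 / 2) ^ m = (1 / 2596 : ℝ) ^ m * (2 * N) ^ m := by
      rw [← mul_pow]
      congr 1
      ring
    rw [h13]
    field_simp
  rw [h12] at h11
  have h14 : 0 < (N / 649 / 2) ^ m := by positivity
  linarith

end Pool.Agent.H226.DE.Res
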