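import Pool.Agent.H226.DE.Fin
import Pool.Agent.H226.DE.ResTriad
import Pool.Agent.H226.DE.ResBC
import Pool.Agent.H226.DE.ResSumm

/-!
Almost every homogeneous symbol of odd degree `n ≥ 13` is far from resonance.
-/

open MeasureTheory Set Filter Topology
open scoped ENNReal NNReal ContDiff
open H459R3.NS Pool.Agent.X96.HT

namespace Pool.Agent.H226.DE

theorem ae_nres {n : ℕ} (hn : Odd n) (h13 : 13 ≤ n) : ∀ᵐ α : (Fin n → Fin 3) → ℝ,
    ∃ R : ℝ, ∀ ν : ℝ, NRes (syL ν α id) 1 R := by
  filter_upwards [Res.nres_of Res.s_triad Res.s_bc Res.s_summ n hn h13 1 one_pos] with α hα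
  obtain ⟨R, hR⟩ := hα
  refine ⟨R, fun ν z h1 h2 h3 h4 => ?_⟩
  have h5 := hR z h1 h2 h3 h4
  have e0 : Res.mxl z = mx z := rfl
  rw [e0] at h5
  refine h5.trans ?_
  refine le_trans ?_ (im_Zc (fun k => ?_) z)
  · have e : dl (fun k => (syL ν α id k).im) z.1 z.2
        = -(sg n * (2 * Real.pi) ^ n * ∑ σ, α σ * (Res.VV z σ : ℝ)) := by
      unfold dl
      simp only [syL_im hn]
      unfold frq Res.VV
      simp only [id, Pi.sub_apply]
      rw [Finset.mul_sum, Finset.mul_sum, Finset.mul_sum, Finset.mul_sum,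
        ← Finset.sum_neg_distrib, ← Finset.sum_neg_distrib, ← Finset.sum_neg_distrib,
        ← Finset.sum_neg_distrib, ← Finset.sum_sub_distrib, ← Finset.sum_sub_distrib]
      refine Finset.sum_congr rfl fun σ _ => ?_
      push_cast
      ring
    rw [e, abs_neg, abs_mul, abs_mul, sg_abs, one_mul]
    have h6 : (1 : ℝ) ≤ |(2 * Real.pi) ^ n| := by
      rw [abs_of_pos (by have := Real.pi_pos; positivity)]
      exact one_le_pow₀ (by have := Real.pi_gt_three; linarith)
    have h7 := abs_nonneg (∑ σ, α σ * (Res.VV z σ : ℝ))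
    nlinarith
  · unfold syL
    rw [map_sub, Complex.conj_ofReal, kn_neg, map_sum]
    simp_rw [sy_neg, map_mul, Complex.conj_ofReal]

end Pool.Agent.H226.DE
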