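import Mathlib

/-!
Interface for the generic non-resonance of triads (all statements over Mathlib only).
-/

open MeasureTheory Set
open scoped BigOperators

namespace Pool.Agent.H226.DE.Res

/-- Euclidean length of an integer vector -/
noncomputable def len (k : Fin 3 → ℤ) : ℝ := Real.sqrt (∑ j, (k j : ℝ) ^ 2)

/-- the largest of the three lengths of the triad `k = p + (k - p)` -/
noncomputable def mxl (z : (Fin 3 → ℤ) × (Fin 3 → ℤ)) : ℝ :=
  max (len z.1) (max (len z.2) (len (z.1 - z.2)))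

/-- the coefficient of the triad `k = p + (k - p)` for the monomial `σ` -/
def VV {n : ℕ} (z : (Fin 3 → ℤ) × (Fin 3 → ℤ)) (σ : Fin n → Fin 3) : ℤ :=
  ∏ j, z.1 (σ j) - ∏ j, z.2 (σ j) - ∏ j, (z.1 - z.2) (σ j)

/-- Every triad of nonzero integer vectors has a large coefficient.

Paper proof. Write `k = p + q`, all nonzero. For a vector `w` put
`f_w(t) = w 0 + w 1 * t + w 2 * t ^ 2`. (1) If `w ≠ 0` then `f_w` has at most 2 zeros among
`t = 0, ..., 6`. (2) If `w` is the one of the three vectors with the largest sup norm `N`, then at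
most 2 of the values `t = 0, ..., 6` satisfy `|f_w(t)| < N / 2000` (Lagrange interpolation in three
points: the coefficients of `w` are combinations of three values with coefficients at most
`100`). (3) So one of the seven `t` has `f_k(t), f_p(t), f_q(t)` all nonzero and the largest
absolute value at least `N / 2000`. (4) Put `x = f_k(t) = y + z`, `y = f_p(t)`, `z = f_q(t)`,
nonzero integers. For odd `n ≥ 3` we have `|x ^ n - y ^ n - z ^ n| ≥ n * (M / 2) ^ (n - 1)`,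
`M` the largest absolute value: after signs and order it is `(a + b) ^ n - a ^ n - b ^ n` with
`a ≥ b ≥ 1`, `M = a + b ≤ 2 a`, and `(a + b) ^ n ≥ a ^ n + n a ^ (n - 1) b + b ^ n`.
(5) By `Fintype.sum_pow` (or `Finset.prod_univ_sum`), `x ^ n = ∑ σ, ∏ j, (k (σ j) * t ^ (σ j))`,
so `x ^ n - y ^ n - z ^ n = ∑ σ, (∏ j, t ^ (σ j)) * VV (k, p) σ`, with at most `3 ^ n` terms and
coefficients at most `36 ^ n`. So some `|VV σ| ≥ c M ^ (n - 1)`. The Euclidean length is at most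
`2 *` the sup norm. -/
def S_triad : Prop := ∀ n : ℕ, Odd n → 3 ≤ n → ∃ c : ℝ, 0 < c ∧
  ∀ z : (Fin 3 → ℤ) × (Fin 3 → ℤ), z.1 ≠ 0 → z.2 ≠ 0 → z.1 - z.2 ≠ 0 →
    ∃ σ : Fin n → Fin 3, c * mxl z ^ (n - 1) ≤ |(VV z σ : ℝ)|

/-- Borel-Cantelli for countably many linear forms.

Paper proof. It is enough to prove the claim for a.e. `α` in the cube `[-A, A] ^ I`, for each
natural number `A ≥ 1`. On the cube the set `{α | |a₀ + ∑ m, α m * V m| ≤ δ}` has measure at most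
`(2 A) ^ (|I| - 1) * (2 δ / |V j|)` by Fubini in the coordinate `j`
(`MeasureTheory.volume_preserving_piEquivPiSubtypeProd` or `MeasurableEquiv.piFinSuccAbove`,
or `MeasureTheory.lmarginal`). The sum over `i` is finite, so
`MeasureTheory.ae_finite_setOf_mem` gives the claim. -/
def S_bc : Prop := ∀ (I : Type) (_ : Fintype I) (ι : Type) (_ : Countable ι) (V : ι → I → ℝ)
  (a₀ δ : ι → ℝ) (j : ι → I), (∀ i, 0 ≤ δ i) → (∀ i, V i (j i) ≠ 0) →
  Summable (fun i => δ i / |V i (j i)|) →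
  ∀ᵐ α : I → ℝ, {i | |a₀ i + ∑ m, α m * V i m| ≤ δ i}.Finite

/-- Summability over the pairs: `mxl z ^ (-7) ≤ len k ^ (-7/2) * len p ^ (-7/2)` and
`∑ len k ^ (-7/2)` over the nonzero `k` converges in dimension 3 (for instance with
`ZLattice.summable_norm_rpow` or by comparison with a product of one-dimensional sums:
`(1 + len k) ^ (7/2) ≥ ∏ j, (1 + |k j|) ^ (7/6)`). -/
def S_summ : Prop := Summable fun z : {z : (Fin 3 → ℤ) × (Fin 3 → ℤ) //
    z.1 ≠ 0 ∧ z.2 ≠ 0 ∧ z.1 - z.2 ≠ 0} => 1 / mxl z.1 ^ 7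

/-- the assembled statement -/
def S_nres : Prop := ∀ n : ℕ, Odd n → 13 ≤ n → ∀ c : ℝ, 0 < c →
  ∀ᵐ α : (Fin n → Fin 3) → ℝ, ∃ R : ℝ, ∀ z : (Fin 3 → ℤ) × (Fin 3 → ℤ),
    z.1 ≠ 0 → z.2 ≠ 0 → z.1 - z.2 ≠ 0 → R ≤ mxl z →
      c * mxl z ^ 5 ≤ |∑ σ, α σ * (VV z σ : ℝ)|

lemma mxl_ge_one {z : (Fin 3 → ℤ) × (Fin 3 → ℤ)} (h : z.1 ≠ 0) : 1 ≤ mxl z := by
  refine le_trans ?_ (le_max_left _ _)
  obtain ⟨j, hj⟩ : ∃ j, z.1 j ≠ 0 := by
    by_contra hn
    push Not at hn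
    exact h (funext hn)
  unfold len
  rw [Real.one_le_sqrt]
  have h1 : (1 : ℝ) ≤ (z.1 j : ℝ) ^ 2 := by
    have : (1 : ℤ) ≤ (z.1 j) ^ 2 := by
      have := sq_nonneg (z.1 j)
      rcases this.eq_or_lt with h0 | h0
      · exact absurd (pow_eq_zero_iff (two_ne_zero)|>.1 h0.symm) hj
      · omega
    exact_mod_cast this
  exact h1.trans (Finset.single_le_sum (f := fun j => (z.1 j : ℝ) ^ 2)
    (fun i _ => sq_nonneg _) (Finset.mem_univ j))

/-- assembly -/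
theorem nres_of (h1 : S_triad) (h2 : S_bc) (h3 : S_summ) : S_nres := by
  intro n hn hn13 c hc
  obtain ⟨c₁, hc₁, hV⟩ := h1 n hn (by omega)
  have hV' : ∀ i : {z : (Fin 3 → ℤ) × (Fin 3 → ℤ) // z.1 ≠ 0 ∧ z.2 ≠ 0 ∧ z.1 - z.2 ≠ 0},
      ∃ σ : Fin n → Fin 3, c₁ * mxl i.1 ^ (n - 1) ≤ |(VV i.1 σ : ℝ)| := fun i =>
    hV i.1 i.2.1 i.2.2.1 i.2.2.2
  choose j hj using hV'
  have hpos : ∀ i : {z : (Fin 3 → ℤ) × (Fin 3 → ℤ) // z.1 ≠ 0 ∧ z.2 ≠ 0 ∧ z.1 - z.2 ≠ 0},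
      1 ≤ mxl i.1 := fun i => mxl_ge_one i.2.1
  have hj0 : ∀ i, 0 < |(VV i.1 (j i) : ℝ)| := fun i => by
    have := hpos i
    exact lt_of_lt_of_le (by positivity) (hj i)
  have h4 := h2 (Fin n → Fin 3) inferInstance _ inferInstance
    (fun (i : {z : (Fin 3 → ℤ) × (Fin 3 → ℤ) // z.1 ≠ 0 ∧ z.2 ≠ 0 ∧ z.1 - z.2 ≠ 0}) σ =>
      (VV i.1 σ : ℝ)) (fun _ => 0) (fun i => c * mxl i.1 ^ 5) j
    (fun i => by have := hpos i; positivity) (fun i => abs_pos.1 (hj0 i)) ?_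
  · filter_upwards [h4] with α hα
    obtain ⟨B, hB⟩ := (hα.image fun i => mxl i.1).bddAbove
    refine ⟨B + 1, fun z hz1 hz2 hz3 hR => ?_⟩
    by_contra hcon
    have h5 := hB ⟨⟨z, hz1, hz2, hz3⟩, by
      show |(0 : ℝ) + ∑ σ, α σ * (VV z σ : ℝ)| ≤ c * mxl z ^ 5
      rw [zero_add]
      exact (not_le.1 hcon).le, rfl⟩
    simp only at h5
    linarith
  · refine Summable.of_nonneg_of_le (fun i => ?_) (fun i => ?_) (h3.mul_left (c / c₁))
    · have := hpos i; positivity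
    · have h1m := hpos i
      have h6 : c₁ * mxl i.1 ^ 12 ≤ |(VV i.1 (j i) : ℝ)| := by
        refine le_trans ?_ (hj i)
        have h7 : mxl i.1 ^ 12 ≤ mxl i.1 ^ (n - 1) := pow_le_pow_right₀ h1m (by omega)
        gcongr
      rw [div_mul_div_comm, mul_one, div_le_div_iff₀ (hj0 i) (by positivity)]
      calc c * mxl i.1 ^ 5 * (c₁ * mxl i.1 ^ 7) = c * (c₁ * mxl i.1 ^ 12) := by ring
        _ ≤ _ := by gcongr

end Pool.Agent.H226.DE.Res
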